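import Mathlib

/-! # Autocorrelations of spectral densities -/

set_option autoImplicit false

open MeasureTheory Set Filter Topology

namespace Pool.Agent.Y748.DP

/-- the spectral density of a stationary determinantal process -/
structure Sp (φ : ℝ → ℝ) : Prop where
  meas : Measurable φ
  nonneg : ∀ ξ, 0 ≤ φ ξ
  le_one : ∀ ξ, φ ξ ≤ 1
  int : Integrable φ

/-- autocorrelation -/
noncomputable def bb (φ : ℝ → ℝ) (α : ℝ) : ℝ := ∫ ξ, φ ξ * φ (ξ + α)

/-- `L¹` modulus -/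
noncomputable def ww (φ : ℝ → ℝ) (α : ℝ) : ℝ := ∫ ξ, |φ ξ - φ (ξ + α)|

variable {φ : ℝ → ℝ}

lemma Sp.shift (h : Sp φ) (α : ℝ) : Integrable (fun ξ => φ (ξ + α)) := h.int.comp_add_right α

lemma Sp.meas_shift (h : Sp φ) (α : ℝ) : Measurable (fun ξ => φ (ξ + α)) :=
  h.meas.comp (measurable_id.add_const α)

lemma Sp.int_mul (h : Sp φ) (α : ℝ) : Integrable (fun ξ => φ ξ * φ (ξ + α)) := by
  refine h.int.mul_bdd (c := 1) (h.meas_shift α).aestronglyMeasurable ?_
  exact ae_of_all _ fun ξ => by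
    rw [Real.norm_eq_abs, abs_of_nonneg (h.nonneg _)]; exact h.le_one _

lemma Sp.int_add (h : Sp φ) (α : ℝ) : Integrable (fun ξ => φ ξ + φ (ξ + α)) :=
  h.int.add (h.shift α)

lemma Sp.int_abs (h : Sp φ) (α : ℝ) : Integrable (fun ξ => |φ ξ - φ (ξ + α)|) :=
  (h.int.sub (h.shift α)).abs

lemma integral_shift (f : ℝ → ℝ) (α : ℝ) : ∫ ξ, f (ξ + α) = ∫ ξ, f ξ :=
  integral_add_right_eq_self f α

lemma Sp.tot_nonneg (h : Sp φ) : 0 ≤ ∫ ξ, φ ξ := integral_nonneg h.nonneg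

lemma Sp.bb_nonneg (h : Sp φ) (α : ℝ) : 0 ≤ bb φ α :=
  integral_nonneg fun _ => mul_nonneg (h.nonneg _) (h.nonneg _)

lemma ww_nonneg (φ : ℝ → ℝ) (α : ℝ) : 0 ≤ ww φ α := integral_nonneg fun _ => abs_nonneg _

lemma Sp.ww_le (h : Sp φ) (α : ℝ) : ww φ α / 2 ≤ (∫ ξ, φ ξ) - bb φ α := by
  have h1 : ww φ α ≤ ∫ ξ, (φ ξ + φ (ξ + α) - 2 * (φ ξ * φ (ξ + α))) := by
    unfold ww
    refine integral_mono (h.int_abs α) ((h.int.add (h.shift α)).sub ((h.int_mul α).const_mul 2))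
      fun ξ => ?_
    simp only
    have a0 := h.nonneg ξ
    have a1 := h.le_one ξ
    have b0 := h.nonneg (ξ + α)
    have b1 := h.le_one (ξ + α)
    rw [abs_le]
    constructor <;> nlinarith
  have h2 : ∫ ξ, (φ ξ + φ (ξ + α) - 2 * (φ ξ * φ (ξ + α))) =
      (∫ ξ, φ ξ) + (∫ ξ, φ ξ) - 2 * bb φ α := by
    rw [integral_sub (h.int_add α) ((h.int_mul α).const_mul 2),
      integral_add h.int (h.shift α), integral_const_mul, integral_shift φ α]
    rfl
  rw [h2] at h1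
  linarith

lemma Sp.bb_ge (h : Sp φ) (α : ℝ) :
    (∫ ξ, φ ξ) - ww φ α / 2 - 2 * ((∫ ξ, φ ξ) - bb φ 0) ≤ bb φ α := by
  have i0 : Integrable fun ξ => φ ξ * φ ξ := by
    have := h.int_mul 0
    simpa using this
  have i1 : Integrable fun ξ => φ (ξ + α) * φ (ξ + α) := i0.comp_add_right α
  have h0 : bb φ 0 = ∫ ξ, φ ξ * φ ξ := by unfold bb; simp
  have h1 : ∫ ξ, ((φ ξ + φ (ξ + α) - |φ ξ - φ (ξ + α)|) / 2 - ((φ ξ - φ ξ * φ ξ) +
      (φ (ξ + α) - φ (ξ + α) * φ (ξ + α)))) ≤ bb φ α := by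
    unfold bb
    refine integral_mono ((((h.int.add (h.shift α)).sub (h.int_abs α)).div_const 2).sub
      ((h.int.sub i0).add ((h.shift α).sub i1))) (h.int_mul α) fun ξ => ?_
    simp only
    have a0 := h.nonneg ξ
    have a1 := h.le_one ξ
    have b0 := h.nonneg (ξ + α)
    have b1 := h.le_one (ξ + α)
    rcases le_total (φ ξ) (φ (ξ + α)) with hc | hc
    · rw [abs_of_nonpos (by linarith)]
      nlinarith
    · rw [abs_of_nonneg (by linarith)]
      nlinarith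
  have h2 : ∫ ξ, ((φ ξ + φ (ξ + α) - |φ ξ - φ (ξ + α)|) / 2 - ((φ ξ - φ ξ * φ ξ) +
      (φ (ξ + α) - φ (ξ + α) * φ (ξ + α)))) =
      ((∫ ξ, φ ξ) + (∫ ξ, φ ξ) - ww φ α) / 2 - (((∫ ξ, φ ξ) - bb φ 0) +
        ((∫ ξ, φ ξ) - bb φ 0)) := by
    have j1 : Integrable fun ξ => (φ ξ + φ (ξ + α) - |φ ξ - φ (ξ + α)|) / 2 :=
      ((h.int_add α).sub (h.int_abs α)).div_const 2
    have j2 : Integrable fun ξ => φ ξ - φ ξ * φ ξ := h.int.sub i0
    have j3 : Integrable fun ξ => φ (ξ + α) - φ (ξ + α) * φ (ξ + α) := (h.shift α).sub i1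
    have j4 : Integrable fun ξ => (φ ξ - φ ξ * φ ξ) + (φ (ξ + α) - φ (ξ + α) * φ (ξ + α)) :=
      j2.add j3
    rw [integral_sub j1 j4, integral_div,
      integral_sub (h.int_add α) (h.int_abs α), integral_add h.int (h.shift α),
      integral_add j2 j3, integral_sub h.int i0,
      integral_sub (h.shift α) i1, integral_shift φ α, integral_shift (fun ξ => φ ξ * φ ξ) α, h0]
    rfl
  rw [h2] at h1
  linarith

lemma Sp.bb_le_zero (h : Sp φ) (α : ℝ) : bb φ α ≤ bb φ 0 := by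
  have i0 : Integrable fun ξ => φ ξ * φ ξ := by
    have := h.int_mul 0
    simpa using this
  have i1 : Integrable fun ξ => φ (ξ + α) * φ (ξ + α) := i0.comp_add_right α
  have h0 : bb φ 0 = ∫ ξ, φ ξ * φ ξ := by unfold bb; simp
  have h1 : bb φ α ≤ ∫ ξ, (φ ξ * φ ξ + φ (ξ + α) * φ (ξ + α)) / 2 := by
    unfold bb
    refine integral_mono (h.int_mul α) ((i0.add i1).div_const 2) fun ξ => ?_
    simp only
    nlinarith [sq_nonneg (φ ξ - φ (ξ + α))]
  rw [integral_div, integral_add i0 i1, integral_shift (fun ξ => φ ξ * φ ξ) α, ← h0] at h1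
  linarith

lemma Sp.bb_zero_le (h : Sp φ) : bb φ 0 ≤ ∫ ξ, φ ξ := by
  have := h.ww_le 0
  have := ww_nonneg φ 0
  linarith

lemma Sp.ww_add (h : Sp φ) (α β : ℝ) : ww φ (α + β) ≤ ww φ α + ww φ β := by
  have e : ww φ β = ∫ ξ, |φ (ξ + α) - φ (ξ + α + β)| := by
    unfold ww
    exact (integral_shift (fun ξ => |φ ξ - φ (ξ + β)|) α).symm
  have i2 : Integrable fun ξ => |φ (ξ + α) - φ (ξ + α + β)| :=
    (h.int_abs β).comp_add_right α
  rw [e]
  unfold ww
  rw [← integral_add (h.int_abs α) i2]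
  refine integral_mono (h.int_abs (α + β)) ((h.int_abs α).add i2) fun ξ => ?_
  simp only
  rw [← add_assoc]
  exact abs_sub_le _ _ _

lemma ww_neg (φ : ℝ → ℝ) (α : ℝ) : ww φ (-α) = ww φ α := by
  unfold ww
  rw [← integral_shift (fun ξ => |φ ξ - φ (ξ + -α)|) α]
  refine integral_congr_ae (ae_of_all _ fun ξ => ?_)
  simp only
  rw [show ξ + α + -α = ξ by ring, abs_sub_comm]

lemma ww_zero (φ : ℝ → ℝ) : ww φ 0 = 0 := by unfold ww; simp

lemma bb_neg (φ : ℝ → ℝ) (α : ℝ) : bb φ (-α) = bb φ α := by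
  unfold bb
  rw [← integral_shift (fun ξ => φ ξ * φ (ξ + -α)) α]
  refine integral_congr_ae (ae_of_all _ fun ξ => ?_)
  simp only
  rw [show ξ + α + -α = ξ by ring, mul_comm]

lemma Sp.int_prod (h : Sp φ) {g : ℝ → ℝ} (hg : Measurable g) (hb : ∀ x, |g x| ≤ 1) :
    Integrable (fun p : ℝ × ℝ => φ p.1 * φ (p.1 + p.2) * g p.2) (volume.prod volume) := by
  have hm : Measurable (fun p : ℝ × ℝ => φ p.1 * φ (p.1 + p.2) * g p.2) :=
    ((h.meas.comp measurable_fst).mul (h.meas.comp (measurable_fst.add measurable_snd))).mul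
      (hg.comp measurable_snd)
  have hb' : ∀ x, ‖g x‖ ≤ 1 := fun x => by rw [Real.norm_eq_abs]; exact hb x
  have i1 : ∀ x : ℝ, Integrable fun α => φ (x + α) := fun x => by
    have := h.int.comp_add_left x
    exact this
  have i2 : ∀ x : ℝ, Integrable fun α => φ x * φ (x + α) := fun x => (i1 x).const_mul _
  rw [integrable_prod_iff hm.aestronglyMeasurable]
  constructor
  · refine ae_of_all _ fun x => ?_
    exact (i2 x).mul_bdd (c := 1) hg.aestronglyMeasurable (ae_of_all _ hb')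
  · refine (h.int.mul_const (∫ ξ, φ ξ)).mono' ?_ ?_
    · exact hm.norm.aestronglyMeasurable.integral_prod_right'
    · refine ae_of_all _ fun x => ?_
      rw [Real.norm_eq_abs, abs_of_nonneg (integral_nonneg fun _ => norm_nonneg _)]
      have e : ∫ α, φ x * φ (x + α) = φ x * ∫ ξ, φ ξ := by
        rw [integral_const_mul]
        congr 1
        exact integral_add_left_eq_self φ x
      rw [← e]
      refine integral_mono ((i2 x).mul_bdd (c := 1) hg.aestronglyMeasurable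
        (ae_of_all _ hb')).norm (i2 x) fun α => ?_
      simp only
      rw [norm_mul, Real.norm_eq_abs, abs_of_nonneg (mul_nonneg (h.nonneg _) (h.nonneg _))]
      exact mul_le_of_le_one_right (mul_nonneg (h.nonneg _) (h.nonneg _)) (hb' α)

lemma Sp.swap (h : Sp φ) {g : ℝ → ℝ} (hg : Measurable g) (hb : ∀ x, |g x| ≤ 1) :
    ∫ α, bb φ α * g α = ∫ ξ, φ ξ * ∫ α, φ (ξ + α) * g α := by
  have h1 := integral_integral_swap (f := fun ξ α => φ ξ * φ (ξ + α) * g α) (μ := volume)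
    (ν := volume) (h.int_prod hg hb)
  have e1 : ∀ α, ∫ ξ, φ ξ * φ (ξ + α) * g α = bb φ α * g α := fun α => integral_mul_const _ _
  have e2 : ∀ ξ, ∫ α, φ ξ * φ (ξ + α) * g α = φ ξ * ∫ α, φ (ξ + α) * g α := fun ξ => by
    rw [← integral_const_mul]
    refine integral_congr_ae (ae_of_all _ fun α => ?_)
    simp only
    ring
  simp only [e1, e2] at h1
  exact h1.symm

lemma Sp.bb_int (h : Sp φ) : Integrable (bb φ) := by
  have h1 := (h.int_prod (g := fun _ => 1) measurable_const (by simp)).integral_prod_right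
  refine h1.congr (ae_of_all _ fun α => ?_)
  simp only [mul_one]
  rfl

lemma Sp.bb_total (h : Sp φ) : ∫ α, bb φ α = (∫ ξ, φ ξ) ^ 2 := by
  have h1 := h.swap (g := fun _ => 1) measurable_const (by simp)
  simp only [mul_one] at h1
  rw [h1]
  have e : ∀ ξ : ℝ, ∫ α, φ (ξ + α) = ∫ x, φ x := fun ξ => integral_add_left_eq_self φ ξ
  simp only [e]
  rw [integral_mul_const, sq]

/-- the kernel with spectral density `φ` -/
noncomputable def K (φ : ℝ → ℝ) (u : ℝ) : ℂ :=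
  ∫ ξ, (φ ξ : ℂ) * Complex.exp (2 * Real.pi * Complex.I * ξ * u)

lemma Sp.int_cos (h : Sp φ) (u : ℝ) : Integrable fun ξ => φ ξ * Real.cos (2 * Real.pi * ξ * u) := by
  refine h.int.mul_bdd (c := 1) (by fun_prop) (ae_of_all _ fun ξ => ?_)
  rw [Real.norm_eq_abs]; exact Real.abs_cos_le_one _

lemma Sp.int_sin (h : Sp φ) (u : ℝ) : Integrable fun ξ => φ ξ * Real.sin (2 * Real.pi * ξ * u) := by
  refine h.int.mul_bdd (c := 1) (by fun_prop) (ae_of_all _ fun ξ => ?_)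
  rw [Real.norm_eq_abs]; exact Real.abs_sin_le_one _

lemma Sp.K_sq (h : Sp φ) (u : ℝ) : ‖K φ u‖ ^ 2 =
    (∫ ξ, φ ξ * Real.cos (2 * Real.pi * ξ * u)) ^ 2 +
      (∫ ξ, φ ξ * Real.sin (2 * Real.pi * ξ * u)) ^ 2 := by
  have e : K φ u = ((∫ ξ, φ ξ * Real.cos (2 * Real.pi * ξ * u) : ℝ) : ℂ) +
      ((∫ ξ, φ ξ * Real.sin (2 * Real.pi * ξ * u) : ℝ) : ℂ) * Complex.I := by
    rw [← integral_complex_ofReal, ← integral_complex_ofReal, ← integral_mul_const,
      ← integral_add (h.int_cos u).ofReal ((h.int_sin u).ofReal.mul_const _)]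
    unfold K
    refine integral_congr_ae (ae_of_all _ fun ξ => ?_)
    simp only
    rw [show (2 * Real.pi * Complex.I * ξ * u : ℂ) = ((2 * Real.pi * ξ * u : ℝ) : ℂ) * Complex.I by
      push_cast; ring, Complex.exp_mul_I, ← Complex.ofReal_cos, ← Complex.ofReal_sin]
    push_cast
    ring
  rw [e, Complex.sq_norm, Complex.normSq_add_mul_I]

lemma Sp.K_bb (h : Sp φ) (u : ℝ) :
    ∫ α, bb φ α * Real.cos (2 * Real.pi * α * u) = ‖K φ u‖ ^ 2 := by
  rw [h.swap (g := fun α => Real.cos (2 * Real.pi * α * u)) (by fun_prop)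
    (fun x => Real.abs_cos_le_one _), h.K_sq]
  have e : ∀ ξ : ℝ, ∫ α, φ (ξ + α) * Real.cos (2 * Real.pi * α * u) =
      Real.cos (2 * Real.pi * ξ * u) * (∫ x, φ x * Real.cos (2 * Real.pi * x * u)) +
      Real.sin (2 * Real.pi * ξ * u) * (∫ x, φ x * Real.sin (2 * Real.pi * x * u)) := by
    intro ξ
    have h1 : ∫ α, φ (ξ + α) * Real.cos (2 * Real.pi * α * u) =
        ∫ α, (fun x => φ x * Real.cos (2 * Real.pi * (x - ξ) * u)) (ξ + α) := by
      refine integral_congr_ae (ae_of_all _ fun α => ?_)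
      simp only
      rw [show ξ + α - ξ = α by ring]
    rw [h1, integral_add_left_eq_self (fun x => φ x * Real.cos (2 * Real.pi * (x - ξ) * u)) ξ,
      ← integral_const_mul, ← integral_const_mul,
      ← integral_add ((h.int_cos u).const_mul _) ((h.int_sin u).const_mul _)]
    refine integral_congr_ae (ae_of_all _ fun x => ?_)
    simp only
    rw [show 2 * Real.pi * (x - ξ) * u = 2 * Real.pi * x * u - 2 * Real.pi * ξ * u by ring,
      Real.cos_sub]
    ring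
  simp only [e]
  obtain ⟨C, hC⟩ : ∃ C : ℝ, C = ∫ x, φ x * Real.cos (2 * Real.pi * x * u) := ⟨_, rfl⟩
  obtain ⟨S, hS⟩ : ∃ S : ℝ, S = ∫ x, φ x * Real.sin (2 * Real.pi * x * u) := ⟨_, rfl⟩
  rw [← hC, ← hS]
  have e2 : ∫ ξ, φ ξ * (Real.cos (2 * Real.pi * ξ * u) * C + Real.sin (2 * Real.pi * ξ * u) * S) =
      ∫ ξ, ((φ ξ * Real.cos (2 * Real.pi * ξ * u)) * C +
        (φ ξ * Real.sin (2 * Real.pi * ξ * u)) * S) := by
    refine integral_congr_ae (ae_of_all _ fun ξ => ?_)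
    simp only
    ring
  rw [e2, integral_add ((h.int_cos u).mul_const _) ((h.int_sin u).mul_const _),
    integral_mul_const, integral_mul_const, ← hC, ← hS]
  ring

end Pool.Agent.Y748.DP
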