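import Pool.Agent.Y748.DP.Ana
import Pool.Agent.Y749.Rig.Tst2

/-! # Superpositions of determinantal processes with small number variance -/

set_option autoImplicit false

open MeasureTheory Set Filter Topology

namespace Pool.Agent.Y748.DP

open Pool.Agent.Y749.Rig (fl tr tr_even tr_nonneg tr_cont tr_supp tr_eq tr_int adm_tr int_fl
  fl_int fl_cont fl_tr inv_four parseval fl_even)

/-- the spectral densities of a superposition of `n` determinantal processes of total density `1` -/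
structure Fam (n : ℕ) (φ : Fin n → ℝ → ℝ) : Prop where
  sp : ∀ i, Sp (φ i)
  tot : ∑ i, ∫ ξ, φ i ξ = 1

variable {n : ℕ} {φ : Fin n → ℝ → ℝ}

noncomputable def BB (φ : Fin n → ℝ → ℝ) (α : ℝ) : ℝ := ∑ i, bb (φ i) α

noncomputable def WW (φ : Fin n → ℝ → ℝ) (α : ℝ) : ℝ := ∑ i, ww (φ i) α / 2

noncomputable def YY (φ : Fin n → ℝ → ℝ) (u : ℝ) : ℝ := ∑ i, ‖K (φ i) u‖ ^ 2

lemma Fam.WW_le (h : Fam n φ) (α : ℝ) : WW φ α ≤ 1 - BB φ α := by
  unfold WW BB
  rw [← h.tot, ← Finset.sum_sub_distrib]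
  exact Finset.sum_le_sum fun i _ => (h.sp i).ww_le α

lemma Fam.BB_ge (h : Fam n φ) (α : ℝ) : 1 - WW φ α - 2 * (1 - BB φ 0) ≤ BB φ α := by
  have e : 1 - WW φ α - 2 * (1 - BB φ 0) = ∑ i, ((∫ ξ, φ i ξ) - ww (φ i) α / 2 -
      2 * ((∫ ξ, φ i ξ) - bb (φ i) 0)) := by
    rw [Finset.sum_sub_distrib, Finset.sum_sub_distrib, ← Finset.mul_sum, Finset.sum_sub_distrib,
      h.tot]
    rfl
  rw [e]
  exact Finset.sum_le_sum fun i _ => (h.sp i).bb_ge α

lemma Fam.BB_le (h : Fam n φ) (α : ℝ) : BB φ α ≤ BB φ 0 :=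
  Finset.sum_le_sum fun i _ => (h.sp i).bb_le_zero α

lemma Fam.BB_zero (h : Fam n φ) : BB φ 0 ≤ 1 := by
  rw [← h.tot]
  exact Finset.sum_le_sum fun i _ => (h.sp i).bb_zero_le

lemma Fam.BB_nonneg (h : Fam n φ) (α : ℝ) : 0 ≤ BB φ α :=
  Finset.sum_nonneg fun i _ => (h.sp i).bb_nonneg α

lemma Fam.BB_int (h : Fam n φ) : Integrable (BB φ) :=
  integrable_finsetSum _ fun i _ => (h.sp i).bb_int

lemma BB_neg (φ : Fin n → ℝ → ℝ) (α : ℝ) : BB φ (-α) = BB φ α :=
  Finset.sum_congr rfl fun i _ => bb_neg (φ i) α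

lemma Fam.BB_tot (h : Fam n φ) : ∫ α, BB φ α = ∑ i, (∫ ξ, φ i ξ) ^ 2 := by
  unfold BB
  rw [integral_finsetSum _ fun i _ => (h.sp i).bb_int]
  exact Finset.sum_congr rfl fun i _ => (h.sp i).bb_total

lemma Fam.BB_tot_le (h : Fam n φ) : ∫ α, BB φ α ≤ 1 := by
  rw [h.BB_tot]
  calc ∑ i, (∫ ξ, φ i ξ) ^ 2 ≤ ∑ i, ∫ ξ, φ i ξ := by
        refine Finset.sum_le_sum fun i _ => ?_
        have h0 := (h.sp i).tot_nonneg
        have h1 : ∫ ξ, φ i ξ ≤ 1 := by
          rw [← h.tot]
          exact Finset.single_le_sum (f := fun i => ∫ ξ, φ i ξ)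
            (fun j _ => (h.sp j).tot_nonneg) (Finset.mem_univ i)
        nlinarith
    _ = 1 := h.tot

lemma WW_nonneg (φ : Fin n → ℝ → ℝ) (α : ℝ) : 0 ≤ WW φ α :=
  Finset.sum_nonneg fun i _ => div_nonneg (ww_nonneg _ _) (by norm_num)

lemma WW_zero (φ : Fin n → ℝ → ℝ) : WW φ 0 = 0 := by
  unfold WW; simp [ww_zero]

lemma WW_neg (φ : Fin n → ℝ → ℝ) (α : ℝ) : WW φ (-α) = WW φ α :=
  Finset.sum_congr rfl fun i _ => by rw [ww_neg]

lemma Fam.WW_add (h : Fam n φ) (α β : ℝ) : WW φ (α + β) ≤ WW φ α + WW φ β := by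
  unfold WW
  rw [← Finset.sum_add_distrib]
  refine Finset.sum_le_sum fun i _ => ?_
  have := (h.sp i).ww_add α β
  linarith

lemma Fam.WW_mul (h : Fam n φ) (m : ℕ) (s : ℝ) : WW φ (m * s) ≤ m * WW φ s := by
  induction m with
  | zero => simp [WW_zero]
  | succ m ih =>
    have h1 := h.WW_add (m * s) s
    push_cast
    rw [show ((m : ℝ) + 1) * s = m * s + s by ring]
    linarith

lemma Fam.YY_eq (h : Fam n φ) (u : ℝ) : YY φ u = fl (BB φ) u := by
  unfold YY fl BB
  have e : ∀ α : ℝ, (∑ i, bb (φ i) α) * Real.cos (2 * Real.pi * α * u) =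
      ∑ i, bb (φ i) α * Real.cos (2 * Real.pi * α * u) := fun α => Finset.sum_mul _ _ _
  simp only [e]
  rw [integral_finsetSum]
  · exact Finset.sum_congr rfl fun i _ => ((h.sp i).K_bb u).symm
  · intro i _
    refine (h.sp i).bb_int.mul_bdd (c := 1) (by fun_prop) (ae_of_all _ fun ξ => ?_)
    rw [Real.norm_eq_abs]; exact Real.abs_cos_le_one _

/-- the integrated structure factor -/
noncomputable def AA (φ : Fin n → ℝ → ℝ) (κ : ℝ) : ℝ := ∫ α, tr κ α * (1 - BB φ α)

lemma Fam.SS_mem (h : Fam n φ) (α : ℝ) : 0 ≤ 1 - BB φ α ∧ 1 - BB φ α ≤ 1 := by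
  have h1 := h.BB_le α
  have h2 := h.BB_zero
  have h3 := h.BB_nonneg α
  constructor <;> linarith

lemma Fam.int_tr (h : Fam n φ) {κ : ℝ} (hκ : 0 < κ) :
    Integrable fun α => tr κ α * (1 - BB φ α) := by
  refine (tr_int hκ).mul_bdd (c := 1) ?_ (ae_of_all _ fun α => ?_)
  · exact aestronglyMeasurable_const.sub h.BB_int.aestronglyMeasurable
  · rw [Real.norm_eq_abs, abs_of_nonneg (h.SS_mem α).1]
    exact (h.SS_mem α).2

lemma tr_one {κ : ℝ} (hκ : 0 < κ) : ∫ α, tr κ α = 1 := by
  have h1 := inv_four (adm_tr hκ)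
  have h2 : fl (tr κ) 0 = ∫ α, tr κ α := by
    unfold fl; simp
  rw [← h2]
  have e1 : ∀ α, tr κ (-α) = tr κ α := tr_even κ
  have h3 : (fun α => tr κ α) = fun α => (fun β => max 0 (1 - |β|)) (α / κ) * (1 / κ) := by
    funext α
    simp only [tr, abs_div, abs_of_pos hκ]
    ring
  rw [h2, h3, integral_mul_const, Measure.integral_comp_div (fun β => max 0 (1 - |β|)) κ,
    abs_of_pos hκ, smul_eq_mul]
  have h4 : ∫ β : ℝ, max 0 (1 - |β|) = 1 := by
    have h5 : ∫ β : ℝ, max 0 (1 - |β|) = 2 * ∫ β in Ioi (0 : ℝ), max 0 (1 - β) :=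
      integral_comp_abs (f := fun β => max 0 (1 - β))
    rw [h5]
    have h6 : ∫ β in Ioi (0 : ℝ), max 0 (1 - β) = ∫ β in (0 : ℝ)..1, (1 - β) := by
      rw [intervalIntegral.integral_of_le zero_le_one]
      rw [← Ioc_union_Ioi_eq_Ioi (zero_le_one (α := ℝ)), setIntegral_union]
      · have h7 : ∫ β in Ioi (1 : ℝ), max 0 (1 - β) = 0 := by
          refine setIntegral_eq_zero_of_forall_eq_zero fun β hβ => ?_
          rw [max_eq_left]
          linarith [mem_Ioi.1 hβ]
        rw [h7, add_zero]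
        refine setIntegral_congr_fun measurableSet_Ioc fun β hβ => ?_
        rw [max_eq_right]
        linarith [hβ.2]
      · rw [Set.disjoint_left]
        intro x hx hx2
        exact absurd hx.2 (not_le.2 hx2)
      · exact measurableSet_Ioi
      · exact (Continuous.integrableOn_Icc (by fun_prop)).mono_set Ioc_subset_Icc_self
      · refine (integrableOn_zero).congr_fun (fun β hβ => ?_) measurableSet_Ioi
        simp only
        rw [max_eq_left]
        linarith [mem_Ioi.1 hβ]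
    have h8 : ∫ β in (0 : ℝ)..1, (1 - β) = 1 / 2 := by
      rw [intervalIntegral.integral_sub (by
        apply Continuous.intervalIntegrable; fun_prop) (by
        apply Continuous.intervalIntegrable; fun_prop), integral_id,
        intervalIntegral.integral_const]
      norm_num
    rw [h6, h8]
    norm_num
  rw [h4]
  field_simp

lemma Fam.zero_le_AA (h : Fam n φ) {κ : ℝ} (hκ : 0 < κ) : 1 - BB φ 0 ≤ AA φ κ := by
  unfold AA
  calc 1 - BB φ 0 = (∫ α, tr κ α) * (1 - BB φ 0) := by rw [tr_one hκ, one_mul]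
    _ = ∫ α, tr κ α * (1 - BB φ 0) := (integral_mul_const _ _).symm
    _ ≤ _ := by
      refine integral_mono ((tr_int hκ).mul_const _) (h.int_tr hκ) fun α => ?_
      simp only
      apply mul_le_mul_of_nonneg_left _ (tr_nonneg hκ α)
      linarith [h.BB_le α]

lemma Fam.ii (h : Fam n φ) (a b : ℝ) : IntervalIntegrable (fun α => 1 - BB φ α) volume a b :=
  intervalIntegrable_const.sub h.BB_int.intervalIntegrable

lemma Fam.mid (h : Fam n φ) {κ : ℝ} (hκ : 0 < κ) {a b : ℝ} (hab : a ≤ b) (ha : -(κ / 2) ≤ a)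
    (hb : b ≤ κ / 2) : ∫ α in a..b, (1 - BB φ α) ≤ 2 * κ * AA φ κ := by
  rw [intervalIntegral.integral_of_le hab]
  unfold AA
  rw [← integral_const_mul]
  calc ∫ α in Ioc a b, (1 - BB φ α) ≤ ∫ α in Ioc a b, 2 * κ * (tr κ α * (1 - BB φ α)) := by
        refine setIntegral_mono_on ?_ ((h.int_tr hκ).const_mul _).integrableOn measurableSet_Ioc
          fun α hα => ?_
        · exact (integrableOn_const (by simp)).sub h.BB_int.integrableOn
        · have h1 : |α| ≤ κ / 2 := abs_le.2 ⟨by linarith [hα.1], by linarith [hα.2]⟩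
          have h2 : 1 ≤ 2 * κ * tr κ α := by
            have : 1 / 2 ≤ max 0 (1 - |α| / κ) := by
              refine le_max_of_le_right ?_
              have : |α| / κ ≤ 1 / 2 := by
                rw [div_le_iff₀ hκ]; linarith
              linarith
            unfold tr
            have e : 2 * κ * (max 0 (1 - |α| / κ) / κ) = 2 * max 0 (1 - |α| / κ) := by
              field_simp
            rw [e]
            linarith
          have h3 := (h.SS_mem α).1
          nlinarith
    _ ≤ ∫ α, 2 * κ * (tr κ α * (1 - BB φ α)) := by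
        refine setIntegral_le_integral ((h.int_tr hκ).const_mul _) (ae_of_all _ fun α => ?_)
        have h3 := (h.SS_mem α).1
        have h4 := tr_nonneg hκ α
        positivity

lemma Fam.AA_nonneg (h : Fam n φ) {κ : ℝ} (hκ : 0 < κ) : 0 ≤ AA φ κ :=
  integral_nonneg fun α => mul_nonneg (tr_nonneg hκ α) (h.SS_mem α).1

lemma Fam.small (h : Fam n φ) {κ : ℝ} (hκ : 0 < κ) {r : ℝ} (h0 : 0 ≤ r) (h1 : r ≤ κ) :
    WW φ r ≤ 32 * AA φ κ := by
  have hs : WW φ r ≤ 2 * WW φ (r / 2) := by
    have := h.WW_add (r / 2) (r / 2)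
    rw [add_halves] at this
    linarith
  have h2 : κ / 4 * WW φ (r / 2) ≤ 4 * κ * AA φ κ := by
    have h3 : ∫ s in (0 : ℝ)..(κ / 4), WW φ (r / 2) ≤
        ∫ s in (0 : ℝ)..(κ / 4), ((1 - BB φ (r / 2 - s)) + (1 - BB φ s)) := by
      refine intervalIntegral.integral_mono_on (by positivity) (by simp) ?_ fun s _ => ?_
      · refine IntervalIntegrable.add ?_ (h.ii _ _)
        have := (h.ii (r / 2) (r / 2 - κ / 4)).comp_sub_left (r / 2)
        simpa using this
      · have h4 := h.WW_add (r / 2 - s) s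
        rw [sub_add_cancel] at h4
        have h5 := h.WW_le (r / 2 - s)
        have h6 := h.WW_le s
        linarith
    rw [intervalIntegral.integral_const, smul_eq_mul, sub_zero,
      intervalIntegral.integral_add _ (h.ii _ _),
      intervalIntegral.integral_comp_sub_left (fun x => 1 - BB φ x) (r / 2), sub_zero] at h3
    · have h4 := h.mid hκ (a := r / 2 - κ / 4) (b := r / 2) (by linarith) (by linarith)
        (by linarith)
      have h5 := h.mid hκ (a := 0) (b := κ / 4) (by linarith) (by linarith) (by linarith)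
      linarith
    · have := (h.ii (r / 2) (r / 2 - κ / 4)).comp_sub_left (r / 2)
      simpa using this
  have h3 : WW φ (r / 2) ≤ 16 * AA φ κ := by
    have : κ / 4 * WW φ (r / 2) ≤ κ / 4 * (16 * AA φ κ) := by linarith
    exact le_of_mul_le_mul_left this (by positivity)
  linarith

lemma Fam.step (h : Fam n φ) {κ : ℝ} (hκ : 0 < κ) {a s : ℝ} (ha : 0 ≤ a) (h0 : 0 < s)
    (h1 : s ≤ κ) : s * WW φ a ≤ a * (1 - BB φ s) + 32 * AA φ κ * s := by
  obtain ⟨m, hm⟩ : ∃ m : ℕ, m = ⌊a / s⌋₊ := ⟨_, rfl⟩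
  have hm1 : (m : ℝ) ≤ a / s := by rw [hm]; exact Nat.floor_le (by positivity)
  have hm2 : a / s < m + 1 := by rw [hm]; exact Nat.lt_floor_add_one _
  rw [le_div_iff₀ h0] at hm1
  rw [div_lt_iff₀ h0] at hm2
  have h2 := h.WW_add (m * s) (a - m * s)
  rw [add_sub_cancel] at h2
  have h3 := h.WW_mul m s
  have h4 := h.small hκ (r := a - m * s) (by linarith) (by nlinarith)
  have h5 := h.WW_le s
  have h6 := WW_nonneg φ s
  have h7 : WW φ a ≤ m * WW φ s + 32 * AA φ κ := by linarith
  calc s * WW φ a ≤ s * (m * WW φ s + 32 * AA φ κ) := by gcongr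
    _ = (m * s) * WW φ s + 32 * AA φ κ * s := by ring
    _ ≤ a * WW φ s + 32 * AA φ κ * s := by gcongr
    _ ≤ _ := by gcongr

lemma tr_mom {κ : ℝ} (hκ : 0 < κ) : ∫ s in (0 : ℝ)..κ, tr κ s * s = κ / 6 := by
  have e : ∫ s in (0 : ℝ)..κ, tr κ s * s = ∫ s in (0 : ℝ)..κ, (1 / κ * s - 1 / κ ^ 2 * s ^ 2) := by
    refine intervalIntegral.integral_congr fun s hs => ?_
    rw [uIcc_of_le hκ.le] at hs
    rw [tr_eq hκ hs.1 hs.2]
    field_simp
  rw [e, intervalIntegral.integral_sub (by
    apply Continuous.intervalIntegrable; fun_prop) (by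
    apply Continuous.intervalIntegrable; fun_prop), intervalIntegral.integral_const_mul,
    intervalIntegral.integral_const_mul, integral_id, integral_pow]
  field_simp
  ring

lemma Fam.half (h : Fam n φ) {κ : ℝ} (hκ : 0 < κ) :
    ∫ s in (0 : ℝ)..κ, tr κ s * (1 - BB φ s) ≤ AA φ κ / 2 := by
  rw [intervalIntegral.integral_of_le hκ.le]
  have h1 : ∫ x, (fun y => tr κ y * (1 - BB φ y)) |x| =
      2 * ∫ x in Ioi (0 : ℝ), tr κ x * (1 - BB φ x) :=
    integral_comp_abs (f := fun y => tr κ y * (1 - BB φ y))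
  have h2 : ∫ x, (fun y => tr κ y * (1 - BB φ y)) |x| = AA φ κ := by
    unfold AA
    refine integral_congr_ae (ae_of_all _ fun x => ?_)
    simp only
    rcases le_total 0 x with hx | hx
    · rw [abs_of_nonneg hx]
    · rw [abs_of_nonpos hx, tr_even, BB_neg]
  rw [h2] at h1
  have h3 : ∫ s in Ioc (0 : ℝ) κ, tr κ s * (1 - BB φ s) ≤
      ∫ x in Ioi (0 : ℝ), tr κ x * (1 - BB φ x) := by
    refine setIntegral_mono_set (h.int_tr hκ).integrableOn (ae_of_all _ fun x => ?_)
      (Eventually.of_forall fun x hx => hx.1)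
    exact mul_nonneg (tr_nonneg hκ x) (h.SS_mem x).1
  linarith

/-- the main estimate -/
theorem Fam.core (h : Fam n φ) {κ : ℝ} (hκ : 0 < κ) {a : ℝ} (ha : 0 ≤ a) :
    WW φ a ≤ 3 * a * AA φ κ / κ + 32 * AA φ κ := by
  have h1 : ∫ s in (0 : ℝ)..κ, (tr κ s * s) * WW φ a ≤
      ∫ s in (0 : ℝ)..κ, (a * (tr κ s * (1 - BB φ s)) + 32 * AA φ κ * (tr κ s * s)) := by
    refine intervalIntegral.integral_mono_on hκ.le ?_ ?_ fun s hs => ?_
    · apply Continuous.intervalIntegrable
      have := tr_cont κ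
      fun_prop
    · refine IntervalIntegrable.add ((h.int_tr hκ).intervalIntegrable.const_mul _) ?_
      apply Continuous.intervalIntegrable
      have := tr_cont κ
      fun_prop
    · rcases hs.1.eq_or_lt with h0 | h0
      · rw [← h0]
        have h2 := (h.SS_mem 0).1
        have h3 := tr_nonneg hκ 0
        simp only [mul_zero, zero_mul, add_zero]
        positivity
      · have h2 := h.step hκ ha h0 hs.2
        have h3 := tr_nonneg hκ s
        calc (tr κ s * s) * WW φ a = tr κ s * (s * WW φ a) := by ring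
          _ ≤ tr κ s * (a * (1 - BB φ s) + 32 * AA φ κ * s) := by gcongr
          _ = _ := by ring
  have i1 : IntervalIntegrable (fun s => tr κ s * s) volume 0 κ := by
    apply Continuous.intervalIntegrable
    have := tr_cont κ
    fun_prop
  rw [intervalIntegral.integral_mul_const, intervalIntegral.integral_add
    ((h.int_tr hκ).intervalIntegrable.const_mul _) (i1.const_mul _),
    intervalIntegral.integral_const_mul, intervalIntegral.integral_const_mul, tr_mom hκ] at h1
  have h2 := mul_le_mul_of_nonneg_left (h.half hκ) ha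
  have h3 : κ / 6 * WW φ a ≤ κ / 6 * (3 * a * AA φ κ / κ + 32 * AA φ κ) := by
    have e : κ / 6 * (3 * a * AA φ κ / κ + 32 * AA φ κ) =
        a * (AA φ κ / 2) + 32 * AA φ κ * (κ / 6) := by
      field_simp
      ring
    rw [e]
    linarith
  exact le_of_mul_le_mul_left h3 (by positivity)

/-- the distance of the autocorrelation to the triangle -/
theorem Fam.dist (h : Fam n φ) {δ : ℝ} (hδ : 0 ≤ δ) (h0 : 1 - BB φ 0 ≤ δ)
    (hw : ∀ a : ℝ, 0 ≤ a → a ≤ 1 → WW φ a ≤ a + δ) :
    (∫ α, |BB φ α - tr 1 α|) ≤ 12 * δ ∧ 1 - 6 * δ ≤ ∫ α, BB φ α := by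
  have hi : Integrable fun α => BB φ α - tr 1 α := h.BB_int.sub (tr_int one_pos)
  have key : ∀ α, tr 1 α - BB φ α ≤ (Icc (-1 : ℝ) 1).indicator (fun _ => 3 * δ) α := by
    intro α
    by_cases hα : α ∈ Icc (-1 : ℝ) 1
    · rw [indicator_of_mem hα]
      have h1 : |α| ≤ 1 := abs_le.2 hα
      have h2 := h.BB_ge α
      have h3 : WW φ α ≤ |α| + δ := by
        rcases le_total 0 α with h4 | h4
        · rw [abs_of_nonneg h4]; exact hw α h4 hα.2
        · rw [abs_of_nonpos h4, ← WW_neg]; exact hw (-α) (by linarith) (by linarith [hα.1])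
      have h5 : tr 1 α = 1 - |α| := by
        unfold tr
        rw [div_one, div_one, max_eq_right (by linarith)]
      rw [h5]
      linarith
    · rw [indicator_of_notMem hα]
      have h1 : 1 ≤ |α| := by
        by_contra hcon
        push Not at hcon
        exact hα (abs_le.1 hcon.le)
      rw [tr_supp one_pos α h1]
      linarith [h.BB_nonneg α]
  have hpos : ∀ α, 0 ≤ (Icc (-1 : ℝ) 1).indicator (fun _ => 3 * δ) α := fun α =>
    indicator_nonneg (fun _ _ => by positivity) α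
  have hind : Integrable ((Icc (-1 : ℝ) 1).indicator (fun _ : ℝ => 3 * δ)) := by
    refine (integrable_indicator_iff measurableSet_Icc).2 (integrableOn_const (by simp))
  have hindI : ∫ α, (Icc (-1 : ℝ) 1).indicator (fun _ : ℝ => 3 * δ) α = 6 * δ := by
    rw [integral_indicator measurableSet_Icc, setIntegral_const]
    simp
    ring
  have habs : ∀ α, |BB φ α - tr 1 α| ≤ (BB φ α - tr 1 α) +
      2 * (Icc (-1 : ℝ) 1).indicator (fun _ => 3 * δ) α := by
    intro α
    have h1 := key α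
    have h2 := hpos α
    rw [abs_le]
    constructor <;> linarith
  have h1 : ∫ α, (BB φ α - tr 1 α) ≤ 0 := by
    rw [integral_sub h.BB_int (tr_int one_pos), tr_one one_pos]
    linarith [h.BB_tot_le]
  constructor
  · calc (∫ α, |BB φ α - tr 1 α|) ≤ ∫ α, ((BB φ α - tr 1 α) +
        2 * (Icc (-1 : ℝ) 1).indicator (fun _ => 3 * δ) α) :=
          integral_mono hi.abs (hi.add (hind.const_mul 2)) habs
      _ = (∫ α, (BB φ α - tr 1 α)) + 2 * (6 * δ) := by
          rw [integral_add hi (hind.const_mul 2), integral_const_mul, hindI]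
      _ ≤ 12 * δ := by linarith
  · have h2 : ∫ α, (tr 1 α - BB φ α) ≤ 6 * δ := by
      rw [← hindI]
      exact integral_mono ((tr_int one_pos).sub h.BB_int) hind key
    rw [integral_sub (tr_int one_pos) h.BB_int, tr_one one_pos] at h2
    linarith

/-- the pair correlation function is close to the one of the sine process -/
theorem Fam.close (h : Fam n φ) {δ : ℝ} (hd : (∫ α, |BB φ α - tr 1 α|) ≤ δ) {u : ℝ} (hu : u ≠ 0) :
    |YY φ u - (Real.sin (Real.pi * u) / (Real.pi * u)) ^ 2| ≤ δ := by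
  have h1 := fl_tr one_pos hu
  rw [mul_one] at h1
  rw [h.YY_eq, ← h1]
  have hc : ∀ f : ℝ → ℝ, Integrable f → Integrable fun α => f α * Real.cos (2 * Real.pi * α * u) :=
    fun f hf => by
      refine hf.mul_bdd (c := 1) (by fun_prop) (ae_of_all _ fun ξ => ?_)
      rw [Real.norm_eq_abs]; exact Real.abs_cos_le_one _
  unfold fl
  rw [← integral_sub (hc _ h.BB_int) (hc _ (tr_int one_pos)), ← Real.norm_eq_abs]
  refine (norm_integral_le_of_norm_le (h.BB_int.sub (tr_int one_pos)).abs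
    (ae_of_all _ fun α => ?_)).trans hd
  rw [← sub_mul, norm_mul, Real.norm_eq_abs, Real.norm_eq_abs]
  exact mul_le_of_le_one_right (abs_nonneg _) (Real.abs_cos_le_one _)

end Pool.Agent.Y748.DP
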