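import Pool.Agent.Y749.Rig.Stm1
import Pool.Agent.Y750.OM.Conv1

/-! # The diagonal of the pair measure -/

set_option autoImplicit false

open MeasureTheory Set Filter Topology
open scoped NNReal ENNReal

namespace Pool.Agent.Y748.DP

open H370 (Zf mult good_zeta mem_Zf NN zset mult_refl nn_asymp)
open Pool.Agent.Y749.Rig (RR ZZ mm mm_nonneg mem_ZZ Zf_sub_ZZ ZZ_split ZZ_disj NN_eq' nT nT_pos
  Mp Mp_real NF one_lt_log)

lemma tot_aux (K : ℕ) : ∀ ε : ℝ, 0 < ε → ∀ᶠ T : ℝ in atTop,
    (1 - (1 / 2) ^ K - ε) * nT T ≤ ∑ s ∈ ZZ T, mm s := by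
  classical
  induction K with
  | zero =>
    intro ε hε
    filter_upwards [eventually_ge_atTop 10] with T hT
    have hn := nT_pos hT
    have h1 : 0 ≤ ∑ s ∈ ZZ T, mm s := Finset.sum_nonneg fun s _ => mm_nonneg s
    rw [pow_zero]
    nlinarith
  | succ K ih =>
    intro ε hε
    obtain ⟨C, T0, hC, hT0, hnn⟩ := nn_asymp good_zeta
    obtain ⟨e, he⟩ : ∃ e : ℝ, e = min ε 1 / 4 := ⟨_, rfl⟩
    have he0 : 0 < e := by rw [he]; positivity
    have he1 : e ≤ 1 / 4 := by
      rw [he]
      have := min_le_right ε 1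
      linarith
    have he2 : e ≤ ε / 4 := by
      rw [he]
      have := min_le_left ε 1
      linarith
    have h12 : Tendsto (fun T : ℝ => 1 / 2 * T) atTop atTop :=
      tendsto_id.const_mul_atTop (by norm_num)
    have hpi := Real.pi_gt_three
    have hpi4 := Real.pi_lt_four
    filter_upwards [h12.eventually (ih e he0), h12.eventually (eventually_ge_atTop T0),
      Real.tendsto_log_atTop.eventually_ge_atTop (8 * Real.pi * (2 + C) / ε), eventually_ge_atTop 20]
      with T h1 h2 h3 hT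
    obtain ⟨q, hq⟩ : ∃ q : ℝ, q = 1 / 2 * T := ⟨_, rfl⟩
    rw [← hq] at h1 h2
    have hTq : T = 2 * q := by rw [hq]; ring
    have hTp : 0 < T := by linarith
    have h4 := hnn q h2 q (2 * q) le_rfl (by linarith) (by linarith) le_rfl
    have hsplit : ∑ s ∈ ZZ T, mm s = ∑ s ∈ ZZ q, mm s + (NN riemannZeta q (2 * q) : ℝ) := by
      rw [ZZ_split (q := q) (T := T) (by linarith) (by linarith), Finset.sum_union
        (ZZ_disj (by linarith)), NN_eq' (by linarith), hTq]
    have hl2 : 0 < Real.log 2 := Real.log_pos (by norm_num)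
    have hl2' : Real.log 2 ≤ 1 := by have := Real.log_two_lt_d9; linarith
    have hlog : Real.log q = Real.log T - Real.log 2 := by
      rw [hTq, Real.log_mul (by norm_num) (by linarith)]; ring
    have hnq : nT T / 2 - T ≤ nT q := by
      unfold nT
      rw [hlog, hq]
      have : T * Real.log T / (2 * Real.pi) / 2 - T ≤
          T * Real.log T / (2 * Real.pi) / 2 - T * Real.log 2 / (4 * Real.pi) := by
        have : T * Real.log 2 / (4 * Real.pi) ≤ T := by
          rw [div_le_iff₀ (by positivity)]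
          nlinarith
        linarith
      refine this.trans (le_of_eq ?_)
      field_simp
      ring
    have hnTT : (2 + C) * T ≤ ε / 2 * nT T := by
      rw [div_le_iff₀ hε] at h3
      unfold nT
      have : ε / 2 * (T * Real.log T / (2 * Real.pi)) = (Real.log T * ε) * T / (4 * Real.pi) := by
        field_simp
        ring
      rw [this, le_div_iff₀ (by positivity)]
      have h5 : 8 * Real.pi * (2 + C) * T ≤ Real.log T * ε * T := by gcongr
      have h6 : 0 ≤ Real.pi * (2 + C) * T := by positivity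
      nlinarith
    have hn := nT_pos (show 10 ≤ T by linarith)
    have hnnq : nT q - C * q ≤ (NN riemannZeta q (2 * q) : ℝ) := by
      have := (abs_le.1 h4).1
      unfold nT
      linarith
    rw [hsplit]
    have hco : 0 ≤ 2 - (1 / 2 : ℝ) ^ K - e := by
      have : (1 / 2 : ℝ) ^ K ≤ 1 := pow_le_one₀ (by norm_num) (by norm_num)
      linarith
    have hco2 : 2 - (1 / 2 : ℝ) ^ K - e ≤ 2 := by
      have : 0 ≤ (1 / 2 : ℝ) ^ K := by positivity
      linarith
    have h5 : (2 - (1 / 2 : ℝ) ^ K - e) * (nT T / 2 - T) ≤ (2 - (1 / 2 : ℝ) ^ K - e) * nT q :=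
      mul_le_mul_of_nonneg_left hnq hco
    have h6 : (2 - (1 / 2 : ℝ) ^ K - e) * T ≤ 2 * T := by gcongr
    have h7 : e / 2 * nT T ≤ ε / 2 * nT T := by
      apply mul_le_mul_of_nonneg_right _ hn.le
      linarith
    rw [pow_succ]
    have h8 : C * q ≤ C * T := by
      apply mul_le_mul_of_nonneg_left _ hC.le
      linarith
    nlinarith

theorem tot_low {ε : ℝ} (hε : 0 < ε) : ∀ᶠ T : ℝ in atTop,
    (1 - ε) * nT T ≤ ∑ s ∈ ZZ T, mm s := by
  obtain ⟨K, hK⟩ := exists_pow_lt_of_lt_one (show 0 < ε / 2 by positivity)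
    (show (1 / 2 : ℝ) < 1 by norm_num)
  filter_upwards [tot_aux K (ε / 2) (by positivity), eventually_ge_atTop 10] with T hT hT10
  have hn := nT_pos hT10
  refine le_trans ?_ hT
  apply mul_le_mul_of_nonneg_right _ hn.le
  linarith

lemma mm_sq (s : ℂ) : mm s ≤ mm s * mm s := by
  unfold mm
  have : mult riemannZeta s ≤ mult riemannZeta s * mult riemannZeta s := Nat.le_mul_self _
  exact_mod_cast this

theorem diag : ∃ K0 : ℝ, ∀ T : ℝ, 10 ≤ T →
    (∑ s ∈ ZZ T, mm s) + NF T - K0 ≤ nT T * (Mp T).real {0} := by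
  classical
  refine ⟨∑ s ∈ ZZ 1, mm s, fun T hT => ?_⟩
  have hn := nT_pos hT
  rw [Mp_real hT (measurableSet_singleton 0), mul_div_cancel₀ _ hn.ne']
  have hpos : ∀ s s' : ℂ, 0 ≤ mm s * mm s' * (({0} : Set ℝ).indicator (fun _ => (1 : ℝ)))
      ((s.im - s'.im) * Real.log T / (2 * Real.pi)) := fun s s' =>
    mul_nonneg (mul_nonneg (mm_nonneg _) (mm_nonneg _)) (indicator_nonneg (fun _ _ => zero_le_one) _)
  have hone : ∀ s s' : ℂ, s.im = s'.im → (({0} : Set ℝ).indicator (fun _ => (1 : ℝ)))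
      ((s.im - s'.im) * Real.log T / (2 * Real.pi)) = 1 := by
    intro s s' h
    rw [h, sub_self, zero_mul, zero_div]
    simp
  have hrow : ∀ s ∈ ZZ T, mm s + (if s.re ≠ 1 / 2 ∧ 1 ≤ s.im then mm s else 0) ≤
      ∑ s' ∈ ZZ T, mm s * mm s' * (({0} : Set ℝ).indicator (fun _ => (1 : ℝ)))
        ((s.im - s'.im) * Real.log T / (2 * Real.pi)) := by
    intro s hs
    split_ifs with h
    · obtain ⟨s', hs'⟩ : ∃ s' : ℂ, s' = 1 - (starRingEnd ℂ) s := ⟨_, rfl⟩
      have hs0 := mem_ZZ.1 hs
      have him : s'.im = s.im := by rw [hs']; simp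
      have hre : s'.re = 1 - s.re := by rw [hs']; simp
      have hmul : mult riemannZeta s' = mult riemannZeta s := by
        rw [hs']; exact mult_refl good_zeta hs0.2.1 hs0.2.2.1 h.2
      have hzero : riemannZeta s' = 0 := by
        by_contra hne
        have h1 : 0 < mult riemannZeta s := H370.Loc.mult_pos' good_zeta (by linarith [h.2]) hs0.1
        rw [← hmul] at h1
        have h2 : mult riemannZeta s' = 0 := by
          unfold H370.mult analyticOrderNatAt
          rw [(good_zeta.an s' (by rw [him]; linarith [h.2])).analyticOrderAt_eq_zero.2 hne]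
          rfl
        omega
      have hs'Z : s' ∈ ZZ T := by
        rw [mem_ZZ]
        exact ⟨hzero, by rw [hre]; linarith [hs0.2.2.1], by rw [hre]; linarith [hs0.2.1],
          by rw [him]; exact hs0.2.2.2.1, by rw [him]; exact hs0.2.2.2.2⟩
      have hne : s ≠ s' := by
        intro hc
        apply h.1
        have := congrArg Complex.re hc
        rw [hre] at this
        linarith
      have hsub : ({s, s'} : Finset ℂ) ⊆ ZZ T := by
        intro x hx
        rw [Finset.mem_insert, Finset.mem_singleton] at hx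
        rcases hx with rfl | rfl
        · exact hs
        · exact hs'Z
      refine le_trans ?_ (Finset.sum_le_sum_of_subset_of_nonneg hsub fun x _ _ => hpos s x)
      rw [Finset.sum_pair hne, hone s s rfl, hone s s' him.symm, mul_one, mul_one]
      have h3 : mm s' = mm s := by unfold Pool.Agent.Y749.Rig.mm; rw [hmul]
      rw [h3]
      have := mm_sq s
      linarith
    · rw [add_zero]
      refine le_trans ?_ (Finset.single_le_sum (fun x _ => hpos s x) hs)
      rw [hone s s rfl, mul_one]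
      exact mm_sq s
  have hNF : NF T ≤ (∑ s ∈ ZZ T, (if s.re ≠ 1 / 2 ∧ 1 ≤ s.im then mm s else 0)) +
      ∑ s ∈ ZZ 1, mm s := by
    unfold NF
    rw [← Finset.sum_filter]
    refine (Finset.sum_le_sum_of_subset_of_nonneg (t := (ZZ T).filter
      (fun s => s.re ≠ 1 / 2 ∧ 1 ≤ s.im) ∪ ZZ 1) ?_ fun s _ _ => mm_nonneg s).trans ?_
    · intro s hs
      rw [Finset.mem_filter] at hs
      rw [Finset.mem_union, Finset.mem_filter]
      rcases le_or_gt 1 s.im with h | h
      · left; exact ⟨hs.1, hs.2, h⟩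
      · right
        have h1 := mem_ZZ.1 hs.1
        rw [mem_ZZ]
        exact ⟨h1.1, h1.2.1, h1.2.2.1, h1.2.2.2.1, h.le⟩
    · have := Finset.sum_union_inter (s₁ := (ZZ T).filter (fun s => s.re ≠ 1 / 2 ∧ 1 ≤ s.im))
        (s₂ := ZZ 1) (f := mm)
      have h0 : 0 ≤ ∑ s ∈ (ZZ T).filter (fun s => s.re ≠ 1 / 2 ∧ 1 ≤ s.im) ∩ ZZ 1, mm s :=
        Finset.sum_nonneg fun s _ => mm_nonneg s
      linarith
  have hfin := Finset.sum_le_sum hrow
  rw [Finset.sum_add_distrib] at hfin
  have e : RR (({0} : Set ℝ).indicator fun _ => (1 : ℝ)) (ZZ T) (ZZ T) (Real.log T) =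
      ∑ s ∈ ZZ T, ∑ s' ∈ ZZ T, mm s * mm s' * (({0} : Set ℝ).indicator (fun _ => (1 : ℝ)))
        ((s.im - s'.im) * Real.log T / (2 * Real.pi)) := rfl
  rw [e]
  linarith

end Pool.Agent.Y748.DP
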