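import Pool.Agent.Y748.DP.KTop

/-! # Counting functions and boxes -/

set_option autoImplicit false

open MeasureTheory Set Filter Topology
open scoped NNReal ENNReal

namespace Pool.Agent.Y748.DP

open Pool.Agent.Y749.Rig (zs ZZ mem_ZZ PW nw PW_eq)

/-- the indices of the zeros, with multiplicity -/
def Ix (T : ℝ) : Set (ℂ × ℕ) := {p | p.1 ∈ zs T ∧ p.2 < analyticOrderNatAt riemannZeta p.1}

/-- the number of tuples of distinct indices -/
noncomputable def Nk {m : ℕ} (T : ℝ) (a b : Fin m → ℝ) : ℕ :=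
  {f : Fin (m + 1) → ℂ × ℕ | Function.Injective f ∧ (∀ i, f i ∈ Ix T) ∧
    ∀ i : Fin m, ((f i.castSucc).1.im - (f (Fin.last m)).1.im) * Real.log T / (2 * Real.pi) ∈
      Icc (a i) (b i)}.ncard

lemma Nk_one (T : ℝ) {α β : ℝ} (hα : 0 < α) :
    Nk T (fun _ : Fin 1 => α) (fun _ => β) = nw T α β := by
  classical
  obtain ⟨PF, hPF⟩ : ∃ PF : Finset (ℂ × ℂ), PF = ((ZZ T ×ˢ ZZ T).filter
    (fun p => (p.1.im - p.2.im) * Real.log T / (2 * Real.pi) ∈ Icc α β)) := ⟨_, rfl⟩
  have h1 : nw T α β = (PF.sigma fun p => Finset.range (analyticOrderNatAt riemannZeta p.1) ×ˢ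
      Finset.range (analyticOrderNatAt riemannZeta p.2)).card := by
    rw [Finset.card_sigma]
    unfold Pool.Agent.Y749.Rig.nw
    rw [PW_eq, finsum_mem_coe_finset, ← hPF]
    refine Finset.sum_congr rfl fun p _ => ?_
    rw [Finset.card_product, Finset.card_range, Finset.card_range]
  rw [h1, ← Set.ncard_coe_finset]
  unfold Nk
  refine Set.ncard_congr (fun f _ => ⟨((f 0).1, (f 1).1), ((f 0).2, (f 1).2)⟩) ?_ ?_ ?_
  · rintro f ⟨-, h3, h4⟩
    have h5 := h4 0
    rw [Finset.mem_coe, Finset.mem_sigma, hPF, Finset.mem_filter, Finset.mem_product,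
      Finset.mem_product, Finset.mem_range, Finset.mem_range, mem_ZZ, mem_ZZ]
    exact ⟨⟨⟨(h3 0).1, (h3 1).1⟩, h5⟩, (h3 0).2, (h3 1).2⟩
  · intro f g _ _ hfg
    simp only [Sigma.mk.injEq, Prod.mk.injEq, heq_eq_eq] at hfg
    obtain ⟨⟨e1, e2⟩, e3, e4⟩ := hfg
    funext i
    fin_cases i
    · exact Prod.ext e1 e3
    · exact Prod.ext e2 e4
  · rintro ⟨⟨s, s'⟩, ⟨i, i'⟩⟩ hb
    rw [Finset.mem_coe, Finset.mem_sigma, hPF, Finset.mem_filter, Finset.mem_product,
      Finset.mem_product, Finset.mem_range, Finset.mem_range, mem_ZZ, mem_ZZ] at hb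
    obtain ⟨⟨⟨b1, b2⟩, b3⟩, b4, b5⟩ := hb
    simp only at b1 b2 b3 b4 b5
    have hne : s ≠ s' := by
      intro hc
      rw [hc, sub_self, zero_mul, zero_div] at b3
      linarith [b3.1]
    refine ⟨![(s, i), (s', i')], ⟨?_, ?_, ?_⟩, ?_⟩
    · intro x y hxy
      fin_cases x <;> fin_cases y
      · rfl
      · exact absurd (congrArg Prod.fst hxy) hne
      · exact absurd (congrArg Prod.fst hxy).symm hne
      · rfl
    · intro x
      fin_cases x
      · exact ⟨b1, b4⟩
      · exact ⟨b2, b5⟩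
    · intro x
      fin_cases x
      exact b3
    · rfl

variable {φ : ℝ → ℝ}

lemma Sp.K_cont (h : Sp φ) : Continuous (K φ) := by
  unfold K
  refine continuous_of_dominated (bound := φ) (fun u => ?_) (fun u => ae_of_all _ fun ξ => ?_)
    h.int (ae_of_all _ fun ξ => by fun_prop)
  · exact (Complex.measurable_ofReal.comp h.meas).aestronglyMeasurable.mul (by fun_prop)
  · rw [norm_mul, show (2 * Real.pi * Complex.I * ξ * u : ℂ) =
      ((2 * Real.pi * ξ * u : ℝ) : ℂ) * Complex.I by push_cast; ring,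
      Complex.norm_exp_ofReal_mul_I, mul_one, Complex.norm_real,
      Real.norm_eq_abs, abs_of_nonneg (h.nonneg ξ)]

lemma K_zero (φ : ℝ → ℝ) : K φ 0 = ((∫ ξ, φ ξ : ℝ) : ℂ) := by
  unfold K
  rw [← integral_complex_ofReal]
  refine integral_congr_ae (ae_of_all _ fun ξ => ?_)
  simp

lemma Sp.K_neg (_h : Sp φ) (u : ℝ) : K φ (-u) = (starRingEnd ℂ) (K φ u) := by
  unfold K
  rw [← integral_conj]
  refine integral_congr_ae (ae_of_all _ fun ξ => ?_)
  simp only
  rw [map_mul, Complex.conj_ofReal, ← Complex.exp_conj]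
  congr 2
  simp only [map_mul, Complex.conj_ofReal, Complex.conj_I]
  have h2 : (starRingEnd ℂ) 2 = 2 := Complex.conj_ofNat 2
  rw [h2]
  push_cast
  ring

variable {n : ℕ} {ψ : Fin n → ℝ → ℝ}

lemma Fam.rho_cont (h : Fam n ψ) (k : ℕ) : Continuous fun x : Fin k → ℝ => rho ψ x := by
  unfold rho
  refine continuous_finsetSum _ fun c _ => ?_
  refine Complex.continuous_re.comp (Continuous.matrix_det ?_)
  refine continuous_matrix fun a b => ?_
  simp only [Matrix.of_apply]
  split_ifs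
  · exact (h.sp (c a)).K_cont.comp (by fun_prop)
  · exact continuous_const

lemma sn_cont (k : ℕ) : Continuous fun x : Fin k → ℝ => sn x := by
  unfold sn
  refine Continuous.matrix_det ?_
  refine continuous_matrix fun a b => ?_
  simp only [Matrix.of_apply]
  exact Real.continuous_sinc.comp (by fun_prop)

lemma snoc_cont (m : ℕ) : Continuous fun u : Fin m → ℝ => (Fin.snoc u 0 : Fin (m + 1) → ℝ) :=
  Continuous.finSnoc (A := fun _ => ℝ) continuous_id continuous_const

lemma Fam.box (h : Fam n ψ) {m : ℕ} {η : ℝ}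
    (hη : ∀ x : Fin (m + 1) → ℝ, |rho ψ x - sn x| ≤ η) (a b : Fin m → ℝ) :
    |(∫ u in Icc a b, rho ψ (Fin.snoc u 0 : Fin (m + 1) → ℝ)) -
      ∫ u in Icc a b, sn (Fin.snoc u 0 : Fin (m + 1) → ℝ)| ≤
      η * volume.real (Icc a b) := by
  have i1 : IntegrableOn (fun u => rho ψ (Fin.snoc u 0 : Fin (m + 1) → ℝ)) (Icc a b) volume :=
    ((h.rho_cont (m + 1)).comp (snoc_cont m)).integrableOn_Icc
  have i2 : IntegrableOn (fun u => sn (Fin.snoc u 0 : Fin (m + 1) → ℝ)) (Icc a b) volume :=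
    ((sn_cont (m + 1)).comp (snoc_cont m)).integrableOn_Icc
  rw [← integral_sub i1 i2, ← Real.norm_eq_abs]
  exact norm_setIntegral_le_of_norm_le_const (isCompact_Icc.measure_lt_top)
    fun u _ => by rw [Real.norm_eq_abs]; exact hη _

lemma Fam.rho_two (h : Fam n ψ) (x : Fin 2 → ℝ) : rho ψ x = 1 - YY ψ (x 0 - x 1) := by
  classical
  have h1 : ∀ c : Fin 2 → Fin n,
      (Matrix.det (Matrix.of fun a b : Fin 2 => if c a = c b then K (ψ (c a)) (x a - x b) else 0)).re =
      (∫ ξ, ψ (c 0) ξ) * (∫ ξ, ψ (c 1) ξ) -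
        if c 0 = c 1 then ‖K (ψ (c 0)) (x 0 - x 1)‖ ^ 2 else 0 := by
    intro c
    rw [Matrix.det_fin_two]
    simp only [Matrix.of_apply, if_true, sub_self, K_zero]
    by_cases hc : c 0 = c 1
    · rw [if_pos hc, if_pos hc.symm, if_pos hc, ← hc,
        show x 1 - x 0 = -(x 0 - x 1) by ring, (h.sp (c 0)).K_neg, Complex.mul_conj,
        ← Complex.ofReal_mul, ← Complex.ofReal_sub, Complex.ofReal_re, Complex.sq_norm]
    · rw [if_neg hc, if_neg (fun e => hc e.symm), if_neg hc, zero_mul, sub_zero, sub_zero,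
        ← Complex.ofReal_mul, Complex.ofReal_re]
  unfold rho
  simp only [h1]
  rw [← (finTwoArrowEquiv (Fin n)).symm.sum_comp]
  simp only [finTwoArrowEquiv_symm_apply, Matrix.cons_val_zero, Matrix.cons_val_one]
  rw [Fintype.sum_prod_type]
  simp only [Finset.sum_sub_distrib, ← Finset.mul_sum, h.tot, mul_one]
  unfold YY
  simp

lemma Fam.int_one (h : Fam n ψ) {α β : ℝ} (hαβ : α ≤ β) :
    ∫ u in Icc (fun _ : Fin 1 => α) (fun _ => β), rho ψ (Fin.snoc u 0 : Fin 2 → ℝ) =
      ∫ u in α..β, (1 - YY ψ u) := by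
  have h1 : ∀ u : Fin 1 → ℝ, rho ψ (Fin.snoc u 0 : Fin 2 → ℝ) =
      (fun t => 1 - YY ψ t) (MeasurableEquiv.funUnique (Fin 1) ℝ u) := by
    intro u
    rw [h.rho_two]
    simp only
    congr 2
    have e1 : (Fin.snoc u 0 : Fin 2 → ℝ) 0 = u 0 := rfl
    have e2 : (Fin.snoc u 0 : Fin 2 → ℝ) 1 = 0 := rfl
    rw [e1, e2, sub_zero]
    rfl
  simp only [h1]
  have h2 : Icc (fun _ : Fin 1 => α) (fun _ => β) =
      (MeasurableEquiv.funUnique (Fin 1) ℝ) ⁻¹' Icc α β := by
    ext u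
    simp only [mem_preimage, mem_Icc, Pi.le_def]
    constructor
    · rintro ⟨p, q⟩
      exact ⟨p default, q default⟩
    · rintro ⟨p, q⟩
      refine ⟨fun i => ?_, fun i => ?_⟩
      · rw [Subsingleton.elim i default]; exact p
      · rw [Subsingleton.elim i default]; exact q
  rw [h2]
  refine Eq.trans ((volume_preserving_funUnique (Fin 1) ℝ).setIntegral_preimage_emb
    (MeasurableEquiv.measurableEmbedding _) (fun t => 1 - YY ψ t) (Icc α β)) ?_
  rw [intervalIntegral.integral_of_le hαβ, integral_Icc_eq_integral_Ioc]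

/-! ### The sine process -/

lemma si_sp : Sp ((Ioc (0 - 1 / 2 : ℝ) (0 + 1 / 2)).indicator fun _ => 1) := by
  refine ⟨measurable_const.indicator measurableSet_Ioc, fun ξ => indicator_nonneg
    (fun _ _ => zero_le_one) ξ, fun ξ => ?_, ?_⟩
  · by_cases h : ξ ∈ Ioc (0 - 1 / 2 : ℝ) (0 + 1 / 2)
    · rw [indicator_of_mem h]
    · rw [indicator_of_notMem h]; exact zero_le_one
  · exact (integrable_indicator_iff measurableSet_Ioc).2 (integrableOn_const (by simp))

lemma si_fam : Fam 1 (fun _ => (Ioc (0 - 1 / 2 : ℝ) (0 + 1 / 2)).indicator fun _ => 1) := by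
  refine ⟨fun _ => si_sp, ?_⟩
  rw [Finset.sum_const, Finset.card_univ, Fintype.card_fin, one_smul,
    integral_indicator measurableSet_Ioc, setIntegral_const]
  simp
  norm_num

lemma si_rho {k : ℕ} (x : Fin k → ℝ) :
    rho (fun _ : Fin 1 => (Ioc (0 - 1 / 2 : ℝ) (0 + 1 / 2)).indicator fun _ => 1) x = sn x := by
  unfold rho
  have h1 : ∀ c : Fin k → Fin 1, (Matrix.det (Matrix.of fun a b => if c a = c b then
      K ((Ioc (0 - 1 / 2 : ℝ) (0 + 1 / 2)).indicator fun _ => 1) (x a - x b) else 0)).re = sn x := by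
    intro c
    have e : (Matrix.of fun a b => if c a = c b then
        K ((Ioc (0 - 1 / 2 : ℝ) (0 + 1 / 2)).indicator fun _ => 1) (x a - x b) else 0) =
        (Matrix.of fun a b => Complex.exp (2 * Real.pi * Complex.I * (0 : ℝ) *
          ((x a - x b : ℝ) : ℂ)) * (Real.sinc (Real.pi * (x a - x b)) : ℝ)) := by
      ext a b
      simp only [Matrix.of_apply]
      rw [if_pos (Subsingleton.elim _ _), K_Ioc]
    rw [e, sn_mod x 0, Complex.ofReal_re]
  simp only [h1]
  rw [Finset.sum_const, Finset.card_univ]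
  simp

end Pool.Agent.Y748.DP
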