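import Pool.Agent.Y748.DP.Core

/-! # A spectral density with nearly triangular autocorrelation is nearly an interval -/

set_option autoImplicit false

open MeasureTheory Set Filter Topology
open scoped ENNReal

namespace Pool.Agent.Y748.DP

open Pool.Agent.Y749.Rig (fl tr tr_even tr_nonneg tr_cont tr_supp tr_eq tr_int)

variable {φ : ℝ → ℝ}

/-- the measure with density `φ` -/
noncomputable def nu (φ : ℝ → ℝ) : Measure ℝ := volume.withDensity fun ξ => ENNReal.ofReal (φ ξ)

lemma Sp.lint (h : Sp φ) {f : ℝ → ℝ} (hf : Measurable f) (f0 : ∀ x, 0 ≤ f x) (f1 : ∀ x, f x ≤ 1) :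
    ∫⁻ z, ENNReal.ofReal (f z) ∂(nu φ) = ENNReal.ofReal (∫ z, φ z * f z) := by
  have hi : Integrable fun z => φ z * f z := by
    refine h.int.mul_bdd (c := 1) hf.aestronglyMeasurable (ae_of_all _ fun z => ?_)
    rw [Real.norm_eq_abs, abs_of_nonneg (f0 z)]
    exact f1 z
  rw [nu, lintegral_withDensity_eq_lintegral_mul _ h.meas.ennreal_ofReal hf.ennreal_ofReal,
    ofReal_integral_eq_lintegral_ofReal hi (ae_of_all _ fun z => mul_nonneg (h.nonneg z) (f0 z))]
  refine lintegral_congr fun z => ?_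
  simp only [Pi.mul_apply]
  rw [ENNReal.ofReal_mul (h.nonneg z)]

lemma Sp.nu_apply (h : Sp φ) {s : Set ℝ} (hs : MeasurableSet s) :
    nu φ s = ENNReal.ofReal (∫ ξ in s, φ ξ) := by
  rw [nu, withDensity_apply _ hs,
    ← ofReal_integral_eq_lintegral_ofReal h.int.integrableOn (ae_of_all _ h.nonneg)]

/-- the distribution function -/
noncomputable def cd (φ : ℝ → ℝ) (x : ℝ) : ℝ := ∫ ξ in Iic x, φ ξ

lemma Sp.cd_sub (h : Sp φ) {a b : ℝ} (hab : a ≤ b) : cd φ b - cd φ a = ∫ ξ in Ioc a b, φ ξ := by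
  unfold cd
  rw [← Iic_union_Ioc_eq_Iic hab, setIntegral_union _ measurableSet_Ioc h.int.integrableOn
    h.int.integrableOn]
  · ring
  · rw [Set.disjoint_left]
    intro x hx hx2
    exact absurd hx2.1 (not_lt.2 hx)

lemma Sp.set_nonneg (h : Sp φ) (s : Set ℝ) : 0 ≤ ∫ ξ in s, φ ξ :=
  integral_nonneg h.nonneg

lemma Sp.cd_mono (h : Sp φ) {a b : ℝ} (hab : a ≤ b) : cd φ a ≤ cd φ b := by
  have h1 := h.cd_sub hab
  have h2 := h.set_nonneg (Ioc a b)
  linarith

lemma Sp.Ioc_le (h : Sp φ) {a b : ℝ} (hab : a ≤ b) : ∫ ξ in Ioc a b, φ ξ ≤ b - a := by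
  calc ∫ ξ in Ioc a b, φ ξ ≤ ∫ _ξ in Ioc a b, (1 : ℝ) :=
        setIntegral_mono h.int.integrableOn (integrableOn_const (by simp)) h.le_one
    _ = b - a := by
        rw [setIntegral_const]
        simp [hab]

lemma Sp.cd_lip (h : Sp φ) {a b : ℝ} (hab : a ≤ b) : cd φ b - cd φ a ≤ b - a := by
  rw [h.cd_sub hab]
  exact h.Ioc_le hab

lemma Sp.cd_nonneg (h : Sp φ) (x : ℝ) : 0 ≤ cd φ x := h.set_nonneg _

lemma Sp.cd_le (h : Sp φ) {κ : ℝ} (h1 : ∫ ξ, φ ξ = κ) (x : ℝ) : cd φ x ≤ κ := by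
  rw [← h1]
  exact setIntegral_le_integral h.int (ae_of_all _ h.nonneg)

lemma Sp.Ioi_eq (h : Sp φ) {κ : ℝ} (h1 : ∫ ξ, φ ξ = κ) (x : ℝ) :
    ∫ ξ in Ioi x, φ ξ = κ - cd φ x := by
  have h2 := integral_add_compl (measurableSet_Iic (a := x)) h.int
  rw [compl_Iic, h1] at h2
  unfold cd
  linarith

lemma Sp.cd_cont (h : Sp φ) : Continuous (cd φ) := by
  refine (LipschitzWith.of_dist_le_mul (K := 1) fun x y => ?_).continuous
  rw [Real.dist_eq, Real.dist_eq, NNReal.coe_one, one_mul]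
  rcases le_total x y with hxy | hxy
  · rw [abs_sub_comm, abs_sub_comm x y, abs_of_nonneg (by linarith [h.cd_mono hxy]),
      abs_of_nonneg (by linarith)]
    exact h.cd_lip hxy
  · rw [abs_of_nonneg (by linarith [h.cd_mono hxy]), abs_of_nonneg (by linarith)]
    exact h.cd_lip hxy

lemma Sp.finm (h : Sp φ) : IsFiniteMeasure (nu φ) := by
  constructor
  rw [h.nu_apply MeasurableSet.univ]
  exact ENNReal.ofReal_lt_top

/-- a median -/
lemma Sp.median (h : Sp φ) {κ : ℝ} (hκ : 0 < κ) (h1 : ∫ ξ, φ ξ = κ) :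
    ∃ m : ℝ, cd φ m = κ / 2 := by
  have t2 : Tendsto (fun k : ℕ => ∫ ξ in Iic (k : ℝ), φ ξ) atTop (𝓝 κ) := by
    have h2 := tendsto_setIntegral_of_monotone (μ := volume) (f := φ)
      (fun k : ℕ => measurableSet_Iic (a := (k : ℝ)))
      (fun i j hij => Iic_subset_Iic.2 (by exact_mod_cast hij)) h.int.integrableOn
    have e : (⋃ k : ℕ, Iic (k : ℝ)) = univ := by
      rw [eq_univ_iff_forall]
      intro x
      obtain ⟨k, hk⟩ := exists_nat_ge x
      exact mem_iUnion.2 ⟨k, hk⟩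
    rw [e, setIntegral_univ, h1] at h2
    exact h2
  have t1 : Tendsto (fun k : ℕ => ∫ ξ in Ioi (-(k : ℝ)), φ ξ) atTop (𝓝 κ) := by
    have h2 := tendsto_setIntegral_of_monotone (μ := volume) (f := φ)
      (fun k : ℕ => measurableSet_Ioi (a := -(k : ℝ)))
      (fun i j hij => Ioi_subset_Ioi (by
        have : (i : ℝ) ≤ j := by exact_mod_cast hij
        linarith)) h.int.integrableOn
    have e : (⋃ k : ℕ, Ioi (-(k : ℝ))) = univ := by
      rw [eq_univ_iff_forall]
      intro x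
      obtain ⟨k, hk⟩ := exists_nat_gt (-x)
      exact mem_iUnion.2 ⟨k, by rw [mem_Ioi]; linarith⟩
    rw [e, setIntegral_univ, h1] at h2
    exact h2
  obtain ⟨a, ha⟩ := (t1.eventually (lt_mem_nhds (show κ / 2 < κ by linarith))).exists
  obtain ⟨b, hb⟩ := (t2.eventually (lt_mem_nhds (show κ / 2 < κ by linarith))).exists
  rw [h.Ioi_eq h1] at ha
  have h2 := intermediate_value_univ (-(a : ℝ)) b h.cd_cont
  have hb' : κ / 2 < cd φ b := hb
  obtain ⟨m, hm⟩ := h2 ⟨(by linarith : cd φ (-(a : ℝ)) ≤ κ / 2), hb'.le⟩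
  exact ⟨m, hm⟩

/-- the test function -/
noncomputable def g1 (α : ℝ) : ℝ := min (max α 0) 2 / 2

lemma g1_meas : Measurable g1 := by unfold g1; fun_prop

lemma g1_nonneg (α : ℝ) : 0 ≤ g1 α := by
  unfold g1
  have : 0 ≤ min (max α 0) 2 := le_min (le_max_right _ _) (by norm_num)
  linarith

lemma g1_le (α : ℝ) : g1 α ≤ 1 := by
  unfold g1
  have : min (max α 0) 2 ≤ 2 := min_le_right _ _
  linarith

lemma g1_abs (α : ℝ) : |g1 α| ≤ 1 := by
  rw [abs_of_nonneg (g1_nonneg α)]
  exact g1_le α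

lemma tr_g1 : ∫ α, tr 1 α * g1 α = 1 / 12 := by
  have e : (fun α => tr 1 α * g1 α) = (Ioc (0 : ℝ) 1).indicator fun α => (1 - α) * α / 2 := by
    funext α
    by_cases hα : α ∈ Ioc (0 : ℝ) 1
    · rw [indicator_of_mem hα]
      have h1 : tr 1 α = 1 - α := by
        unfold tr
        rw [div_one, div_one, abs_of_pos hα.1, max_eq_right (by linarith [hα.2])]
      have h2 : g1 α = α / 2 := by
        unfold g1
        rw [max_eq_left hα.1.le, min_eq_left (by linarith [hα.2])]
      rw [h1, h2]; ring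
    · rw [indicator_of_notMem hα]
      rcases le_or_gt α 0 with h0 | h0
      · have h2 : g1 α = 0 := by
          unfold g1
          rw [max_eq_right h0, min_eq_left (by norm_num)]; norm_num
        rw [h2, mul_zero]
      · have h3 : 1 < α := by
          by_contra hcon
          exact hα ⟨h0, not_lt.1 hcon⟩
        rw [tr_supp one_pos α (by rw [abs_of_pos h0]; exact h3.le), zero_mul]
  rw [e, integral_indicator measurableSet_Ioc, ← intervalIntegral.integral_of_le zero_le_one]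
  have e2 : ∫ α in (0 : ℝ)..1, (1 - α) * α / 2 = ∫ α in (0 : ℝ)..1, (1 / 2 * α - 1 / 2 * α ^ 2) := by
    refine intervalIntegral.integral_congr fun α _ => ?_
    ring
  rw [e2, intervalIntegral.integral_sub (by
    apply Continuous.intervalIntegrable; fun_prop) (by
    apply Continuous.intervalIntegrable; fun_prop), intervalIntegral.integral_const_mul,
    intervalIntegral.integral_const_mul, integral_id, integral_pow]
  norm_num

lemma Sp.J_le (h : Sp φ) {κ : ℝ} (hκ : κ ≤ 1) (h1 : ∫ ξ, φ ξ = κ) (m : ℝ) :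
    ∫ x in Ioc (m - 1) (m + 1), cd φ x * (κ - cd φ x) ≤ 2 * ∫ α, bb φ α * g1 α := by
  have := h.finm
  obtain ⟨V, hV⟩ : ∃ V : Measure ℝ, V = volume.restrict (Ioc (m - 1) (m + 1)) := ⟨_, rfl⟩
  have : SFinite V := by rw [hV]; infer_instance
  obtain ⟨S, hS⟩ : ∃ S : Set ((ℝ × ℝ) × ℝ), S = {q | q.1.1 ≤ q.2 ∧ q.2 < q.1.2} := ⟨_, rfl⟩
  have mS : MeasurableSet S := by
    rw [hS]
    have m1 : Measurable fun q : (ℝ × ℝ) × ℝ => q.1.1 := by fun_prop
    have m2 : Measurable fun q : (ℝ × ℝ) × ℝ => q.2 := by fun_prop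
    have m3 : Measurable fun q : (ℝ × ℝ) × ℝ => q.1.2 := by fun_prop
    exact (measurableSet_le m1 m2).inter (measurableSet_lt m2 m3)
  have e1 := Measure.prod_apply (μ := (nu φ).prod (nu φ)) (ν := V) mS
  have e2 := Measure.prod_apply_symm (μ := (nu φ).prod (nu φ)) (ν := V) mS
  -- the second form
  have f2 : ∫⁻ x, ((nu φ).prod (nu φ)) ((fun p => (p, x)) ⁻¹' S) ∂V =
      ENNReal.ofReal (∫ x in Ioc (m - 1) (m + 1), cd φ x * (κ - cd φ x)) := by
    have hc : Continuous fun x => cd φ x * (κ - cd φ x) :=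
      h.cd_cont.mul (continuous_const.sub h.cd_cont)
    rw [ofReal_integral_eq_lintegral_ofReal, hV]
    · refine lintegral_congr fun x => ?_
      have e : (fun p : ℝ × ℝ => (p, x)) ⁻¹' S = Iic x ×ˢ Ioi x := by
        rw [hS]; ext p; simp
      rw [e, Measure.prod_prod, h.nu_apply measurableSet_Iic, h.nu_apply measurableSet_Ioi,
        h.Ioi_eq h1, ENNReal.ofReal_mul (h.cd_nonneg x)]
      rfl
    · exact hc.integrableOn_Icc.mono_set Ioc_subset_Icc_self
    · exact ae_of_all _ fun x => mul_nonneg (h.cd_nonneg x) (by linarith [h.cd_le h1 x])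
  -- the first form
  have f1 : ∀ p : ℝ × ℝ, V (Prod.mk p ⁻¹' S) ≤ 2 * ENNReal.ofReal (g1 (p.2 - p.1)) := by
    intro p
    have e : Prod.mk p ⁻¹' S = Ico p.1 p.2 := by
      rw [hS]; ext x; simp
    rw [e, hV, Measure.restrict_apply measurableSet_Ico, ← ENNReal.ofReal_ofNat,
      ← ENNReal.ofReal_mul (by norm_num)]
    have e3 : 2 * g1 (p.2 - p.1) = min (max (p.2 - p.1) 0) 2 := by
      unfold g1; ring
    rw [e3]
    rcases le_total (max (p.2 - p.1) 0) 2 with hc | hc
    · rw [min_eq_left hc]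
      refine (measure_mono inter_subset_left).trans ?_
      rw [Real.volume_Ico]
      exact ENNReal.ofReal_le_ofReal (le_max_left _ _)
    · rw [min_eq_right hc]
      refine (measure_mono inter_subset_right).trans ?_
      rw [Real.volume_Ioc]
      exact ENNReal.ofReal_le_ofReal (by linarith)
  have f3 : ∫⁻ p, V (Prod.mk p ⁻¹' S) ∂((nu φ).prod (nu φ)) ≤
      2 * ENNReal.ofReal (∫ α, bb φ α * g1 α) := by
    refine (lintegral_mono f1).trans ?_
    have mg : Measurable fun p : ℝ × ℝ => ENNReal.ofReal (g1 (p.2 - p.1)) :=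
      (g1_meas.comp (measurable_snd.sub measurable_fst)).ennreal_ofReal
    rw [lintegral_const_mul _ mg, lintegral_prod _ mg.aemeasurable]
    have g2 : ∀ y : ℝ, ∫⁻ z, ENNReal.ofReal (g1 (z - y)) ∂(nu φ) =
        ENNReal.ofReal (∫ z, φ z * g1 (z - y)) := fun y =>
      h.lint (g1_meas.comp (measurable_id.sub_const y)) (fun _ => g1_nonneg _) fun _ => g1_le _
    simp only [g2]
    have g3 : ∀ y : ℝ, ∫ z, φ z * g1 (z - y) = ∫ α, φ (y + α) * g1 α := by
      intro y
      rw [← integral_add_left_eq_self (fun z => φ z * g1 (z - y)) y]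
      refine integral_congr_ae (ae_of_all _ fun α => ?_)
      simp only
      rw [add_sub_cancel_left]
    have g4 : ∀ y : ℝ, 0 ≤ ∫ z, φ z * g1 (z - y) := fun y =>
      integral_nonneg fun z => mul_nonneg (h.nonneg z) (g1_nonneg _)
    have g5 : ∀ y : ℝ, ∫ z, φ z * g1 (z - y) ≤ 1 := by
      intro y
      refine le_trans ?_ (h1.trans_le hκ)
      refine integral_mono ?_ h.int fun z => mul_le_of_le_one_right (h.nonneg z) (g1_le _)
      refine h.int.mul_bdd (c := 1)
        (g1_meas.comp (measurable_id.sub_const y)).aestronglyMeasurable (ae_of_all _ fun z => ?_)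
      rw [Real.norm_eq_abs]; exact g1_abs _
    have g6 : Measurable fun y : ℝ => ∫ z, φ z * g1 (z - y) := by
      have : StronglyMeasurable (Function.uncurry fun y z : ℝ => φ z * g1 (z - y)) := by
        refine Measurable.stronglyMeasurable ?_
        exact (h.meas.comp measurable_snd).mul (g1_meas.comp (measurable_snd.sub measurable_fst))
      exact this.integral_prod_right.measurable
    rw [h.lint g6 g4 g5, h.swap g1_meas g1_abs]
    simp only [g3]
    exact le_refl _
  rw [e1] at e2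
  rw [← e2] at f2
  have h3 : ENNReal.ofReal (∫ x in Ioc (m - 1) (m + 1), cd φ x * (κ - cd φ x)) ≤
      ENNReal.ofReal (2 * ∫ α, bb φ α * g1 α) := by
    rw [← f2, ENNReal.ofReal_mul (by norm_num), ENNReal.ofReal_ofNat]
    exact f3
  refine (ENNReal.ofReal_le_ofReal_iff ?_).1 h3
  have : 0 ≤ ∫ α, bb φ α * g1 α :=
    integral_nonneg fun α => mul_nonneg (h.bb_nonneg α) (g1_nonneg α)
  linarith

/-- the lower bound on one side -/
lemma side {w : ℝ → ℝ} {κ : ℝ} (k0 : 0 < κ) (k1 : κ ≤ 1) (wc : Continuous w) (w0 : w 0 = κ / 2)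
    (wn : ∀ s, 0 ≤ s → 0 ≤ w s)
    (wh : ∀ s, 0 ≤ s → w s ≤ κ / 2) (wl : ∀ s t, t ≤ s → w t - (s - t) ≤ w s) :
    κ ^ 3 / 12 + κ * w (1 / 2) ^ 2 / 4 ≤ ∫ s in (0 : ℝ)..1, w s * (κ - w s) := by
  obtain ⟨p, hp⟩ : ∃ p, p = w (1 / 2) := ⟨_, rfl⟩
  have p0 : 0 ≤ p := by rw [hp]; exact wn _ (by norm_num)
  have p1 : p ≤ κ / 2 := by rw [hp]; exact wh _ (by norm_num)
  rw [← hp]
  have ii : ∀ a b : ℝ, IntervalIntegrable (fun s => w s * (κ - w s)) volume a b := fun a b =>
    (wc.mul (continuous_const.sub wc)).intervalIntegrable a b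
  rw [← intervalIntegral.integral_add_adjacent_intervals (ii 0 (κ / 2)) (ii (κ / 2) 1),
    ← intervalIntegral.integral_add_adjacent_intervals (ii (κ / 2) (1 / 2)) (ii (1 / 2) 1),
    ← intervalIntegral.integral_add_adjacent_intervals (ii (1 / 2) (1 / 2 + p)) (ii (1 / 2 + p) 1)]
  have h1 : κ ^ 3 / 12 ≤ ∫ s in (0 : ℝ)..(κ / 2), w s * (κ - w s) := by
    have e : ∫ s in (0 : ℝ)..(κ / 2), (κ ^ 2 / 4 - s ^ 2) = κ ^ 3 / 12 := by
      rw [intervalIntegral.integral_sub (by
        apply Continuous.intervalIntegrable; fun_prop) (by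
        apply Continuous.intervalIntegrable; fun_prop), intervalIntegral.integral_const,
        integral_pow, smul_eq_mul]
      norm_num
      ring
    rw [← e]
    refine intervalIntegral.integral_mono_on (by positivity) (by
      apply Continuous.intervalIntegrable; fun_prop) (ii _ _) fun s hs => ?_
    have a1 := wl s 0 hs.1
    rw [w0] at a1
    have a2 := wh s hs.1
    nlinarith [hs.1, hs.2]
  have nn : ∀ s, 0 ≤ s → 0 ≤ w s * (κ - w s) := fun s hs => by
    have a1 := wn s hs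
    have a2 := wh s hs
    exact mul_nonneg a1 (by linarith)
  have h4 : 0 ≤ ∫ s in (κ / 2)..(1 / 2), w s * (κ - w s) :=
    intervalIntegral.integral_nonneg (by linarith) fun s hs => nn s (by linarith [hs.1])
  have h2 : κ * p ^ 2 / 4 ≤ ∫ s in (1 / 2 : ℝ)..(1 / 2 + p), w s * (κ - w s) := by
    have e : ∫ s in (1 / 2 : ℝ)..(1 / 2 + p), (κ * (p + 1 / 2) / 2 - κ / 2 * s) =
        κ * p ^ 2 / 4 := by
      rw [intervalIntegral.integral_sub (by
        apply Continuous.intervalIntegrable; fun_prop) (by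
        apply Continuous.intervalIntegrable; fun_prop), intervalIntegral.integral_const,
        intervalIntegral.integral_const_mul, integral_id, smul_eq_mul]
      ring
    rw [← e]
    refine intervalIntegral.integral_mono_on (by linarith) (by
      apply Continuous.intervalIntegrable; fun_prop) (ii _ _) fun s hs => ?_
    have a1 := wl s (1 / 2) hs.1
    rw [← hp] at a1
    have a2 := wh s (by linarith [hs.1])
    have a3 := wn s (by linarith [hs.1])
    have a4 : w s * (κ / 2) ≤ w s * (κ - w s) := mul_le_mul_of_nonneg_left (by linarith) a3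
    have a5 : (p - (s - 1 / 2)) * (κ / 2) ≤ w s * (κ / 2) :=
      mul_le_mul_of_nonneg_right a1 (by positivity)
    linarith
  have h3 : 0 ≤ ∫ s in (1 / 2 + p : ℝ)..1, w s * (κ - w s) :=
    intervalIntegral.integral_nonneg (by linarith) fun s hs => nn s (by linarith [hs.1])
  linarith

/-- stability -/
theorem Sp.stab (h : Sp φ) {κ : ℝ} (k0 : 1 / 2 ≤ κ) (k1 : κ ≤ 1) (h1 : ∫ ξ, φ ξ = κ) {δ : ℝ}
    (hd : (∫ α, |bb φ α - tr 1 α|) ≤ δ) :
    ∃ m : ℝ, (∫ ξ, |φ ξ - (Ioc (m - 1 / 2) (m + 1 / 2)).indicator (fun _ => 1) ξ|) ≤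
      12 * Real.sqrt (1 - κ + δ) + (1 - κ) := by
  obtain ⟨m, hm⟩ := h.median (by linarith) h1
  refine ⟨m, ?_⟩
  have hδ : 0 ≤ δ := (integral_nonneg fun _ => abs_nonneg _).trans hd
  -- the functional
  have hJ := h.J_le k1 h1 m
  have hg : ∫ α, bb φ α * g1 α ≤ 1 / 12 + δ := by
    have i1 : Integrable fun α => bb φ α * g1 α :=
      h.bb_int.mul_bdd (c := 1) g1_meas.aestronglyMeasurable (ae_of_all _ fun α => by
        rw [Real.norm_eq_abs]; exact g1_abs α)
    have i2 : Integrable fun α => tr 1 α * g1 α :=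
      (tr_int one_pos).mul_bdd (c := 1) g1_meas.aestronglyMeasurable (ae_of_all _ fun α => by
        rw [Real.norm_eq_abs]; exact g1_abs α)
    have h2 : (∫ α, bb φ α * g1 α) - 1 / 12 ≤ ∫ α, |bb φ α - tr 1 α| := by
      rw [← tr_g1, ← integral_sub i1 i2]
      refine integral_mono (i1.sub i2) (h.bb_int.sub (tr_int one_pos)).abs fun α => ?_
      simp only
      rw [← sub_mul]
      refine (le_abs_self _).trans ?_
      rw [abs_mul]
      exact mul_le_of_le_one_right (abs_nonneg _) (g1_abs α)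
    linarith
  -- the two sides
  obtain ⟨p, hp⟩ : ∃ p, p = κ - cd φ (m + 1 / 2) := ⟨_, rfl⟩
  obtain ⟨q, hq⟩ : ∃ q, q = cd φ (m - 1 / 2) := ⟨_, rfl⟩
  have hr := side (w := fun s => κ - cd φ (m + s)) (κ := κ) (by linarith) k1 (by
      have := h.cd_cont; fun_prop) (by simp only [add_zero, hm]; ring)
    (fun s _ => by linarith [h.cd_le h1 (m + s)])
    (fun s hs => by have := h.cd_mono (show m ≤ m + s by linarith); rw [hm] at this; linarith)
    (fun s t hst => by have := h.cd_lip (show m + t ≤ m + s by linarith); linarith)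
  have hl := side (w := fun s => cd φ (m - s)) (κ := κ) (by linarith) k1 (by
      have := h.cd_cont; fun_prop) (by simp only [sub_zero, hm])
    (fun s _ => h.cd_nonneg _)
    (fun s hs => by have := h.cd_mono (show m - s ≤ m by linarith); rw [hm] at this; linarith)
    (fun s t hst => by have := h.cd_lip (show m - s ≤ m - t by linarith); linarith)
  have e1 : ∫ s in (0 : ℝ)..1, (κ - cd φ (m + s)) * (κ - (κ - cd φ (m + s))) =
      ∫ x in m..(m + 1), cd φ x * (κ - cd φ x) := by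
    have := intervalIntegral.integral_comp_add_left (a := 0) (b := 1)
      (fun x => cd φ x * (κ - cd φ x)) m
    rw [add_zero] at this
    rw [← this]
    refine intervalIntegral.integral_congr fun s _ => ?_
    ring
  have e2 : ∫ s in (0 : ℝ)..1, cd φ (m - s) * (κ - cd φ (m - s)) =
      ∫ x in (m - 1)..m, cd φ x * (κ - cd φ x) := by
    have := intervalIntegral.integral_comp_sub_left (a := 0) (b := 1)
      (fun x => cd φ x * (κ - cd φ x)) m
    rw [sub_zero] at this
    exact this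
  rw [e1, ← hp] at hr
  rw [e2, ← hq] at hl
  have hc : Continuous fun x => cd φ x * (κ - cd φ x) :=
    h.cd_cont.mul (continuous_const.sub h.cd_cont)
  have e3 : ∫ x in Ioc (m - 1) (m + 1), cd φ x * (κ - cd φ x) =
      (∫ x in (m - 1)..m, cd φ x * (κ - cd φ x)) + ∫ x in m..(m + 1), cd φ x * (κ - cd φ x) := by
    rw [intervalIntegral.integral_add_adjacent_intervals (hc.intervalIntegrable _ _)
      (hc.intervalIntegrable _ _), intervalIntegral.integral_of_le (by linarith)]
  rw [e3] at hJ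
  have p0 : 0 ≤ p := by rw [hp]; linarith [h.cd_le h1 (m + 1 / 2)]
  have q0 : 0 ≤ q := by rw [hq]; exact h.cd_nonneg _
  have hk3 : 1 - κ ^ 3 ≤ 3 * (1 - κ) := by nlinarith [sq_nonneg (1 - κ), sq_nonneg κ]
  have hpq : p ^ 2 + q ^ 2 ≤ 4 * (1 - κ) + 16 * δ := by
    have h3 : κ * (p ^ 2 + q ^ 2) ≤ 2 * (1 - κ) + 8 * δ := by nlinarith
    nlinarith [sq_nonneg p, sq_nonneg q]
  have he : 0 ≤ 1 - κ + δ := by linarith
  have hs : p + q ≤ 6 * Real.sqrt (1 - κ + δ) := by
    have h2 : (p + q) ^ 2 ≤ (6 * Real.sqrt (1 - κ + δ)) ^ 2 := by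
      rw [mul_pow, Real.sq_sqrt he]
      nlinarith [sq_nonneg (p - q)]
    exact le_of_sq_le_sq h2 (by positivity)
  -- the distance
  obtain ⟨I, hI⟩ : ∃ I : Set ℝ, I = Ioc (m - 1 / 2) (m + 1 / 2) := ⟨_, rfl⟩
  rw [← hI]
  have mI : MeasurableSet I := by rw [hI]; exact measurableSet_Ioc
  have i1 : Integrable (I.indicator fun _ : ℝ => (1 : ℝ)) := by
    rw [hI]
    exact (integrable_indicator_iff measurableSet_Ioc).2 (integrableOn_const (by simp))
  have e4 : ∀ ξ, |φ ξ - I.indicator (fun _ => 1) ξ| =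
      φ ξ + I.indicator (fun _ => 1) ξ - 2 * I.indicator φ ξ := by
    intro ξ
    have a0 := h.nonneg ξ
    have a1 := h.le_one ξ
    by_cases hx : ξ ∈ I
    · rw [indicator_of_mem hx, indicator_of_mem hx, abs_of_nonpos (by linarith)]; ring
    · rw [indicator_of_notMem hx, indicator_of_notMem hx, sub_zero, abs_of_nonneg a0]; ring
  have i2 : Integrable (I.indicator φ) := h.int.indicator mI
  have e5 : ∫ ξ, I.indicator (fun _ : ℝ => (1 : ℝ)) ξ = 1 := by
    rw [integral_indicator mI, setIntegral_const, hI]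
    simp
    norm_num
  have e6 : ∫ ξ, I.indicator φ ξ = κ - p - q := by
    rw [integral_indicator mI, hI, ← h.cd_sub (by linarith), hp, hq]
    ring
  simp only [e4]
  have i3 : Integrable fun ξ => φ ξ + I.indicator (fun _ => 1) ξ := h.int.add i1
  rw [integral_sub i3 (i2.const_mul 2), integral_add h.int i1, integral_const_mul,
    h1, e5, e6]
  linarith

/-- the Fourier transform of the interval -/
lemma K_Ioc (m : ℝ) (u : ℝ) :
    K ((Ioc (m - 1 / 2) (m + 1 / 2)).indicator fun _ => 1) u =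
      Complex.exp (2 * Real.pi * Complex.I * m * u) * (Real.sinc (Real.pi * u) : ℝ) := by
  have hpi := Real.pi_ne_zero
  have e : K ((Ioc (m - 1 / 2) (m + 1 / 2)).indicator fun _ => 1) u =
      ∫ ξ in (m - 1 / 2)..(m + 1 / 2), Complex.exp (2 * Real.pi * Complex.I * u * ξ) := by
    unfold K
    rw [intervalIntegral.integral_of_le (by linarith), ← integral_indicator measurableSet_Ioc]
    refine integral_congr_ae (ae_of_all _ fun ξ => ?_)
    simp only
    by_cases hx : ξ ∈ Ioc (m - 1 / 2) (m + 1 / 2)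
    · rw [indicator_of_mem hx, indicator_of_mem hx, Complex.ofReal_one, one_mul]
      congr 1
      ring
    · rw [indicator_of_notMem hx, indicator_of_notMem hx, Complex.ofReal_zero, zero_mul]
  rcases eq_or_ne u 0 with hu | hu
  · rw [e, hu]
    simp
    norm_num
  have hc : (2 * Real.pi * Complex.I * u : ℂ) ≠ 0 := by
    have : (u : ℂ) ≠ 0 := by exact_mod_cast hu
    have h2 : (Real.pi : ℂ) ≠ 0 := by exact_mod_cast hpi
    simp [this, h2]
  rw [e, integral_exp_mul_complex hc, Real.sinc_of_ne_zero (mul_ne_zero hpi hu)]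
  have h2 : (Real.pi * u : ℂ) ≠ 0 := by
    have h3 : (u : ℂ) ≠ 0 := by exact_mod_cast hu
    have h4 : (Real.pi : ℂ) ≠ 0 := by exact_mod_cast hpi
    exact mul_ne_zero h4 h3
  have e1 : Complex.exp (2 * Real.pi * Complex.I * u * ((m + 1 / 2 : ℝ) : ℂ)) =
      Complex.exp (2 * Real.pi * Complex.I * m * u) * Complex.exp ((Real.pi * u : ℂ) * Complex.I) := by
    rw [← Complex.exp_add]
    congr 1
    push_cast
    ring
  have e2 : Complex.exp (2 * Real.pi * Complex.I * u * ((m - 1 / 2 : ℝ) : ℂ)) =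
      Complex.exp (2 * Real.pi * Complex.I * m * u) *
        Complex.exp (-(Real.pi * u : ℂ) * Complex.I) := by
    rw [← Complex.exp_add]
    congr 1
    push_cast
    ring
  rw [e1, e2, ← mul_sub, Complex.exp_mul_I, Complex.exp_mul_I, Complex.cos_neg, Complex.sin_neg]
  push_cast
  rw [mul_div_assoc]
  congr 1
  rw [div_eq_div_iff hc h2]
  ring

/-- the kernel is close to a modulation of the sine kernel -/
theorem Sp.K_near (h : Sp φ) {κ : ℝ} (k0 : 1 / 2 ≤ κ) (k1 : κ ≤ 1) (h1 : ∫ ξ, φ ξ = κ) {δ : ℝ}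
    (hd : (∫ α, |bb φ α - tr 1 α|) ≤ δ) :
    ∃ m : ℝ, ∀ u : ℝ, ‖K φ u - Complex.exp (2 * Real.pi * Complex.I * m * u) *
        (Real.sinc (Real.pi * u) : ℝ)‖ ≤ 12 * Real.sqrt (1 - κ + δ) + (1 - κ) := by
  obtain ⟨m, hm⟩ := h.stab k0 k1 h1 hd
  refine ⟨m, fun u => ?_⟩
  rw [← K_Ioc m u]
  refine le_trans ?_ hm
  have i1 : Integrable ((Ioc (m - 1 / 2) (m + 1 / 2)).indicator fun _ : ℝ => (1 : ℝ)) :=
    (integrable_indicator_iff measurableSet_Ioc).2 (integrableOn_const (by simp))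
  have hc : ∀ f : ℝ → ℝ, Integrable f → Integrable fun ξ : ℝ =>
      (f ξ : ℂ) * Complex.exp (2 * Real.pi * Complex.I * ξ * u) := by
    intro f hf
    refine hf.ofReal.mul_bdd (c := 1) (by fun_prop) (ae_of_all _ fun ξ => ?_)
    rw [show (2 * Real.pi * Complex.I * ξ * u : ℂ) = ((2 * Real.pi * ξ * u : ℝ) : ℂ) * Complex.I by
      push_cast; ring, Complex.norm_exp_ofReal_mul_I]
  unfold K
  rw [← integral_sub (hc _ h.int) (hc _ i1)]
  refine norm_integral_le_of_norm_le (h.int.sub i1).abs (ae_of_all _ fun ξ => ?_)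
  rw [← sub_mul, norm_mul, show (2 * Real.pi * Complex.I * ξ * u : ℂ) =
    ((2 * Real.pi * ξ * u : ℝ) : ℂ) * Complex.I by push_cast; ring,
    Complex.norm_exp_ofReal_mul_I, mul_one, ← Complex.ofReal_sub, Complex.norm_real,
    Real.norm_eq_abs]

/-- the kernel is bounded by the mass -/
lemma Sp.K_le (h : Sp φ) (u : ℝ) : ‖K φ u‖ ≤ ∫ ξ, φ ξ := by
  unfold K
  refine norm_integral_le_of_norm_le h.int (ae_of_all _ fun ξ => ?_)
  rw [norm_mul, show (2 * Real.pi * Complex.I * ξ * u : ℂ) =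
    ((2 * Real.pi * ξ * u : ℝ) : ℂ) * Complex.I by push_cast; ring,
    Complex.norm_exp_ofReal_mul_I, mul_one, Complex.norm_real,
    Real.norm_eq_abs, abs_of_nonneg (h.nonneg ξ)]

end Pool.Agent.Y748.DP
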