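import Pool.Agent.Y748.DP.Top
import Pool.Agent.Y748.DP.Stab

/-! # All correlation functions -/

set_option autoImplicit false

open MeasureTheory Set Filter Topology
open scoped NNReal ENNReal

namespace Pool.Agent.Y748.DP

open Pool.Agent.Y749.Rig (fl tr tr_int nT nT_pos Mp NF mm_nonneg)

/-! ### Determinants -/

lemma prod_diff {α : Type} (s : Finset α) (a b : α → ℂ) (ha : ∀ i ∈ s, ‖a i‖ ≤ 1)
    (hb : ∀ i ∈ s, ‖b i‖ ≤ 1) : ‖∏ i ∈ s, a i - ∏ i ∈ s, b i‖ ≤ ∑ i ∈ s, ‖a i - b i‖ := by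
  classical
  induction s using Finset.induction_on with
  | empty => simp
  | insert x s hx ih =>
    rw [Finset.prod_insert hx, Finset.prod_insert hx, Finset.sum_insert hx]
    have h1 := ih (fun i hi => ha i (Finset.mem_insert_of_mem hi))
      (fun i hi => hb i (Finset.mem_insert_of_mem hi))
    have h2 : ‖∏ i ∈ s, b i‖ ≤ 1 := by
      rw [norm_prod]
      exact Finset.prod_le_one (fun i _ => norm_nonneg _)
        fun i hi => hb i (Finset.mem_insert_of_mem hi)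
    have e : a x * ∏ i ∈ s, a i - b x * ∏ i ∈ s, b i =
        a x * (∏ i ∈ s, a i - ∏ i ∈ s, b i) + (a x - b x) * ∏ i ∈ s, b i := by ring
    rw [e]
    refine (norm_add_le _ _).trans ?_
    rw [norm_mul, norm_mul]
    have h3 : ‖a x‖ * ‖∏ i ∈ s, a i - ∏ i ∈ s, b i‖ ≤ 1 * ∑ i ∈ s, ‖a i - b i‖ := by
      gcongr
      exact ha x (Finset.mem_insert_self x s)
    have h4 : ‖a x - b x‖ * ‖∏ i ∈ s, b i‖ ≤ ‖a x - b x‖ * 1 := by gcongr
    linarith

lemma det_diff {k : ℕ} {M N : Matrix (Fin k) (Fin k) ℂ} (hM : ∀ a b, ‖M a b‖ ≤ 1)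
    (hN : ∀ a b, ‖N a b‖ ≤ 1) {η : ℝ} (h : ∀ a b, ‖M a b - N a b‖ ≤ η) :
    ‖M.det - N.det‖ ≤ k.factorial * (k * η) := by
  rw [Matrix.det_apply, Matrix.det_apply, ← Finset.sum_sub_distrib]
  refine (norm_sum_le _ _).trans ?_
  have h1 : ∀ σ ∈ (Finset.univ : Finset (Equiv.Perm (Fin k))),
      ‖Equiv.Perm.sign σ • ∏ i, M (σ i) i - Equiv.Perm.sign σ • ∏ i, N (σ i) i‖ ≤ k * η := by
    intro σ _
    rw [← smul_sub]
    have h2 : ‖Equiv.Perm.sign σ • (∏ i, M (σ i) i - ∏ i, N (σ i) i)‖ =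
        ‖∏ i, M (σ i) i - ∏ i, N (σ i) i‖ := by
      rcases Int.units_eq_one_or (Equiv.Perm.sign σ) with h3 | h3
      · rw [h3, one_smul]
      · rw [h3, Units.neg_smul, one_smul, norm_neg]
    rw [h2]
    refine (prod_diff _ _ _ (fun i _ => hM _ _) fun i _ => hN _ _).trans ?_
    calc ∑ i, ‖M (σ i) i - N (σ i) i‖ ≤ ∑ _i : Fin k, η := Finset.sum_le_sum fun i _ => h _ _
      _ = k * η := by rw [Finset.sum_const, Finset.card_univ, Fintype.card_fin, nsmul_eq_mul]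
  refine (Finset.sum_le_sum h1).trans ?_
  rw [Finset.sum_const, Finset.card_univ, Fintype.card_perm, Fintype.card_fin, nsmul_eq_mul]

lemma det_bound {k : ℕ} {M : Matrix (Fin k) (Fin k) ℂ} {v : Fin k → ℝ}
    (hM : ∀ a b, ‖M a b‖ ≤ v a) : ‖M.det‖ ≤ k.factorial * ∏ a, v a := by
  rw [Matrix.det_apply]
  refine (norm_sum_le _ _).trans ?_
  have h1 : ∀ σ ∈ (Finset.univ : Finset (Equiv.Perm (Fin k))),
      ‖Equiv.Perm.sign σ • ∏ i, M (σ i) i‖ ≤ ∏ a, v a := by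
    intro σ _
    have h2 : ‖Equiv.Perm.sign σ • ∏ i, M (σ i) i‖ = ‖∏ i, M (σ i) i‖ := by
      rcases Int.units_eq_one_or (Equiv.Perm.sign σ) with h3 | h3
      · rw [h3, one_smul]
      · rw [h3, Units.neg_smul, one_smul, norm_neg]
    rw [h2, norm_prod, ← Equiv.prod_comp σ v]
    exact Finset.prod_le_prod (fun i _ => norm_nonneg _) fun i _ => hM _ _
  refine (Finset.sum_le_sum h1).trans ?_
  rw [Finset.sum_const, Finset.card_univ, Fintype.card_perm, Fintype.card_fin, nsmul_eq_mul]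

/-- the correlation functions of the superposition of the processes with the spectral densities
`φ_i` -/
noncomputable def rho {n : ℕ} (φ : Fin n → ℝ → ℝ) {k : ℕ} (x : Fin k → ℝ) : ℝ :=
  ∑ c : Fin k → Fin n,
    (Matrix.det (Matrix.of fun a b => if c a = c b then K (φ (c a)) (x a - x b) else 0)).re

/-- the correlation functions of the sine process -/
noncomputable def sn {k : ℕ} (x : Fin k → ℝ) : ℝ :=
  Matrix.det (Matrix.of fun a b => Real.sinc (Real.pi * (x a - x b)))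

lemma sn_mod {k : ℕ} (x : Fin k → ℝ) (m : ℝ) :
    Matrix.det (Matrix.of fun a b => Complex.exp (2 * Real.pi * Complex.I * m * ((x a - x b : ℝ) : ℂ)) *
      (Real.sinc (Real.pi * (x a - x b)) : ℝ)) = ((sn x : ℝ) : ℂ) := by
  have e : (Matrix.of fun a b => Complex.exp (2 * Real.pi * Complex.I * m * ((x a - x b : ℝ) : ℂ)) *
      (Real.sinc (Real.pi * (x a - x b)) : ℝ) : Matrix (Fin k) (Fin k) ℂ) =
      Matrix.of fun a b => Complex.exp (2 * Real.pi * Complex.I * m * (x a : ℂ)) *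
        (Matrix.of fun a b => Complex.exp (-(2 * Real.pi * Complex.I * m * (x b : ℂ))) *
          (((Matrix.of fun a b => Real.sinc (Real.pi * (x a - x b))) : Matrix (Fin k) (Fin k) ℝ).map
            (Complex.ofRealHom)) a b) a b := by
    ext a b
    simp only [Matrix.of_apply, Matrix.map_apply, Complex.ofRealHom_eq_coe]
    rw [← mul_assoc, ← Complex.exp_add]
    congr 2
    push_cast
    ring
  rw [e, Matrix.det_mul_column, Matrix.det_mul_row, ← RingHom.mapMatrix_apply, ← RingHom.map_det,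
    ← mul_assoc, ← Finset.prod_mul_distrib]
  have e2 : ∀ i : Fin k, Complex.exp (2 * Real.pi * Complex.I * m * (x i : ℂ)) *
      Complex.exp (-(2 * Real.pi * Complex.I * m * (x i : ℂ))) = 1 := fun i => by
    rw [← Complex.exp_add, add_neg_cancel, Complex.exp_zero]
  simp only [e2, Finset.prod_const_one, one_mul]
  rfl

lemma norm_mod (m u : ℝ) : ‖Complex.exp (2 * Real.pi * Complex.I * m * (u : ℂ)) *
      (Real.sinc (Real.pi * u) : ℝ)‖ ≤ 1 := by
  rw [norm_mul, show (2 * Real.pi * Complex.I * m * u : ℂ) =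
    ((2 * Real.pi * m * u : ℝ) : ℂ) * Complex.I by push_cast; ring,
    Complex.norm_exp_ofReal_mul_I, one_mul, Complex.norm_real, Real.norm_eq_abs]
  exact Real.abs_sinc_le_one _

variable {n : ℕ} {φ : Fin n → ℝ → ℝ}

lemma Fam.mass_le (h : Fam n φ) (i : Fin n) : ∫ ξ, φ i ξ ≤ 1 := by
  rw [← h.tot]
  exact Finset.single_le_sum (f := fun i => ∫ ξ, φ i ξ)
    (fun j _ => (h.sp j).tot_nonneg) (Finset.mem_univ i)

/-- the heavy component -/
theorem Fam.comp_near (h : Fam n φ) {δ ε : ℝ} (hd : (∫ α, |BB φ α - tr 1 α|) ≤ δ) (hε : ε ≤ 1 / 2)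
    (i : Fin n) (hi : 1 - ε ≤ ∫ ξ, φ i ξ) :
    ∃ m : ℝ, ∀ u : ℝ, ‖K (φ i) u - Complex.exp (2 * Real.pi * Complex.I * m * u) *
        (Real.sinc (Real.pi * u) : ℝ)‖ ≤ 12 * Real.sqrt (2 * ε + δ) + ε := by
  classical
  have hk := h.mass_le i
  have hsum : ∑ j ∈ Finset.univ.erase i, (∫ ξ, φ j ξ) ^ 2 ≤ ε := by
    have h1 : ∑ j ∈ Finset.univ.erase i, (∫ ξ, φ j ξ) ^ 2 ≤
        ∑ j ∈ Finset.univ.erase i, ∫ ξ, φ j ξ := by
      refine Finset.sum_le_sum fun j _ => ?_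
      have h0 := (h.sp j).tot_nonneg
      have h1 := h.mass_le j
      nlinarith
    have h2 := Finset.add_sum_erase Finset.univ (fun j => ∫ ξ, φ j ξ) (Finset.mem_univ i)
    rw [h.tot] at h2
    linarith
  have hb : (∫ α, |bb (φ i) α - tr 1 α|) ≤ ε + δ := by
    have hi1 : Integrable fun α => |bb (φ i) α - tr 1 α| :=
      ((h.sp i).bb_int.sub (tr_int one_pos)).abs
    have hi2 : Integrable fun α => |BB φ α - tr 1 α| := (h.BB_int.sub (tr_int one_pos)).abs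
    have hi3 : Integrable fun α => ∑ j ∈ Finset.univ.erase i, bb (φ j) α :=
      integrable_finsetSum _ fun j _ => (h.sp j).bb_int
    have h1 : (∫ α, |bb (φ i) α - tr 1 α|) ≤
        ∫ α, ((∑ j ∈ Finset.univ.erase i, bb (φ j) α) + |BB φ α - tr 1 α|) := by
      refine integral_mono hi1 (hi3.add hi2) fun α => ?_
      simp only
      have e : BB φ α = bb (φ i) α + ∑ j ∈ Finset.univ.erase i, bb (φ j) α :=
        (Finset.add_sum_erase Finset.univ (fun j => bb (φ j) α) (Finset.mem_univ i)).symm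
      have h0 : 0 ≤ ∑ j ∈ Finset.univ.erase i, bb (φ j) α :=
        Finset.sum_nonneg fun j _ => (h.sp j).bb_nonneg α
      have e2 : bb (φ i) α - tr 1 α = (BB φ α - tr 1 α) -
          ∑ j ∈ Finset.univ.erase i, bb (φ j) α := by rw [e]; ring
      rw [e2]
      refine (abs_sub _ _).trans ?_
      rw [abs_of_nonneg h0]
      linarith
    rw [integral_add hi3 hi2, integral_finsetSum _ fun j _ => (h.sp j).bb_int] at h1
    simp only [fun j => (h.sp j).bb_total] at h1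
    linarith
  obtain ⟨m, hm⟩ := (h.sp i).K_near (by linarith) hk rfl hb
  refine ⟨m, fun u => (hm u).trans ?_⟩
  have h1 : Real.sqrt (1 - (∫ ξ, φ i ξ) + (ε + δ)) ≤ Real.sqrt (2 * ε + δ) :=
    Real.sqrt_le_sqrt (by linarith)
  linarith

/-- the correlation functions are close to those of the sine process -/
theorem Fam.rho_near (h : Fam n φ) {δ ε : ℝ} (hd : (∫ α, |BB φ α - tr 1 α|) ≤ δ) (hε : ε ≤ 1 / 2)
    (i : Fin n) (hi : 1 - ε ≤ ∫ ξ, φ i ξ) {k : ℕ} (x : Fin k → ℝ) :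
    |rho φ x - sn x| ≤ k.factorial * k * (12 * Real.sqrt (2 * ε + δ) + 2 * ε) := by
  classical
  obtain ⟨m, hm⟩ := h.comp_near hd hε i hi
  have hk := h.mass_le i
  obtain ⟨D, hD⟩ : ∃ D : (Fin k → Fin n) → ℂ, D = fun c =>
    Matrix.det (Matrix.of fun a b => if c a = c b then K (φ (c a)) (x a - x b) else 0) := ⟨_, rfl⟩
  obtain ⟨c0, hc0⟩ : ∃ c0 : Fin k → Fin n, c0 = fun _ => i := ⟨_, rfl⟩
  have e1 : rho φ x = (D c0).re + ∑ c ∈ Finset.univ.erase c0, (D c).re := by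
    rw [Finset.add_sum_erase Finset.univ (fun c => (D c).re) (Finset.mem_univ c0), hD]
    rfl
  -- the main component
  have h1 : ‖D c0 - ((sn x : ℝ) : ℂ)‖ ≤ k.factorial * (k * (12 * Real.sqrt (2 * ε + δ) + ε)) := by
    rw [← sn_mod x m, hD, hc0]
    refine det_diff (fun a b => ?_) (fun a b => ?_) fun a b => ?_
    · simp only [Matrix.of_apply, if_true]
      exact ((h.sp i).K_le _).trans hk
    · simp only [Matrix.of_apply]
      exact norm_mod m _
    · simp only [Matrix.of_apply, if_true]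
      exact hm (x a - x b)
  -- the others
  have h2 : ∀ c, ‖D c‖ ≤ k.factorial * ∏ a, ∫ ξ, φ (c a) ξ := by
    intro c
    rw [hD]
    refine det_bound fun a b => ?_
    simp only [Matrix.of_apply]
    split_ifs
    · exact (h.sp (c a)).K_le _
    · rw [norm_zero]; exact (h.sp (c a)).tot_nonneg
  have h3 : ∑ c ∈ Finset.univ.erase c0, ∏ a, (∫ ξ, φ (c a) ξ) ≤ k * ε := by
    have h4 : ∑ c : Fin k → Fin n, ∏ a, (∫ ξ, φ (c a) ξ) = 1 := by
      rw [← Fintype.sum_pow (fun j => ∫ ξ, φ j ξ) k, h.tot, one_pow]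
    have h5 := Finset.add_sum_erase Finset.univ (fun c : Fin k → Fin n => ∏ a, (∫ ξ, φ (c a) ξ))
      (Finset.mem_univ c0)
    have h6 : ∏ a, (∫ ξ, φ (c0 a) ξ) = (∫ ξ, φ i ξ) ^ k := by
      rw [hc0, Finset.prod_const, Finset.card_univ, Fintype.card_fin]
    have h7 : 1 - k * ε ≤ (∫ ξ, φ i ξ) ^ k := by
      have h8 := one_add_mul_le_pow (show (-2 : ℝ) ≤ -ε by linarith) k
      refine le_trans ?_ (pow_le_pow_left₀ (by linarith) hi k)
      have e : (1 - ε) ^ k = (1 + -ε) ^ k := by rw [← sub_eq_add_neg]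
      rw [e]
      linarith
    rw [h4, h6] at h5
    linarith
  have h4 : |∑ c ∈ Finset.univ.erase c0, (D c).re| ≤ k.factorial * (k * ε) := by
    calc |∑ c ∈ Finset.univ.erase c0, (D c).re| ≤ ∑ c ∈ Finset.univ.erase c0, |(D c).re| :=
          Finset.abs_sum_le_sum_abs _ _
      _ ≤ ∑ c ∈ Finset.univ.erase c0, k.factorial * ∏ a, ∫ ξ, φ (c a) ξ :=
          Finset.sum_le_sum fun c _ => (Complex.abs_re_le_norm _).trans (h2 c)
      _ = k.factorial * ∑ c ∈ Finset.univ.erase c0, ∏ a, ∫ ξ, φ (c a) ξ := by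
          rw [Finset.mul_sum]
      _ ≤ _ := by gcongr
  have h5 : |(D c0).re - sn x| ≤ k.factorial * (k * (12 * Real.sqrt (2 * ε + δ) + ε)) := by
    have := (Complex.abs_re_le_norm (D c0 - ((sn x : ℝ) : ℂ))).trans h1
    rwa [Complex.sub_re, Complex.ofReal_re] at this
  rw [e1]
  calc |(D c0).re + ∑ c ∈ Finset.univ.erase c0, (D c).re - sn x| =
      |((D c0).re - sn x) + ∑ c ∈ Finset.univ.erase c0, (D c).re| := by congr 1; ring
    _ ≤ |(D c0).re - sn x| + |∑ c ∈ Finset.univ.erase c0, (D c).re| := abs_add_le _ _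
    _ ≤ k.factorial * (k * (12 * Real.sqrt (2 * ε + δ) + ε)) + k.factorial * (k * ε) :=
        add_le_add h5 h4
    _ = _ := by ring

/-! ### The limit -/

variable {ι : Type} {l : Filter ι}

theorem top1 {T : ι → ℝ} (hT : Tendsto T l atTop) {n : ι → ℕ} {φ : ∀ j, Fin (n j) → ℝ → ℝ}
    (hφ : ∀ j, Fam (n j) (φ j))
    (hw : ∀ α β : ℝ, 0 < α → α < β → Tendsto (fun j => (Mp (T j)).real (Icc α β) -
      ∫ u in α..β, (1 - YY (φ j) u)) l (𝓝 0)) {δ : ℝ} (hδ : 0 < δ) :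
    ∀ᶠ j in l, (∫ α, |BB (φ j) α - tr 1 α|) ≤ δ ∧ ∃ i, 1 - δ ≤ ∫ ξ, φ j i ξ := by
  obtain ⟨C, hC, hk⟩ := key hT hφ hw
  obtain ⟨d, hd⟩ : ∃ d : ℝ, d = δ / 12 := ⟨_, rfl⟩
  have hd0 : 0 < d := by rw [hd]; positivity
  obtain ⟨κ, hκd⟩ : ∃ κ : ℝ, κ = min (1 / 2) (d / (64 * (C + 2))) := ⟨_, rfl⟩
  have hκ : 0 < κ := by rw [hκd]; positivity
  have hκ2 : κ ≤ 1 / 2 := by rw [hκd]; exact min_le_left _ _
  have hκ3 : 64 * (C + 2) * κ ≤ d := by
    have : κ ≤ d / (64 * (C + 2)) := by rw [hκd]; exact min_le_right _ _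
    rw [le_div_iff₀ (by positivity)] at this
    linarith
  filter_upwards [hk κ hκ hκ2 (κ ^ 2) (by positivity), hT.eventually (eventually_ge_atTop 10)]
    with j hj hT10
  have hn := nT_pos hT10
  have hA0 := (hφ j).AA_nonneg hκ
  have hNF0 : 0 ≤ NF (T j) / nT (T j) :=
    div_nonneg (Finset.sum_nonneg fun s _ => mm_nonneg s) hn.le
  have hA1 : AA (φ j) κ ≤ κ / 3 + (C + 1) * κ ^ 2 := by nlinarith
  have hA2 : κ / 3 + (C + 1) * κ ^ 2 ≤ (C + 2) * κ := by nlinarith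
  have hA3 : AA (φ j) κ ≤ (C + 2) * κ := hA1.trans hA2
  have hAd : AA (φ j) κ ≤ d := by nlinarith
  have hw' : ∀ a : ℝ, 0 ≤ a → a ≤ 1 → WW (φ j) a ≤ a + d := by
    intro a ha ha1
    refine ((hφ j).core hκ ha).trans ?_
    have h1 : 3 * a * AA (φ j) κ / κ ≤ a + 3 * (C + 1) * κ := by
      rw [div_le_iff₀ hκ]
      have h2 : 3 * a * AA (φ j) κ ≤ 3 * a * (κ / 3 + (C + 1) * κ ^ 2) := by gcongr
      have h3 : a * (3 * (C + 1) * κ ^ 2) ≤ 1 * (3 * (C + 1) * κ ^ 2) := by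
        apply mul_le_mul_of_nonneg_right ha1 (by positivity)
      nlinarith
    have h2 : 32 * AA (φ j) κ ≤ 32 * ((C + 2) * κ) := by linarith
    have h3 : 3 * (C + 1) * κ ≤ 32 * ((C + 2) * κ) := by nlinarith
    linarith
  obtain ⟨h1, h2⟩ := (hφ j).dist hd0.le (((hφ j).zero_le_AA hκ).trans hAd) hw'
  refine ⟨by rw [hd] at h1; linarith, ?_⟩
  rw [(hφ j).BB_tot, hd] at h2
  by_contra hcon
  push Not at hcon
  have h3 : ∑ i, (∫ ξ, φ j i ξ) ^ 2 ≤ ∑ i, (1 - δ) * ∫ ξ, φ j i ξ := by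
    refine Finset.sum_le_sum fun i _ => ?_
    have h3 := ((hφ j).sp i).tot_nonneg
    have h4 := hcon i
    nlinarith
  rw [← Finset.mul_sum, (hφ j).tot, mul_one] at h3
  linarith

/-- **All levels.** -/
theorem klimit {T : ι → ℝ} (hT : Tendsto T l atTop) {n : ι → ℕ} {φ : ∀ j, Fin (n j) → ℝ → ℝ}
    (hφ : ∀ j, Fam (n j) (φ j))
    (hw : ∀ α β : ℝ, 0 < α → α < β → Tendsto (fun j => (Mp (T j)).real (Icc α β) -
      ∫ u in α..β, (1 - YY (φ j) u)) l (𝓝 0)) (k : ℕ) {η : ℝ} (hη : 0 < η) :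
    ∀ᶠ j in l, ∀ x : Fin k → ℝ, |rho (φ j) x - sn x| ≤ η := by
  obtain ⟨A, hA⟩ : ∃ A : ℝ, A = k.factorial * k + 1 := ⟨_, rfl⟩
  have hA0 : 0 < A := by rw [hA]; positivity
  obtain ⟨s, hs⟩ : ∃ s : ℝ, s = min 1 (η / (26 * A)) := ⟨_, rfl⟩
  have hs0 : 0 < s := by rw [hs]; positivity
  have hs1 : s ≤ 1 := by rw [hs]; exact min_le_left _ _
  have hs2 : 26 * A * s ≤ η := by
    have : s ≤ η / (26 * A) := by rw [hs]; exact min_le_right _ _
    rw [le_div_iff₀ (by positivity)] at this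
    linarith
  filter_upwards [top1 hT hφ hw (δ := s ^ 2 / 4) (by positivity)] with j hj x
  obtain ⟨h1, i, h2⟩ := hj
  have h3 := (hφ j).rho_near h1 (ε := s ^ 2 / 4) (by nlinarith) i h2 x
  have h4 : Real.sqrt (2 * (s ^ 2 / 4) + s ^ 2 / 4) ≤ s := by
    rw [Real.sqrt_le_left hs0.le]
    nlinarith
  have h5 : 12 * Real.sqrt (2 * (s ^ 2 / 4) + s ^ 2 / 4) + 2 * (s ^ 2 / 4) ≤ 26 * s := by nlinarith
  have h6 : (k.factorial : ℝ) * k ≤ A := by rw [hA]; linarith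
  calc |rho (φ j) x - sn x| ≤ _ := h3
    _ ≤ A * (26 * s) := by
        apply mul_le_mul h6 h5 (by positivity) hA0.le
    _ ≤ η := by linarith

end Pool.Agent.Y748.DP
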