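import Pool.Agent.Y748.DP.Rec
import Pool.Agent.Y748.DP.Core
import Pool.Agent.Y749.Rig.Stm1
import Pool.Agent.Y750.OM.Conv1

/-! # The small frequencies, unconditionally -/

set_option autoImplicit false

open MeasureTheory Set Filter Topology
open scoped NNReal ENNReal

namespace Pool.Agent.Y748.DP

open H370 (Zf mult good_zeta mem_Zf NN zset nn_asymp)
open Pool.Agent.Y749.Rig (fl tr tr_even tr_nonneg tr_cont tr_supp tr_eq tr_int tr_lip adm_tr
  fl_bound RR ZZ mm mm_nonneg nT nT_pos Mp Mp_integral one_lt_log)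
open Pool.Agent.Y750.OM (pair_ord PO rh NO NO_nonneg bl_eq bl rh_of_bl)

lemma RR_PO (r : ℝ → ℝ) (q L : ℝ) : RR (fl r) (Zf riemannZeta q (2 * q)) (Zf riemannZeta q (2 * q)) L =
    PO (rh r) q (2 * q) L := by
  unfold RR PO
  refine Finset.sum_congr rfl fun s _ => Finset.sum_congr rfl fun s' _ => ?_
  have e : fl r ((s.im - s'.im) * L / (2 * Real.pi)) = rh r ((s.im - s'.im) * L) :=
    bl_eq r ((s.im - s'.im) * L)
  rw [e]
  rfl

lemma tr_zero {κ : ℝ} (hκ : 0 < κ) : tr κ 0 = 1 / κ := by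
  rw [tr_eq hκ le_rfl hκ.le]; simp

lemma tr_abs {κ : ℝ} (hκ : 0 < κ) : ∫ α, |α| * tr κ α = κ / 3 := by
  have h1 : ∫ α, (fun y => y * tr κ y) |α| = 2 * ∫ α in Ioi (0 : ℝ), α * tr κ α :=
    integral_comp_abs (f := fun y => y * tr κ y)
  have h2 : ∫ α, (fun y => y * tr κ y) |α| = ∫ α, |α| * tr κ α := by
    refine integral_congr_ae (ae_of_all _ fun x => ?_)
    simp only
    rcases le_total 0 x with hx | hx
    · rw [abs_of_nonneg hx]
    · rw [abs_of_nonpos hx, tr_even]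
  have h3 : ∫ α in Ioi (0 : ℝ), α * tr κ α = ∫ α in Ioc (0 : ℝ) κ, α * tr κ α := by
    refine setIntegral_eq_of_subset_of_forall_sdiff_eq_zero measurableSet_Ioi
      (fun x hx => hx.1) fun x hx => ?_
    have h4 : κ < x := by
      by_contra hcon
      push Not at hcon
      exact hx.2 ⟨hx.1, hcon⟩
    rw [tr_supp hκ x (by rw [abs_of_pos (by linarith)]; exact h4.le), mul_zero]
  rw [← h2, h1, h3, ← intervalIntegral.integral_of_le hκ.le]
  have h5 : ∫ s in (0 : ℝ)..κ, s * tr κ s = κ / 6 := by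
    rw [← tr_mom hκ]
    refine intervalIntegral.integral_congr fun s _ => ?_
    ring
  rw [h5]
  ring

lemma NO_le {q : ℝ} (hq : 1 ≤ q) : NO q (2 * q) ≤ NN riemannZeta q (2 * q) := by
  classical
  rw [← Pool.Agent.Y749.Rig.NN_eq' hq]
  unfold Pool.Agent.Y750.OM.NO
  exact Finset.sum_le_sum_of_subset_of_nonneg (Finset.filter_subset _ _) fun s _ _ => mm_nonneg s

theorem blk_low : ∃ C : ℝ, 0 < C ∧ ∀ κ : ℝ, 0 < κ → κ ≤ 1 / 2 → ∀ ε : ℝ, 0 < ε →
    ∀ᶠ q : ℝ in atTop,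
      |RR (fl (tr κ)) (Zf riemannZeta q (2 * q)) (Zf riemannZeta q (2 * q)) (Real.log q) -
        q * (Real.log q / (2 * Real.pi)) * (1 / κ + κ / 3)| ≤ (C * κ ^ 2 + ε) * (q * Real.log q) := by
  obtain ⟨C, θ, hC, hθ, h⟩ := pair_ord (κ0 := 1 / 2) (by norm_num) (by norm_num)
  obtain ⟨C2, T2, hC2, hT2, hnn⟩ := nn_asymp good_zeta
  refine ⟨C, hC, fun κ hκ hκ2 ε hε => ?_⟩
  obtain ⟨B, hB⟩ := fl_bound (adm_tr hκ)
  have hA : ∀ u, |bl (tr κ) u| * (1 + u ^ 2) ≤ B := by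
    intro u
    have h1 := hB u
    rw [le_div_iff₀ (by positivity)] at h1
    exact h1
  have hR : ∀ α, |tr κ α| ≤ 1 / κ := by
    intro α
    rw [abs_of_nonneg (tr_nonneg hκ α)]
    unfold tr
    gcongr
    apply max_le zero_le_one
    have : 0 ≤ |α| / κ := by positivity
    linarith
  obtain ⟨T1, hT1, hmain⟩ := h κ hκ hκ2 (tr κ) (1 / κ ^ 2) (tr_lip hκ)
    (fun α hα => tr_supp hκ α hα.le) _ (rh_of_bl hA) (1 / κ) hR (ε / 2) (by positivity)
  obtain ⟨c, hc⟩ : ∃ c : ℝ, c = 1 / κ + κ / 3 := ⟨_, rfl⟩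
  have hc0 : 0 < c := by rw [hc]; positivity
  have hpi := Real.pi_gt_three
  filter_upwards [eventually_ge_atTop T1, eventually_ge_atTop T2, eventually_ge_atTop 10,
    Real.tendsto_log_atTop.eventually_ge_atTop (2 * c * C2 / ε),
    Real.tendsto_log_atTop.eventually_ge_atTop (2 * C2)] with q h1 h2 h3 h4 h5
  have hq1 : 1 ≤ q := by linarith
  have hq0 : 0 < q := by linarith
  have hm := hmain q h1
  have hcnt := hnn q h2 q (2 * q) le_rfl (by linarith) (by linarith) le_rfl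
  rw [RR_PO, ← hc]
  rw [tr_zero hκ, tr_abs hκ, ← hc] at hm
  obtain ⟨N, hN⟩ : ∃ N : ℝ, N = (NN riemannZeta q (2 * q) : ℝ) := ⟨_, rfl⟩
  rw [← hN] at hm hcnt
  have hN0 : 0 ≤ N := by rw [hN]; exact Nat.cast_nonneg _
  have hL := one_lt_log (show 3 ≤ q by linarith)
  have hqL : 0 < q * Real.log q := by positivity
  have hNle : N ≤ q * Real.log q := by
    have h6 := (abs_le.1 hcnt).2
    have h7 : q * Real.log q / (2 * Real.pi) ≤ q * Real.log q / 6 := by gcongr; linarith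
    have h8 : C2 * q ≤ q * Real.log q / 2 := by nlinarith
    linarith
  have hratio : (NO q (2 * q) / N) ^ θ ≤ 1 := by
    apply Real.rpow_le_one
    · exact div_nonneg (NO_nonneg _ _) hN0
    · apply div_le_one_of_le₀ _ hN0
      rw [hN]
      exact NO_le hq1
    · exact hθ.le
  have hratio0 : 0 ≤ (NO q (2 * q) / N) ^ θ :=
    Real.rpow_nonneg (div_nonneg (NO_nonneg _ _) hN0) _
  have hk : C * (1 / κ) * κ ^ 3 * (NO q (2 * q) / N) ^ θ ≤ C * κ ^ 2 := by
    have e : C * (1 / κ) * κ ^ 3 = C * κ ^ 2 := by field_simp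
    rw [e]
    exact mul_le_of_le_one_right (by positivity) hratio
  have hm2 : |PO (rh (tr κ)) q (2 * q) (Real.log q) - N * c| ≤ (C * κ ^ 2 + ε / 2) *
      (q * Real.log q) := by
    refine hm.trans ?_
    calc (C * (1 / κ) * κ ^ 3 * (NO q (2 * q) / N) ^ θ + ε / 2) * N ≤
        (C * κ ^ 2 + ε / 2) * N := by gcongr
      _ ≤ _ := by gcongr
  have h9 : |N * c - q * (Real.log q / (2 * Real.pi)) * c| ≤ ε / 2 * (q * Real.log q) := by
    rw [← sub_mul, abs_mul, abs_of_pos hc0]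
    rw [show q * (Real.log q / (2 * Real.pi)) = q * Real.log q / (2 * Real.pi) by ring]
    rw [div_le_iff₀ hε] at h4
    calc |N - q * Real.log q / (2 * Real.pi)| * c ≤ C2 * q * c := by gcongr
      _ ≤ _ := by nlinarith
  have h10 := abs_sub_le (PO (rh (tr κ)) q (2 * q) (Real.log q)) (N * c)
    (q * (Real.log q / (2 * Real.pi)) * c)
  calc _ ≤ _ := h10
    _ ≤ (C * κ ^ 2 + ε / 2) * (q * Real.log q) + ε / 2 * (q * Real.log q) := add_le_add hm2 h9
    _ = _ := by ring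

/-- the sums of the Fejer kernels over the pairs of zeros -/
theorem low : ∃ C : ℝ, 0 < C ∧ ∀ κ : ℝ, 0 < κ → κ ≤ 1 / 2 → ∀ ε : ℝ, 0 < ε →
    ∀ᶠ T : ℝ in atTop, |(∫ x, fl (tr κ) x ∂(Mp T)) - (1 / κ + κ / 3)| ≤ C * κ ^ 2 + ε := by
  obtain ⟨C, hC, h⟩ := blk_low
  have hpi := Real.pi_pos
  refine ⟨2 * Real.pi * C, by positivity, fun κ hκ hκ2 ε hε => ?_⟩
  have h1 := recur (adm_tr hκ) (c := 1 / κ + κ / 3) (E := C * κ ^ 2) (by positivity)
    (fun ε hε => h κ hκ hκ2 ε hε)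
  filter_upwards [h1 (ε / (2 * Real.pi)) (by positivity), eventually_ge_atTop 10] with T hT hT10
  have hn := nT_pos hT10
  rw [Mp_integral hT10]
  have e1 : RR (fl (tr κ)) (ZZ T) (ZZ T) (Real.log T) / nT T - (1 / κ + κ / 3) =
      (RR (fl (tr κ)) (ZZ T) (ZZ T) (Real.log T) - nT T * (1 / κ + κ / 3)) / nT T := by
    field_simp
  rw [e1, abs_div, abs_of_pos hn, div_le_iff₀ hn]
  refine hT.trans (le_of_eq ?_)
  unfold nT
  field_simp

end Pool.Agent.Y748.DP
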