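import Pool.Agent.Y749.Rig.Rec2

/-! # From dyadic blocks to all zeros up to a height -/

set_option autoImplicit false

open MeasureTheory Set Filter Topology
open scoped NNReal ENNReal

namespace Pool.Agent.Y748.DP

open H370 (Zf mult good_zeta mem_Zf NN zset)
open Pool.Agent.Y749.Rig (fl Adm fl_lip fl_bound RR ZZ mm mm_nonneg sm_all sm_blk sm_small cnt2 WT
  WT_tendsto W0 W0_nonneg RR_split RR_le RR_union one_lt_log fw fw_nonneg fw_mono est_all mem_ZZ
  Zf_sub_ZZ ZZ_split ZZ_disj fl_even)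

lemma log_ratio {T : ℝ} (hT : 0 < T) : Real.log (1 / 2 * T) = Real.log T - Real.log 2 := by
  rw [Real.log_mul (by norm_num) hT.ne', show (1 / 2 : ℝ) = 2⁻¹ by norm_num, Real.log_inv]
  ring

lemma log98 : 0 < Real.log 2 ∧ Real.log 2 ≤ 1 := by
  constructor
  · exact Real.log_pos (by norm_num)
  · have := Real.log_two_lt_d9
    linarith

/-- the effect of a change of the scale -/
theorem dil {ψ : ℝ → ℝ} {κ : ℝ} (h : Adm κ ψ) {ε : ℝ} (hε : 0 < ε) : ∀ᶠ T : ℝ in atTop,
    |RR (fl ψ) (ZZ T) (ZZ T) (Real.log T) - RR (fl ψ) (ZZ T) (ZZ T) (Real.log (1 / 2 * T))| ≤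
      ε * (T * Real.log T) := by
  obtain ⟨K, hK0, hK⟩ := fl_lip h
  obtain ⟨b, hb⟩ := fl_bound h
  have hb0 : 0 ≤ b := by
    have := (abs_nonneg _).trans (hb 0)
    simpa using this
  obtain ⟨C, T0, hC, hT0, hsm⟩ := sm_all
  -- choose R
  obtain ⟨R, hR0, hR⟩ : ∃ R : ℝ, 0 < R ∧ (5 * b) * WT R * C ≤ ε / 2 := by
    have h1 : Tendsto (fun R => (5 * b) * WT R * C) atTop (𝓝 ((5 * b) * 0 * C)) :=
      (WT_tendsto.const_mul _).mul_const _
    rw [mul_zero, zero_mul] at h1
    obtain ⟨R, hR1, hR2⟩ := ((eventually_gt_atTop 0).and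
      (h1.eventually (ge_mem_nhds (show (0 : ℝ) < ε / 2 by positivity)))).exists
    exact ⟨R, hR1, hR2⟩
  obtain ⟨D, hD⟩ : ∃ D : ℝ, D = K * R * (1 + R ^ 2) * W0 * C := ⟨_, rfl⟩
  have hD0 : 0 ≤ D := by
    rw [hD]; have := W0_nonneg; positivity
  filter_upwards [eventually_ge_atTop T0, Real.tendsto_log_atTop.eventually_ge_atTop (2 * D / ε + 1),
    Real.tendsto_log_atTop.eventually_ge_atTop 2] with T hT hL hL1
  have hT10 : 10 ≤ T := hT0.trans hT
  have hTp : 0 < T := by linarith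
  obtain ⟨L, hLd⟩ : ∃ L : ℝ, L = Real.log T := ⟨_, rfl⟩
  obtain ⟨l, hl⟩ : ∃ l : ℝ, l = Real.log 2 := ⟨_, rfl⟩
  have hl0 : 0 < l := by rw [hl]; exact log98.1
  have hl1 : l ≤ 1 := by rw [hl]; exact log98.2
  rw [log_ratio hTp, ← hLd, ← hl]
  rw [← hLd] at hL hL1
  have hL0 : 0 < L := by linarith
  have hsmT := hsm T hT
  rw [← hLd] at hsmT
  unfold RR
  rw [← Finset.sum_sub_distrib]
  have e1 : ∀ s s' : ℂ, mm s * mm s' * fl ψ ((s.im - s'.im) * L / (2 * Real.pi)) -
      mm s * mm s' * fl ψ ((s.im - s'.im) * (L - l) / (2 * Real.pi)) =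
      mm s * mm s' * (fl ψ ((s.im - s'.im) * L / (2 * Real.pi)) -
        fl ψ ((s.im - s'.im) * (L - l) / (2 * Real.pi))) := fun s s' => by ring
  have e2 : ∀ s, ∑ s' ∈ ZZ T, mm s * mm s' * fl ψ ((s.im - s'.im) * L / (2 * Real.pi)) -
      ∑ s' ∈ ZZ T, mm s * mm s' * fl ψ ((s.im - s'.im) * (L - l) / (2 * Real.pi)) =
      ∑ s' ∈ ZZ T, mm s * mm s' * (fl ψ ((s.im - s'.im) * L / (2 * Real.pi)) -
        fl ψ ((s.im - s'.im) * (L - l) / (2 * Real.pi))) := by
    intro s
    rw [← Finset.sum_sub_distrib]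
    exact Finset.sum_congr rfl fun s' _ => e1 s s'
  simp_rw [e2]
  have h3 := RR_split (A := ZZ T) (B := ZZ T) (L := L) hL0 (Y₁ := C * T) (Y₂ := C * T)
    (by positivity) (by positivity) mm_nonneg mm_nonneg hsmT hsmT
    (K := fun s s' => |fl ψ ((s.im - s'.im) * L / (2 * Real.pi)) -
        fl ψ ((s.im - s'.im) * (L - l) / (2 * Real.pi))|) (R := R)
    (η := K * R * (l / L) * (1 + R ^ 2)) (β := 5 * b) (by positivity) (by positivity) ?_
  · calc |∑ s ∈ ZZ T, ∑ s' ∈ ZZ T, mm s * mm s' * (fl ψ ((s.im - s'.im) * L / (2 * Real.pi)) -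
        fl ψ ((s.im - s'.im) * (L - l) / (2 * Real.pi)))| ≤
        ∑ s ∈ ZZ T, ∑ s' ∈ ZZ T, |mm s * mm s' * (fl ψ ((s.im - s'.im) * L / (2 * Real.pi)) -
        fl ψ ((s.im - s'.im) * (L - l) / (2 * Real.pi)))| :=
        (Finset.abs_sum_le_sum_abs _ _).trans (Finset.sum_le_sum fun s _ =>
          Finset.abs_sum_le_sum_abs _ _)
      _ = ∑ s ∈ ZZ T, ∑ s' ∈ ZZ T, mm s * mm s' * |fl ψ ((s.im - s'.im) * L / (2 * Real.pi)) -
        fl ψ ((s.im - s'.im) * (L - l) / (2 * Real.pi))| := by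
        refine Finset.sum_congr rfl fun s _ => Finset.sum_congr rfl fun s' _ => ?_
        rw [abs_mul, abs_of_nonneg (mul_nonneg (mm_nonneg s) (mm_nonneg s'))]
      _ ≤ (K * R * (l / L) * (1 + R ^ 2) * W0 + 5 * b * WT R) *
          (L * Real.sqrt (C * T) * Real.sqrt (C * T)) := h3
      _ = (K * R * (l / L) * (1 + R ^ 2) * W0 + 5 * b * WT R) * (L * (C * T)) := by
        rw [mul_assoc L, Real.mul_self_sqrt (by positivity)]
      _ = (l * D) * T + (5 * b * WT R * C) * (T * L) := by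
        rw [hD]; field_simp
      _ ≤ (ε / 2 * L) * T + (ε / 2) * (T * L) := by
        have h4 : 2 * D / ε ≤ L := by linarith
        rw [div_le_iff₀ hε] at h4
        have h5 : l * D ≤ ε / 2 * L := by nlinarith
        gcongr
      _ = ε * (T * L) := by ring
  · intro s _ s' _
    obtain ⟨x, hx⟩ : ∃ x : ℝ, x = (s.im - s'.im) * L / (2 * Real.pi) := ⟨_, rfl⟩
    have hx2 : (s.im - s'.im) * (L - l) / (2 * Real.pi) = (1 - l / L) * x := by
      rw [hx]; field_simp
    rw [hx2, ← hx]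
    have hlL : l / L ≤ 1 / 2 := by
      rw [div_le_iff₀ hL0]; linarith
    have hlL0 : 0 < l / L := by positivity
    by_cases hR' : R ≤ |x|
    · rw [if_pos hR']
      have h4 := hb x
      have h5 := hb ((1 - l / L) * x)
      have h6 : b / (1 + ((1 - l / L) * x) ^ 2) ≤ 4 * b / (1 + x ^ 2) := by
        rw [div_le_div_iff₀ (by positivity) (by positivity)]
        have : x ^ 2 / 4 ≤ ((1 - l / L) * x) ^ 2 := by
          rw [mul_pow]
          have : (1 / 4 : ℝ) ≤ (1 - l / L) ^ 2 := by nlinarith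
          nlinarith [sq_nonneg x]
        nlinarith
      calc |fl ψ x - fl ψ ((1 - l / L) * x)| ≤ |fl ψ x| + |fl ψ ((1 - l / L) * x)| := abs_sub _ _
        _ ≤ b / (1 + x ^ 2) + 4 * b / (1 + x ^ 2) := by linarith
        _ = 5 * b * (1 / (1 + x ^ 2)) := by ring
    · rw [if_neg hR']
      push Not at hR'
      have h4 := hK x ((1 - l / L) * x)
      have h5 : |x - (1 - l / L) * x| = (l / L) * |x| := by
        rw [show x - (1 - l / L) * x = (l / L) * x by ring, abs_mul, abs_of_pos hlL0]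
      rw [h5] at h4
      have h6 : x ^ 2 ≤ R ^ 2 := by
        rw [← sq_abs x]; exact pow_le_pow_left₀ (abs_nonneg _) hR'.le 2
      calc |fl ψ x - fl ψ ((1 - l / L) * x)| ≤ K * ((l / L) * |x|) := h4
        _ ≤ K * ((l / L) * R) := by gcongr
        _ = K * R * (l / L) * 1 := by ring
        _ ≤ K * R * (l / L) * ((1 + R ^ 2) * (1 / (1 + x ^ 2))) := by
            gcongr
            rw [mul_one_div, le_div_iff₀ (by positivity)]
            linarith
        _ = _ := by ring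

/-- pairs on both sides of a point -/
theorem cross {ψ : ℝ → ℝ} {κ : ℝ} (h : Adm κ ψ) {ε : ℝ} (hε : 0 < ε) : ∀ᶠ q : ℝ in atTop,
    |RR (fl ψ) (ZZ q) (Zf riemannZeta q (2 * q)) (Real.log q)| ≤ ε * (q * Real.log q) := by
  classical
  obtain ⟨b, hb⟩ := fl_bound h
  have hb0 : 0 ≤ b := by
    have := (abs_nonneg _).trans (hb 0)
    simpa using this
  obtain ⟨C, T0, hC, hT0, hsm⟩ := sm_all
  obtain ⟨C1, T1, hC1, hT1, hblk⟩ := sm_blk
  obtain ⟨C2, hC2, hsmall⟩ := sm_small
  obtain ⟨C3, hC3, hcnt⟩ := cnt2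
  obtain ⟨M, hM⟩ : ∃ M : ℝ, M = Real.sqrt (C * C1) := ⟨_, rfl⟩
  have hM0 : 0 ≤ M := by rw [hM]; exact Real.sqrt_nonneg _
  obtain ⟨R, hR0, hR⟩ : ∃ R : ℝ, 0 < R ∧ b * WT R * M ≤ ε / 2 := by
    have h1 : Tendsto (fun R => b * WT R * M) atTop (𝓝 (b * 0 * M)) :=
      (WT_tendsto.const_mul _).mul_const _
    rw [mul_zero, zero_mul] at h1
    obtain ⟨R, hR1, hR2⟩ := ((eventually_gt_atTop 0).and
      (h1.eventually (ge_mem_nhds (show (0 : ℝ) < ε / 2 by positivity)))).exists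
    exact ⟨R, hR1, hR2⟩
  have hW := W0_nonneg
  obtain ⟨D, hD⟩ : ∃ D : ℝ, D = b * W0 * (C2 * 2 * (C3 * 2)) * 2 := ⟨_, rfl⟩
  have hD0 : 0 ≤ D := by rw [hD]; positivity
  have hlog2 : Tendsto (fun q : ℝ => (Real.log q) ^ 1 / q) atTop (𝓝 0) := by
    have := Real.isLittleO_log_id_atTop.tendsto_div_nhds_zero
    simpa using this
  filter_upwards [eventually_ge_atTop T0, eventually_ge_atTop T1,
    Real.tendsto_log_atTop.eventually_ge_atTop (2 * Real.pi * R + 2),
    hlog2.eventually (ge_mem_nhds (show (0 : ℝ) < ε / (2 * (D + 1)) by positivity))] with q hq hq1 hL hlq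
  have hq10 : 10 ≤ q := hT0.trans hq
  have hqp : 0 < q := by linarith
  obtain ⟨L, hLd⟩ : ∃ L : ℝ, L = Real.log q := ⟨_, rfl⟩
  have hpi := Real.pi_pos
  have hsmT := hsm q hq
  have hblkT := hblk q hq1
  rw [← hLd] at hL hsmT hblkT hlq ⊢
  have hRp : 0 < 2 * Real.pi * R := by positivity
  have hL0 : 0 < L := by linarith
  have hL1 : 1 < L := by linarith
  have hblkT' : ∫⁻ t, ENNReal.ofReal (fw (Zf riemannZeta q (2 * q)) mm L t ^ 2) ≤
      ENNReal.ofReal (C1 * q) := by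
    refine le_trans (lintegral_mono fun t => ENNReal.ofReal_le_ofReal ?_) hblkT
    refine pow_le_pow_left₀ (fw_nonneg mm_nonneg t) ?_ 2
    refine fw_mono ?_ (fun s _ => le_rfl) t mm_nonneg
    intro s hs
    rw [mem_Zf good_zeta (by linarith)] at hs ⊢
    exact ⟨hs.1, hs.2.1, hs.2.2.1, by linarith [hs.2.2.2.1], hs.2.2.2.2⟩
  -- the far part
  have hfar := RR_split (A := ZZ q) (B := Zf riemannZeta q (2 * q)) (L := L) hL0 (Y₁ := C * q)
    (Y₂ := C1 * q) (by positivity) (by positivity) mm_nonneg mm_nonneg hsmT hblkT'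
    (K := fun s s' => if R ≤ |(s.im - s'.im) * L / (2 * Real.pi)| then
      |fl ψ ((s.im - s'.im) * L / (2 * Real.pi))| else 0) (R := R)
    (η := 0) (β := b) le_rfl hb0 (by
      intro s _ s' _
      split_ifs with hh
      · rw [mul_one_div]; exact hb _
      · simp)
  rw [zero_mul, zero_add, mul_assoc L, ← Real.sqrt_mul (by positivity),
    show C * q * (C1 * q) = C * C1 * q ^ 2 by ring, Real.sqrt_mul (by positivity),
    Real.sqrt_sq hqp.le, ← hM] at hfar
  -- the near part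
  obtain ⟨G₁, hG₁⟩ : ∃ G₁ : Finset ℂ, G₁ = Zf riemannZeta (q - 1) q := ⟨_, rfl⟩
  obtain ⟨G₂, hG₂⟩ : ∃ G₂ : Finset ℂ, G₂ = Zf riemannZeta q (q + 1) := ⟨_, rfl⟩
  have c1 : ∑ s ∈ G₁, mm s ≤ C3 * 2 * L := by
    rw [hG₁]
    have h1 := hcnt (q - 1) q (by linarith) (by linarith) (by linarith)
    have h2 : Real.log (q - 1) ≤ L := by rw [hLd]; exact Real.log_le_log (by linarith) (by linarith)
    calc ∑ s ∈ Zf riemannZeta (q - 1) q, mm s ≤ C3 * (q - (q - 1) + 1) * Real.log (q - 1) := h1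
      _ = C3 * 2 * Real.log (q - 1) := by ring
      _ ≤ _ := by gcongr
  have c2 : ∑ s ∈ G₂, mm s ≤ C3 * 2 * L := by
    rw [hG₂]
    have h1 := hcnt q (q + 1) (by linarith) (by linarith) (by linarith)
    calc ∑ s ∈ Zf riemannZeta q (q + 1), mm s ≤ C3 * (q + 1 - q + 1) * Real.log q := h1
      _ = C3 * 2 * L := by rw [hLd]; ring
  have hlog2q : Real.log (2 * q) / L ≤ 2 := by
    rw [div_le_iff₀ hL0]
    have : Real.log (2 * q) ≤ Real.log (q ^ 2) := Real.log_le_log (by linarith) (by nlinarith)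
    rw [Real.log_pow, ← hLd] at this
    push_cast at this
    exact this
  have hG1sub : G₁ ⊆ ZZ (2 * q) := by rw [hG₁]; exact Zf_sub_ZZ (by linarith) (by linarith)
  have hG2sub : G₂ ⊆ ZZ (2 * q) := by rw [hG₂]; exact Zf_sub_ZZ (by linarith) (by linarith)
  have y : ∀ G : Finset ℂ, G ⊆ ZZ (2 * q) → ∑ s ∈ G, mm s ≤ C3 * 2 * L →
      ∫⁻ t, ENNReal.ofReal (fw G mm L t ^ 2) ≤ ENNReal.ofReal (C2 * 2 * (C3 * 2 * L)) := by
    intro G hG hG2
    refine (hsmall (2 * q) (by linarith) L hL1 G hG).trans (ENNReal.ofReal_le_ofReal ?_)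
    have h0 : 0 ≤ ∑ s ∈ G, mm s := Finset.sum_nonneg fun s _ => mm_nonneg s
    gcongr
  have hnear := est_all (A := G₁) (B := G₂) (L := L) hL0 (Y₁ := C2 * 2 * (C3 * 2 * L))
    (Y₂ := C2 * 2 * (C3 * 2 * L)) (by positivity) (by positivity) mm_nonneg mm_nonneg
    (y G₁ hG1sub c1) (y G₂ hG2sub c2)
  rw [mul_assoc L, Real.mul_self_sqrt (by positivity)] at hnear
  -- combination
  have hsplit : |RR (fl ψ) (ZZ q) (Zf riemannZeta q (2 * q)) L| ≤
      ∑ s ∈ ZZ q, ∑ s' ∈ Zf riemannZeta q (2 * q), mm s * mm s' *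
        (if R ≤ |(s.im - s'.im) * L / (2 * Real.pi)| then
      |fl ψ ((s.im - s'.im) * L / (2 * Real.pi))| else 0) +
      b * ∑ s ∈ G₁, ∑ s' ∈ G₂, mm s * mm s' *
        (1 / (1 + ((s.im - s'.im) * L / (2 * Real.pi)) ^ 2)) := by
    unfold RR
    calc |∑ s ∈ ZZ q, ∑ s' ∈ Zf riemannZeta q (2 * q), mm s * mm s' *
          fl ψ ((s.im - s'.im) * L / (2 * Real.pi))| ≤
        ∑ s ∈ ZZ q, ∑ s' ∈ Zf riemannZeta q (2 * q), |mm s * mm s' *
          fl ψ ((s.im - s'.im) * L / (2 * Real.pi))| :=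
        (Finset.abs_sum_le_sum_abs _ _).trans (Finset.sum_le_sum fun s _ =>
          Finset.abs_sum_le_sum_abs _ _)
      _ ≤ ∑ s ∈ ZZ q, ∑ s' ∈ Zf riemannZeta q (2 * q), (mm s * mm s' *
          (if R ≤ |(s.im - s'.im) * L / (2 * Real.pi)| then
          |fl ψ ((s.im - s'.im) * L / (2 * Real.pi))| else 0) +
          (if s ∈ G₁ then (if s' ∈ G₂ then b * (mm s * mm s' *
          (1 / (1 + ((s.im - s'.im) * L / (2 * Real.pi)) ^ 2))) else 0) else 0)) := by
        refine Finset.sum_le_sum fun s hs => Finset.sum_le_sum fun s' hs' => ?_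
        have h3 : 0 ≤ mm s * mm s' := mul_nonneg (mm_nonneg s) (mm_nonneg s')
        rw [abs_mul, abs_of_nonneg h3]
        by_cases hh : R ≤ |(s.im - s'.im) * L / (2 * Real.pi)|
        · rw [if_pos hh]
          have : 0 ≤ (if s ∈ G₁ then (if s' ∈ G₂ then b * (mm s * mm s' *
            (1 / (1 + ((s.im - s'.im) * L / (2 * Real.pi)) ^ 2))) else 0) else 0) := by
            split_ifs
            · positivity
            · exact le_rfl
            · exact le_rfl
          linarith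
        · rw [if_neg hh, mul_zero, zero_add]
          push Not at hh
          rw [abs_div, abs_mul, abs_of_pos hL0, abs_of_pos (show 0 < 2 * Real.pi by positivity),
            div_lt_iff₀ (by positivity)] at hh
          have hd : |s.im - s'.im| < 1 := by
            by_contra hcon
            push Not at hcon
            nlinarith
          rw [mem_ZZ] at hs
          rw [mem_Zf good_zeta (by linarith)] at hs'
          have hd' := abs_lt.1 hd
          have m1 : s ∈ G₁ := by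
            rw [hG₁, mem_Zf good_zeta (by linarith)]
            exact ⟨hs.2.1, hs.2.2.1, by linarith [hs'.2.2.1], hs.2.2.2.2, hs.1⟩
          have m2 : s' ∈ G₂ := by
            rw [hG₂, mem_Zf good_zeta (by linarith)]
            exact ⟨hs'.1, hs'.2.1, hs'.2.2.1, by linarith [hs.2.2.2.2], hs'.2.2.2.2⟩
          rw [if_pos m1, if_pos m2]
          calc mm s * mm s' * |fl ψ ((s.im - s'.im) * L / (2 * Real.pi))| ≤
                mm s * mm s' * (b / (1 + ((s.im - s'.im) * L / (2 * Real.pi)) ^ 2)) :=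
                mul_le_mul_of_nonneg_left (hb _) h3
            _ = _ := by ring
      _ = ∑ s ∈ ZZ q, ∑ s' ∈ Zf riemannZeta q (2 * q), mm s * mm s' *
          (if R ≤ |(s.im - s'.im) * L / (2 * Real.pi)| then
          |fl ψ ((s.im - s'.im) * L / (2 * Real.pi))| else 0) +
          ∑ s ∈ ZZ q, ∑ s' ∈ Zf riemannZeta q (2 * q),
          (if s ∈ G₁ then (if s' ∈ G₂ then b * (mm s * mm s' *
          (1 / (1 + ((s.im - s'.im) * L / (2 * Real.pi)) ^ 2))) else 0) else 0) := by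
        rw [← Finset.sum_add_distrib]
        exact Finset.sum_congr rfl fun s _ => Finset.sum_add_distrib
      _ ≤ _ := by
        gcongr
        rw [Finset.mul_sum]
        calc ∑ s ∈ ZZ q, ∑ s' ∈ Zf riemannZeta q (2 * q),
          (if s ∈ G₁ then (if s' ∈ G₂ then b * (mm s * mm s' *
          (1 / (1 + ((s.im - s'.im) * L / (2 * Real.pi)) ^ 2))) else 0) else 0) =
          ∑ s ∈ ZZ q, (if s ∈ G₁ then ∑ s' ∈ Zf riemannZeta q (2 * q),
            (if s' ∈ G₂ then b * (mm s * mm s' *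
          (1 / (1 + ((s.im - s'.im) * L / (2 * Real.pi)) ^ 2))) else 0) else 0) := by
              refine Finset.sum_congr rfl fun s _ => ?_
              split_ifs
              · rfl
              · simp
          _ = ∑ s ∈ (ZZ q).filter (fun s => s ∈ G₁), ∑ s' ∈ (Zf riemannZeta q (2 * q)).filter
              (fun s' => s' ∈ G₂), b * (mm s * mm s' *
          (1 / (1 + ((s.im - s'.im) * L / (2 * Real.pi)) ^ 2))) := by
            rw [Finset.sum_filter]
            refine Finset.sum_congr rfl fun s _ => ?_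
            rw [Finset.sum_filter]
          _ ≤ ∑ s ∈ G₁, ∑ s' ∈ G₂, b * (mm s * mm s' *
          (1 / (1 + ((s.im - s'.im) * L / (2 * Real.pi)) ^ 2))) := by
            have hnn : ∀ s s' : ℂ, 0 ≤ b * (mm s * mm s' *
              (1 / (1 + ((s.im - s'.im) * L / (2 * Real.pi)) ^ 2))) := by
              intro s s'
              have := mm_nonneg s
              have := mm_nonneg s'
              positivity
            refine (Finset.sum_le_sum fun s _ => Finset.sum_le_sum_of_subset_of_nonneg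
              (t := G₂) ?_ fun s' _ _ => hnn s s').trans
              (Finset.sum_le_sum_of_subset_of_nonneg ?_ fun s _ _ =>
                Finset.sum_nonneg fun s' _ => hnn s s')
            · intro x hx; exact (Finset.mem_filter.1 hx).2
            · intro x hx; exact (Finset.mem_filter.1 hx).2
          _ = _ := by
            refine Finset.sum_congr rfl fun s _ => ?_
            rw [Finset.mul_sum]
  refine hsplit.trans ?_
  have hn2 : b * ∑ s ∈ G₁, ∑ s' ∈ G₂, mm s * mm s' *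
      (1 / (1 + ((s.im - s'.im) * L / (2 * Real.pi)) ^ 2)) ≤ D * L ^ 2 := by
    refine (mul_le_mul_of_nonneg_left hnear hb0).trans ?_
    have : 0 ≤ b * W0 * (C2 * 2 * (C3 * 2)) * L ^ 2 := by positivity
    rw [hD]
    calc b * (W0 * (L * (C2 * 2 * (C3 * 2 * L)))) = b * W0 * (C2 * 2 * (C3 * 2)) * L ^ 2 := by ring
      _ ≤ _ := by nlinarith
  have hlq' : D * L ^ 2 ≤ ε / 2 * (q * L) := by
    rw [pow_one, div_le_div_iff₀ hqp (by positivity)] at hlq
    have : L * D ≤ L * (D + 1) := by nlinarith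
    have h5 : D * L ≤ ε / 2 * q := by nlinarith
    calc D * L ^ 2 = (D * L) * L := by ring
      _ ≤ (ε / 2 * q) * L := by gcongr
      _ = _ := by ring
  calc _ ≤ b * WT R * (L * (M * q)) + D * L ^ 2 := add_le_add hfar hn2
    _ = (b * WT R * M) * (q * L) + D * L ^ 2 := by ring
    _ ≤ ε / 2 * (q * L) + ε / 2 * (q * L) := by gcongr
    _ = _ := by ring

lemma iter {d : ℝ → ℝ} {M E : ℝ} (hM : ∀ᶠ T in atTop, d T ≤ M)
    (h : ∀ ε : ℝ, 0 < ε → ∀ᶠ T in atTop, d T ≤ 1 / 2 * d (1 / 2 * T) + 1 / 2 * E + ε) :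
    ∀ ε : ℝ, 0 < ε → ∀ᶠ T in atTop, d T ≤ E + ε := by
  intro ε hε
  obtain ⟨K, hK⟩ : ∃ K : ℝ, K = |M - E| := ⟨_, rfl⟩
  have hK0 : 0 ≤ K := by rw [hK]; exact abs_nonneg _
  have key : ∀ n : ℕ, ∀ᶠ T in atTop, d T ≤ (1 / 2) ^ n * K + E + ε / 2 := by
    intro n
    induction n with
    | zero =>
      filter_upwards [hM] with T hT
      have := le_abs_self (M - E)
      rw [← hK] at this
      rw [pow_zero]
      linarith
    | succ n ih =>
      have h1 : Tendsto (fun T : ℝ => 1 / 2 * T) atTop atTop :=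
        tendsto_id.const_mul_atTop (by norm_num)
      filter_upwards [h (ε / 4) (by positivity), h1.eventually ih] with T h2 h3
      rw [pow_succ]
      linarith
  obtain ⟨n, hn⟩ := exists_pow_lt_of_lt_one (show 0 < ε / (2 * (K + 1)) by positivity)
    (show (1 / 2 : ℝ) < 1 by norm_num)
  filter_upwards [key n] with T hT
  have h1 : (1 / 2 : ℝ) ^ n * K ≤ ε / 2 := by
    have h2 : (1 / 2 : ℝ) ^ n * K ≤ ε / (2 * (K + 1)) * K := by gcongr
    have h3 : ε / (2 * (K + 1)) * K ≤ ε / 2 := by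
      rw [div_mul_eq_mul_div, div_le_div_iff₀ (by positivity) (by norm_num)]
      nlinarith
    linarith
  linarith

theorem recur {ψ : ℝ → ℝ} {κ : ℝ} (h : Adm κ ψ) {c E : ℝ} (hE : 0 ≤ E)
    (hb : ∀ ε : ℝ, 0 < ε → ∀ᶠ q : ℝ in atTop,
      |RR (fl ψ) (Zf riemannZeta q (2 * q)) (Zf riemannZeta q (2 * q)) (Real.log q) -
        q * (Real.log q / (2 * Real.pi)) * c| ≤ (E + ε) * (q * Real.log q)) :
    ∀ ε : ℝ, 0 < ε → ∀ᶠ T : ℝ in atTop,
      |RR (fl ψ) (ZZ T) (ZZ T) (Real.log T) - T * Real.log T / (2 * Real.pi) * c| ≤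
        (E + ε) * (T * Real.log T) := by
  classical
  obtain ⟨d, hd⟩ : ∃ d : ℝ → ℝ, ∀ T, d T = |RR (fl ψ) (ZZ T) (ZZ T) (Real.log T) -
      T * Real.log T / (2 * Real.pi) * c| / (T * Real.log T) := ⟨_, fun T => rfl⟩
  obtain ⟨b, hbd⟩ := fl_bound h
  have hb0 : 0 ≤ b := by
    have := (abs_nonneg _).trans (hbd 0)
    simpa using this
  obtain ⟨C, T0, hC, hT0, hsm⟩ := sm_all
  have hpi := Real.pi_pos
  have hM : ∀ᶠ T in atTop, d T ≤ b * W0 * C + |c| / (2 * Real.pi) := by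
    filter_upwards [eventually_ge_atTop T0] with T hT
    have hT10 : 10 ≤ T := hT0.trans hT
    have hL := one_lt_log (show 3 ≤ T by linarith)
    have hTp : 0 < T := by linarith
    have hLp : 0 < Real.log T := by linarith
    rw [hd, div_le_iff₀ (by positivity)]
    have h1 := RR_le (A := ZZ T) (B := ZZ T) hLp (Y₁ := C * T) (Y₂ := C * T) (by positivity)
      (by positivity) (hsm T hT) (hsm T hT) hb0 hbd
    rw [mul_assoc (Real.log T), Real.mul_self_sqrt (by positivity)] at h1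
    refine (abs_sub _ _).trans ?_
    have h2 : |T * Real.log T / (2 * Real.pi) * c| = T * Real.log T * (|c| / (2 * Real.pi)) := by
      rw [abs_mul, abs_of_pos (show 0 < T * Real.log T / (2 * Real.pi) by positivity)]
      ring
    rw [h2]
    linarith
  have hstep : ∀ ε : ℝ, 0 < ε → ∀ᶠ T in atTop, d T ≤ 1 / 2 * d (1 / 2 * T) + 1 / 2 * E + ε := by
    intro ε hε
    obtain ⟨e, he⟩ : ∃ e : ℝ, e = ε / 5 := ⟨_, rfl⟩
    have he0 : 0 < e := by rw [he]; positivity
    have h89 : Tendsto (fun T : ℝ => 1 / 2 * T) atTop atTop :=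
      tendsto_id.const_mul_atTop (by norm_num)
    filter_upwards [dil h he0, h89.eventually (cross h he0), h89.eventually (hb e he0),
      eventually_ge_atTop 40, Real.tendsto_log_atTop.eventually_ge_atTop (|c| / e + 1)]
      with T h1 h2 h3 hT hLc
    obtain ⟨q, hq⟩ : ∃ q : ℝ, q = 1 / 2 * T := ⟨_, rfl⟩
    have hTq : T = 2 * q := by rw [hq]; ring
    have hq17 : 17 ≤ q := by rw [hq]; linarith
    have hqp : 0 < q := by linarith
    have hTp : 0 < T := by linarith
    rw [← hq] at h1 h2 h3 ⊢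
    obtain ⟨L, hL⟩ : ∃ L : ℝ, L = Real.log T := ⟨_, rfl⟩
    obtain ⟨L', hL'⟩ : ∃ L' : ℝ, L' = Real.log q := ⟨_, rfl⟩
    obtain ⟨l, hl⟩ : ∃ l : ℝ, l = Real.log 2 := ⟨_, rfl⟩
    have hl0 : 0 < l := by rw [hl]; exact log98.1
    have hl1 : l ≤ 1 := by rw [hl]; exact log98.2
    have hLL : L' = L - l := by
      rw [hL', hL, hl, hq]; exact log_ratio hTp
    have hL'1 : 1 < L' := by rw [hL']; exact one_lt_log (by linarith)
    have hL1 : 1 < L := by linarith
    rw [hd, hd, ← hL, ← hL']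
    rw [← hL, ← hL'] at h1
    rw [← hL'] at h2 h3
    rw [← hL] at hLc
    -- decomposition
    have hdec : RR (fl ψ) (ZZ T) (ZZ T) L' = RR (fl ψ) (ZZ q) (ZZ q) L' +
        2 * RR (fl ψ) (ZZ q) (Zf riemannZeta q (2 * q)) L' +
        RR (fl ψ) (Zf riemannZeta q (2 * q)) (Zf riemannZeta q (2 * q)) L' := by
      rw [ZZ_split (q := q) (T := T) (by linarith) (by linarith), ← hTq]
      exact RR_union (ZZ_disj (by linarith)) fun x => fl_even x
    obtain ⟨R1, hR1⟩ : ∃ R1 : ℝ, R1 = RR (fl ψ) (ZZ T) (ZZ T) L := ⟨_, rfl⟩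
    obtain ⟨R2, hR2⟩ : ∃ R2 : ℝ, R2 = RR (fl ψ) (ZZ T) (ZZ T) L' := ⟨_, rfl⟩
    obtain ⟨R3, hR3⟩ : ∃ R3 : ℝ, R3 = RR (fl ψ) (ZZ q) (ZZ q) L' := ⟨_, rfl⟩
    obtain ⟨R4, hR4⟩ : ∃ R4 : ℝ, R4 = RR (fl ψ) (ZZ q) (Zf riemannZeta q (2 * q)) L' :=
      ⟨_, rfl⟩
    obtain ⟨R5, hR5⟩ : ∃ R5 : ℝ, R5 = RR (fl ψ) (Zf riemannZeta q (2 * q))
      (Zf riemannZeta q (2 * q)) L' := ⟨_, rfl⟩
    rw [← hR1, ← hR2] at h1
    rw [← hR4] at h2
    rw [← hR5] at h3
    rw [← hR2, ← hR3, ← hR4, ← hR5] at hdec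
    rw [← hR1, ← hR3]
    have hX : 0 < T * L := by positivity
    have hY : 0 < q * L' := by positivity
    have hYX : q * L' ≤ 1 / 2 * (T * L) := by
      rw [hTq]
      nlinarith
    obtain ⟨D, hD⟩ : ∃ D : ℝ, D = |R3 - q * L' / (2 * Real.pi) * c| := ⟨_, rfl⟩
    rw [← hD]
    have hD0 : 0 ≤ D := by rw [hD]; exact abs_nonneg _
    have hmain : |R1 - T * L / (2 * Real.pi) * c| ≤ e * (T * L) + D + 2 * (e * (q * L')) +
        (E + e) * (q * L') + e * (T * L) := by
      have e1 : R1 - T * L / (2 * Real.pi) * c = (R1 - R2) + (R3 - q * L' / (2 * Real.pi) * c) +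
          2 * R4 + (R5 - q * (L' / (2 * Real.pi)) * c) - T * l / (2 * Real.pi) * c := by
        rw [hdec, hLL, hTq]; ring
      have e2 : |T * l / (2 * Real.pi) * c| ≤ e * (T * L) := by
        rw [abs_mul, abs_of_pos (show 0 < T * l / (2 * Real.pi) by positivity)]
        have h5 : |c| / e ≤ L := by linarith
        rw [div_le_iff₀ he0] at h5
        have h6 : T * l / (2 * Real.pi) ≤ T := by
          rw [div_le_iff₀ (by positivity)]
          have := Real.pi_gt_three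
          nlinarith
        calc T * l / (2 * Real.pi) * |c| ≤ T * |c| := by gcongr
          _ ≤ T * (L * e) := by gcongr
          _ = _ := by ring
      rw [e1]
      have t1 := abs_add_le ((R1 - R2) + (R3 - q * L' / (2 * Real.pi) * c) +
          2 * R4 + (R5 - q * (L' / (2 * Real.pi)) * c)) (-(T * l / (2 * Real.pi) * c))
      have t2 := abs_add_le ((R1 - R2) + (R3 - q * L' / (2 * Real.pi) * c) +
          2 * R4) (R5 - q * (L' / (2 * Real.pi)) * c)
      have t3 := abs_add_le ((R1 - R2) + (R3 - q * L' / (2 * Real.pi) * c)) (2 * R4)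
      have t4 := abs_add_le (R1 - R2) (R3 - q * L' / (2 * Real.pi) * c)
      rw [abs_neg, ← sub_eq_add_neg] at t1
      have t5 : |2 * R4| = 2 * |R4| := by rw [abs_mul, abs_of_pos (by norm_num : (0:ℝ) < 2)]
      rw [t5] at t3
      rw [← hD] at t4
      linarith
    rw [div_le_iff₀ hX]
    have hD2 : D ≤ 1 / 2 * (D / (q * L')) * (T * L) := by
      have : D = D / (q * L') * (q * L') := by field_simp
      calc D = D / (q * L') * (q * L') := this
        _ ≤ D / (q * L') * (1 / 2 * (T * L)) := by gcongr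
        _ = _ := by ring
    have hE2 : (E + e) * (q * L') ≤ (E + e) * (1 / 2 * (T * L)) := by gcongr
    have he2 : e * (q * L') ≤ e * (1 / 2 * (T * L)) := by gcongr
    have hεe : ε = 5 * e := by rw [he]; ring
    rw [hεe]
    have heX : 0 < e * (T * L) := by positivity
    calc |R1 - T * L / (2 * Real.pi) * c| ≤ _ := hmain
      _ ≤ e * (T * L) + 1 / 2 * (D / (q * L')) * (T * L) + 2 * (e * (1 / 2 * (T * L))) +
          (E + e) * (1 / 2 * (T * L)) + e * (T * L) := by linarith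
      _ ≤ _ := by
        have : (1 / 2 * (D / (q * L')) + 1 / 2 * E + 5 * e) * (T * L) =
          1 / 2 * (D / (q * L')) * (T * L) + 1 / 2 * (E * (T * L)) + 5 * (e * (T * L)) := by ring
        rw [this]
        have : (E + e) * (1 / 2 * (T * L)) = 1 / 2 * (E * (T * L)) + 1 / 2 * (e * (T * L)) := by ring
        rw [this]
        linarith
  intro ε hε
  filter_upwards [iter hM hstep ε hε, eventually_ge_atTop 10] with T hT hT10
  have hL := one_lt_log (show 3 ≤ T by linarith)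
  rw [hd, div_le_iff₀ (by positivity)] at hT
  exact hT

end Pool.Agent.Y748.DP
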