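import Mathlib

/-! # From windows to test functions -/

set_option autoImplicit false

open MeasureTheory Set Filter Topology

namespace Pool.Agent.Y748.DP

/-- one cell -/
lemma cell {f g : ℝ → ℝ} (hf : Continuous f) (f0 : ∀ x, 0 ≤ f x) {K F : ℝ} (hK0 : 0 ≤ K)
    (hK : ∀ x y, |f x - f y| ≤ K * |x - y|) (hF : ∀ x, f x ≤ F) (g0 : ∀ x, 0 ≤ g x)
    (g1 : ∀ x, g x ≤ 1) (gi : ∀ a b : ℝ, IntervalIntegrable g volume a b) {x h θ : ℝ} (hh : 0 < h)
    (hθ : 0 < θ) (hθ1 : θ < 1) :
    ∫ u in x..(x + h), f u * g u ≤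
      max 0 (f x - K * h) * (∫ u in x..(x + (1 - θ) * h), g u) + 2 * K * h * h + F * (θ * h) := by
  have hF0 : 0 ≤ F := (f0 0).trans (hF 0)
  have ifg : ∀ a b : ℝ, IntervalIntegrable (fun u => f u * g u) volume a b := fun a b =>
    (gi a b).continuousOn_mul hf.continuousOn
  have hle : x ≤ x + (1 - θ) * h := by nlinarith
  have hle2 : x + (1 - θ) * h ≤ x + h := by nlinarith
  rw [← intervalIntegral.integral_add_adjacent_intervals (ifg x (x + (1 - θ) * h))
    (ifg (x + (1 - θ) * h) (x + h))]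
  have h1 : ∫ u in x..(x + (1 - θ) * h), f u * g u ≤
      ∫ u in x..(x + (1 - θ) * h), ((max 0 (f x - K * h)) * g u + 2 * K * h) := by
    refine intervalIntegral.integral_mono_on hle (ifg _ _)
      (((gi _ _).const_mul _).add (by simp)) fun u hu => ?_
    have h2 := hK u x
    have h3 : |u - x| ≤ h := by
      rw [abs_of_nonneg (by linarith [hu.1])]; linarith [hu.2]
    have h4 : f u ≤ f x + K * h := by
      have := le_abs_self (f u - f x)
      have : K * |u - x| ≤ K * h := by gcongr
      linarith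
    have h5 : f u ≤ max 0 (f x - K * h) + 2 * K * h := by
      have := le_max_right 0 (f x - K * h)
      linarith
    have h6 := g0 u
    have h7 := g1 u
    have h8 : 0 ≤ 2 * K * h := by positivity
    calc f u * g u ≤ (max 0 (f x - K * h) + 2 * K * h) * g u := by gcongr
      _ = max 0 (f x - K * h) * g u + 2 * K * h * g u := by ring
      _ ≤ max 0 (f x - K * h) * g u + 2 * K * h * 1 := by gcongr
      _ = _ := by ring
  rw [intervalIntegral.integral_add ((gi _ _).const_mul _) (by simp),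
    intervalIntegral.integral_const_mul, intervalIntegral.integral_const, smul_eq_mul] at h1
  have h2 : ∫ u in (x + (1 - θ) * h)..(x + h), f u * g u ≤
      ∫ u in (x + (1 - θ) * h)..(x + h), F := by
    refine intervalIntegral.integral_mono_on hle2 (ifg _ _) (by simp) fun u _ => ?_
    have h6 := g0 u
    have h7 := g1 u
    calc f u * g u ≤ F * 1 := mul_le_mul (hF u) h7 h6 hF0
      _ = F := mul_one _
  rw [intervalIntegral.integral_const, smul_eq_mul] at h2
  have h3 : (x + (1 - θ) * h - x) * (2 * K * h) ≤ 2 * K * h * h := by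
    have : 0 ≤ 2 * K * h := by positivity
    have : (x + (1 - θ) * h - x) ≤ h := by linarith
    nlinarith
  have h4 : (x + h - (x + (1 - θ) * h)) * F = F * (θ * h) := by ring
  rw [h4] at h2
  linarith

lemma cells {M : Measure ℝ} [IsFiniteMeasure M] {f : ℝ → ℝ} (hf : Continuous f)
    (f0 : ∀ x, 0 ≤ f x) {K F : ℝ} (hK : ∀ x y, |f x - f y| ≤ K * |x - y|) (hK0 : 0 ≤ K)
    (hF : ∀ x, f x ≤ F) {a h θ : ℝ} (hh : 0 < h) (hθ : 0 < θ) (hθ1 : θ < 1) (m : ℕ) :
    ∑ k ∈ Finset.range m, max 0 (f (a + k * h) - K * h) *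
      M.real (Icc (a + k * h) (a + k * h + (1 - θ) * h)) ≤ ∫ x in Icc a (a + m * h), f x ∂M := by
  have fi : Integrable f M := by
    refine Integrable.of_bound hf.aestronglyMeasurable F (ae_of_all _ fun x => ?_)
    rw [Real.norm_eq_abs, abs_of_nonneg (f0 x)]
    exact hF x
  have h1 : ∀ k ∈ Finset.range m, max 0 (f (a + k * h) - K * h) *
      M.real (Icc (a + k * h) (a + k * h + (1 - θ) * h)) ≤
      ∫ x in Icc (a + k * h) (a + k * h + (1 - θ) * h), f x ∂M := by
    intro k _
    have e : max 0 (f (a + k * h) - K * h) * M.real (Icc (a + k * h) (a + k * h + (1 - θ) * h)) =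
        ∫ x in Icc (a + k * h) (a + k * h + (1 - θ) * h), max 0 (f (a + k * h) - K * h) ∂M := by
      rw [setIntegral_const, smul_eq_mul, mul_comm]
    rw [e]
    refine setIntegral_mono_on (integrableOn_const (measure_ne_top _ _)) fi.integrableOn
      measurableSet_Icc fun x hx => ?_
    apply max_le (f0 x)
    have h2 := hK (a + k * h) x
    have h3 : |a + k * h - x| ≤ h := by
      rw [abs_sub_comm, abs_of_nonneg (by linarith [hx.1])]
      have := hx.2
      nlinarith
    have h4 := le_abs_self (f (a + k * h) - f x)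
    have : K * |a + k * h - x| ≤ K * h := by gcongr
    linarith
  refine (Finset.sum_le_sum h1).trans ?_
  have hd : Set.Pairwise (↑(Finset.range m)) (Function.onFun Disjoint
      fun k : ℕ => Icc (a + k * h) (a + k * h + (1 - θ) * h)) := by
    intro i _ j _ hij
    have key : ∀ i j : ℕ, i < j → Disjoint (Icc (a + i * h) (a + i * h + (1 - θ) * h))
        (Icc (a + j * h) (a + j * h + (1 - θ) * h)) := by
      intro i j hij
      rw [Set.disjoint_left]
      intro x hx hx2
      have h2 := hx.2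
      have h3 := hx2.1
      have h4 : (i : ℝ) + 1 ≤ j := by exact_mod_cast hij
      have h5 : ((i : ℝ) + 1) * h ≤ j * h := by gcongr
      nlinarith
    rcases lt_or_gt_of_ne hij with h | h
    · exact key i j h
    · exact (key j i h).symm
  rw [← integral_biUnion_finset (Finset.range m) (fun k _ => measurableSet_Icc) hd
    (fun k _ => fi.integrableOn)]
  refine setIntegral_mono_set fi.integrableOn (ae_of_all _ fun x => f0 x)
    (Eventually.of_forall fun x hx => ?_)
  obtain ⟨k, hk, hx⟩ := mem_iUnion₂.1 hx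
  have hk' : (k : ℝ) + 1 ≤ m := by exact_mod_cast Finset.mem_range.1 hk
  have h5 : ((k : ℝ) + 1) * h ≤ m * h := by gcongr
  have h6 : (0 : ℝ) ≤ k * h := by positivity
  constructor
  · linarith [hx.1]
  · have := hx.2
    nlinarith

/-- lower bound for the integral of a test function from the asymptotics in the windows -/
theorem win_low {ι : Type} {l : Filter ι} {M : ι → Measure ℝ} {g : ι → ℝ → ℝ}
    (hfin : ∀ j, IsFiniteMeasure (M j)) (g0 : ∀ j x, 0 ≤ g j x) (g1 : ∀ j x, g j x ≤ 1)
    (gi : ∀ j (a b : ℝ), IntervalIntegrable (g j) volume a b)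
    (hw : ∀ α β : ℝ, 0 < α → α < β →
      Tendsto (fun j => (M j).real (Icc α β) - ∫ u in α..β, g j u) l (𝓝 0))
    {f : ℝ → ℝ} (hf : Continuous f) (f0 : ∀ x, 0 ≤ f x) {K F : ℝ} (hK0 : 0 ≤ K)
    (hK : ∀ x y, |f x - f y| ≤ K * |x - y|) (hF : ∀ x, f x ≤ F) {a b : ℝ} (ha : 0 < a)
    (hab : a < b) {ε : ℝ} (hε : 0 < ε) :
    ∀ᶠ j in l, ∫ u in a..b, f u * g j u ≤ (∫ x in Icc a b, f x ∂(M j)) + ε := by
  have hF0 : 0 ≤ F := (f0 0).trans (hF 0)
  have hba : 0 < b - a := by linarith
  obtain ⟨m, hm⟩ := exists_nat_gt (6 * K * (b - a) ^ 2 / ε + 1)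
  have hm1 : (1 : ℝ) < m := by
    have : 0 ≤ 6 * K * (b - a) ^ 2 / ε := by positivity
    linarith
  have hm0 : (0 : ℝ) < m := by linarith
  obtain ⟨h, hh⟩ : ∃ h : ℝ, h = (b - a) / m := ⟨_, rfl⟩
  have hh0 : 0 < h := by rw [hh]; positivity
  have hmh : m * h = b - a := by rw [hh]; field_simp
  obtain ⟨θ, hθ⟩ : ∃ θ : ℝ, θ = min (1 / 2) (ε / (3 * (F * (b - a) + 1))) := ⟨_, rfl⟩
  have hFb : 0 ≤ F * (b - a) := by positivity
  have hθ0 : 0 < θ := by rw [hθ]; positivity
  have hθ1 : θ < 1 := by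
    rw [hθ]; exact (min_le_left _ _).trans_lt (by norm_num)
  have hθ2 : F * (θ * (b - a)) ≤ ε / 3 := by
    have h1 : θ ≤ ε / (3 * (F * (b - a) + 1)) := by rw [hθ]; exact min_le_right _ _
    rw [le_div_iff₀ (by positivity)] at h1
    nlinarith
  have hK2 : 2 * K * h * (b - a) ≤ ε / 3 := by
    have h1 : 6 * K * (b - a) ^ 2 / ε ≤ m := by linarith
    rw [div_le_iff₀ hε] at h1
    have h2 : 2 * K * h * (b - a) * m = 2 * K * (b - a) ^ 2 := by
      rw [hh]; field_simp
    have h3 : 2 * K * h * (b - a) * m ≤ ε / 3 * m := by rw [h2]; linarith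
    exact le_of_mul_le_mul_right h3 hm0
  obtain ⟨ε', hε'⟩ : ∃ ε' : ℝ, ε' = ε / (3 * (m * F + 1)) := ⟨_, rfl⟩
  have hε'0 : 0 < ε' := by rw [hε']; positivity
  have hε'1 : m * (F * ε') ≤ ε / 3 := by
    have : ε' * (3 * (m * F + 1)) = ε := by rw [hε']; field_simp
    nlinarith
  have hev : ∀ᶠ j in l, ∀ k ∈ Finset.range m, |(M j).real (Icc (a + k * h)
      (a + k * h + (1 - θ) * h)) - ∫ u in (a + k * h)..(a + k * h + (1 - θ) * h), g j u| < ε' := by
    rw [Filter.eventually_all_finset]
    intro k _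
    have h1 := hw (a + k * h) (a + k * h + (1 - θ) * h) (by positivity) (by nlinarith)
    have h2 := (Metric.tendsto_nhds.1 h1) ε' hε'0
    filter_upwards [h2] with j hj
    rwa [Real.dist_eq, sub_zero] at hj
  filter_upwards [hev] with j hj
  have := hfin j
  have hcells := cells (M := M j) hf f0 hK hK0 hF (a := a) hh0 hθ0 hθ1 m
  rw [hmh, add_sub_cancel] at hcells
  have hsum : ∫ u in a..b, f u * g j u = ∑ k ∈ Finset.range m,
      ∫ u in (a + k * h)..(a + (k + 1 : ℕ) * h), f u * g j u := by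
    have h1 := intervalIntegral.sum_integral_adjacent_intervals
      (f := fun u => f u * g j u) (μ := volume) (a := fun k : ℕ => a + k * h) (n := m)
      (fun k _ => (gi j _ _).continuousOn_mul hf.continuousOn)
    rw [h1]
    congr 1
    · simp
    · rw [hmh]; ring
  rw [hsum]
  have hstep : ∀ k ∈ Finset.range m, ∫ u in (a + k * h)..(a + (k + 1 : ℕ) * h), f u * g j u ≤
      max 0 (f (a + k * h) - K * h) * (M j).real (Icc (a + k * h) (a + k * h + (1 - θ) * h)) +
      (F * ε' + 2 * K * h * h + F * (θ * h)) := by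
    intro k hk
    have h1 := cell hf f0 hK0 hK hF (g0 j) (g1 j) (gi j) (x := a + k * h) hh0 hθ0 hθ1
    have e : a + ((k + 1 : ℕ) : ℝ) * h = a + k * h + h := by push_cast; ring
    rw [e]
    have h2 := hj k hk
    rw [abs_lt] at h2
    have c0 : 0 ≤ max 0 (f (a + k * h) - K * h) := le_max_left _ _
    have c1 : max 0 (f (a + k * h) - K * h) ≤ F := by
      apply max_le hF0
      have := hF (a + k * h)
      have : 0 ≤ K * h := by positivity
      linarith
    have h3 : max 0 (f (a + k * h) - K * h) *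
        (∫ u in (a + k * h)..(a + k * h + (1 - θ) * h), g j u) ≤
        max 0 (f (a + k * h) - K * h) *
          ((M j).real (Icc (a + k * h) (a + k * h + (1 - θ) * h)) + ε') := by
      apply mul_le_mul_of_nonneg_left _ c0
      linarith
    have h4 : max 0 (f (a + k * h) - K * h) * ε' ≤ F * ε' := by gcongr
    rw [mul_add] at h3
    linarith
  refine (Finset.sum_le_sum hstep).trans ?_
  rw [Finset.sum_add_distrib, Finset.sum_const, Finset.card_range, nsmul_eq_mul]
  have e1 : (m : ℝ) * (F * ε' + 2 * K * h * h + F * (θ * h)) =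
      m * (F * ε') + 2 * K * h * (m * h) + F * (θ * (m * h)) := by ring
  rw [e1, hmh]
  linarith

end Pool.Agent.Y748.DP
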