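import Pool.Agent.Y748.DP.Low
import Pool.Agent.Y748.DP.Diag
import Pool.Agent.Y748.DP.Win

/-! # Only the sine kernel -/

set_option autoImplicit false

open MeasureTheory Set Filter Topology
open scoped NNReal ENNReal

namespace Pool.Agent.Y748.DP

open Pool.Agent.Y749.Rig (fl tr tr_even tr_nonneg tr_cont tr_supp tr_eq tr_int tr_lip adm_tr
  fl_bound fl_int fl_cont fl_even fl_lip int_fl fl_tr inv_four parseval RR ZZ mm mm_nonneg nT
  nT_pos Mp Mp_integral Mp_real Mp_fin NF FF FF_ii one_lt_log nw nw_Mp noff noff_NF fl_tr_nonneg)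

variable {n : ℕ} {φ : Fin n → ℝ → ℝ}

lemma YY_nonneg (φ : Fin n → ℝ → ℝ) (u : ℝ) : 0 ≤ YY φ u :=
  Finset.sum_nonneg fun i _ => by positivity

lemma Fam.YY_le (h : Fam n φ) (u : ℝ) : YY φ u ≤ 1 := by
  rw [h.YY_eq]
  refine le_trans ?_ h.BB_tot_le
  unfold fl
  refine integral_mono ?_ h.BB_int fun α => ?_
  · refine h.BB_int.mul_bdd (c := 1) (by fun_prop) (ae_of_all _ fun ξ => ?_)
    rw [Real.norm_eq_abs]; exact Real.abs_cos_le_one _
  · exact mul_le_of_le_one_right (h.BB_nonneg α) (Real.cos_le_one _)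

lemma Fam.YY_cont (h : Fam n φ) : Continuous (YY φ) := by
  have e : YY φ = fl (BB φ) := funext fun u => h.YY_eq u
  rw [e]
  exact fl_cont h.BB_int

lemma Fam.YY_even (h : Fam n φ) (u : ℝ) : YY φ (-u) = YY φ u := by
  rw [h.YY_eq, h.YY_eq, fl_even]

lemma Fam.int_f (h : Fam n φ) {κ : ℝ} (hκ : 0 < κ) :
    Integrable fun u => fl (tr κ) u * (1 - YY φ u) := by
  refine (fl_int (adm_tr hκ)).mul_bdd (c := 1) ?_ (ae_of_all _ fun u => ?_)
  · have := h.YY_cont
    exact (continuous_const.sub this).aestronglyMeasurable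
  · have h1 := YY_nonneg φ u
    have h2 := h.YY_le u
    rw [Real.norm_eq_abs, abs_of_nonneg (by linarith)]
    linarith

lemma Fam.pars (h : Fam n φ) {κ : ℝ} (hκ : 0 < κ) :
    ∫ u, fl (tr κ) u * (1 - YY φ u) = 1 / κ - 1 + AA φ κ := by
  have i1 := fl_int (adm_tr hκ)
  have i2 : Integrable fun u => fl (BB φ) u * fl (tr κ) u := by
    refine (i1.sub (h.int_f hκ)).congr (ae_of_all _ fun u => ?_)
    simp only [Pi.sub_apply]
    rw [h.YY_eq]; ring
  have h1 : ∫ u, fl (tr κ) u * (1 - YY φ u) =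
      ∫ u, (fl (tr κ) u - fl (BB φ) u * fl (tr κ) u) := by
    refine integral_congr_ae (ae_of_all _ fun u => ?_)
    simp only
    rw [h.YY_eq]; ring
  have h2 : ∫ u, fl (BB φ) u * fl (tr κ) u = ∫ α, BB φ α * tr κ α := by
    rw [parseval h.BB_int i1 (BB_neg φ) fun x => fl_even x]
    refine integral_congr_ae (ae_of_all _ fun α => ?_)
    simp only
    rw [inv_four (adm_tr hκ)]
  have i3 : Integrable fun α => BB φ α * tr κ α := by
    refine ((tr_int hκ).sub (h.int_tr hκ)).congr (ae_of_all _ fun α => ?_)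
    simp only [Pi.sub_apply]
    ring
  have h3 : AA φ κ = 1 - ∫ α, BB φ α * tr κ α := by
    unfold AA
    have h4 : ∫ α, tr κ α * (1 - BB φ α) = ∫ α, (tr κ α - BB φ α * tr κ α) := by
      refine integral_congr_ae (ae_of_all _ fun α => ?_)
      simp only
      ring
    rw [h4, integral_sub (tr_int hκ) i3, tr_one hκ]
  rw [h1, integral_sub i1 i2, int_fl (adm_tr hκ), tr_zero hκ, h2, h3]
  ring

lemma fl_tr_zero {κ : ℝ} (hκ : 0 < κ) : fl (tr κ) 0 = 1 := by
  rw [← tr_one hκ]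
  unfold fl; simp

lemma fl_tr_le {κ : ℝ} (hκ : 0 < κ) (u : ℝ) : fl (tr κ) u ≤ 1 := by
  rw [← tr_one hκ]
  unfold fl
  refine integral_mono ?_ (tr_int hκ) fun α => ?_
  · refine (tr_int hκ).mul_bdd (c := 1) (by fun_prop) (ae_of_all _ fun ξ => ?_)
    rw [Real.norm_eq_abs]; exact Real.abs_cos_le_one _
  · exact mul_le_of_le_one_right (tr_nonneg hκ α) (Real.cos_le_one _)

/-- truncation -/
lemma trunc {f : ℝ → ℝ} (hf : Integrable f) {ε : ℝ} (hε : 0 < ε) :
    ∃ a b : ℝ, 0 < a ∧ a < b ∧ ∫ u in Ioi (0 : ℝ), f u ≤ (∫ u in Ioc a b, f u) + ε := by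
  have hmono : Monotone fun k : ℕ => Ioc (1 / ((k : ℝ) + 1)) ((k : ℝ) + 2) := by
    intro i j hij
    have h1 : (i : ℝ) ≤ j := by exact_mod_cast hij
    apply Ioc_subset_Ioc
    · gcongr
    · linarith
  have hU : (⋃ k : ℕ, Ioc (1 / ((k : ℝ) + 1)) ((k : ℝ) + 2)) = Ioi 0 := by
    ext x
    rw [mem_iUnion, mem_Ioi]
    constructor
    · rintro ⟨k, hk⟩
      have : 0 < 1 / ((k : ℝ) + 1) := by positivity
      linarith [hk.1]
    · intro hx
      obtain ⟨k, hk⟩ := exists_nat_gt (max (1 / x) x)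
      have h1 : 1 / x < k := (le_max_left _ _).trans_lt hk
      have h2 : x < k := (le_max_right _ _).trans_lt hk
      refine ⟨k, ?_, by linarith⟩
      rw [div_lt_iff₀ (by positivity)]
      rw [div_lt_iff₀ hx] at h1
      nlinarith
  have h1 := tendsto_setIntegral_of_monotone (μ := volume) (f := f)
    (fun k : ℕ => measurableSet_Ioc (a := 1 / ((k : ℝ) + 1)) (b := (k : ℝ) + 2)) hmono
    hf.integrableOn
  rw [hU] at h1
  obtain ⟨k, hk⟩ := (h1.eventually (lt_mem_nhds (show (∫ u in Ioi (0 : ℝ), f u) - ε <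
    ∫ u in Ioi (0 : ℝ), f u by linarith))).exists
  refine ⟨1 / ((k : ℝ) + 1), (k : ℝ) + 2, by positivity, ?_, by linarith⟩
  have h3 : 1 / ((k : ℝ) + 1) ≤ 1 := by
    rw [div_le_one (by positivity)]
    have : (0 : ℝ) ≤ k := Nat.cast_nonneg k
    linarith
  have : (0 : ℝ) ≤ k := Nat.cast_nonneg k
  linarith

lemma half_line {f g : ℝ → ℝ} (hf : Integrable f) (f0 : ∀ x, 0 ≤ f x) (fe : ∀ x, f (-x) = f x)
    (gc : Continuous g) (g0 : ∀ x, 0 ≤ g x) (g1 : ∀ x, g x ≤ 1) (ge : ∀ x, g (-x) = g x)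
    {a b ε : ℝ} (ha : 0 < a) (hab : a < b)
    (ht : ∫ u in Ioi (0 : ℝ), f u ≤ (∫ u in Ioc a b, f u) + ε) :
    ∫ u, f u * g u ≤ 2 * (∫ u in a..b, f u * g u) + 2 * ε := by
  have i1 : Integrable fun u => f u * g u := by
    refine hf.mul_bdd (c := 1) gc.aestronglyMeasurable (ae_of_all _ fun u => ?_)
    rw [Real.norm_eq_abs, abs_of_nonneg (g0 u)]
    exact g1 u
  have i2 : Integrable fun u => f u - f u * g u := hf.sub i1
  have h1 : ∫ x, (fun y => f y * g y) |x| = 2 * ∫ x in Ioi (0 : ℝ), f x * g x :=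
    integral_comp_abs (f := fun y => f y * g y)
  have h2 : ∫ x, (fun y => f y * g y) |x| = ∫ x, f x * g x := by
    refine integral_congr_ae (ae_of_all _ fun x => ?_)
    simp only
    rcases le_total 0 x with hx | hx
    · rw [abs_of_nonneg hx]
    · rw [abs_of_nonpos hx, fe, ge]
  rw [← h2, h1, intervalIntegral.integral_of_le hab.le]
  have h3 : ∫ u in Ioc a b, (f u - f u * g u) ≤ ∫ u in Ioi (0 : ℝ), (f u - f u * g u) := by
    refine setIntegral_mono_set i2.integrableOn (ae_of_all _ fun x => ?_)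
      (Eventually.of_forall fun x hx => lt_trans ha hx.1)
    have := g1 x
    have := f0 x
    simp only [Pi.zero_apply]
    nlinarith
  rw [integral_sub hf.integrableOn i1.integrableOn, integral_sub hf.integrableOn i1.integrableOn]
    at h3
  linarith

lemma Mp_symm {T : ℝ} (hT : 10 ≤ T) (f : ℝ → ℝ) : ∫ x, f (-x) ∂(Mp T) = ∫ x, f x ∂(Mp T) := by
  rw [Mp_integral hT, Mp_integral hT]
  congr 1
  unfold Pool.Agent.Y749.Rig.RR
  rw [Finset.sum_comm]
  refine Finset.sum_congr rfl fun s _ => Finset.sum_congr rfl fun s' _ => ?_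
  simp only
  rw [mul_comm (mm s'), show -((s'.im - s.im) * Real.log T / (2 * Real.pi)) =
      (s.im - s'.im) * Real.log T / (2 * Real.pi) by ring]

lemma Mp_low {T : ℝ} (hT : 10 ≤ T) {f : ℝ → ℝ} (hf : Continuous f) (f0 : ∀ x, 0 ≤ f x)
    (fe : ∀ x, f (-x) = f x) {F : ℝ} (hF : ∀ x, f x ≤ F) {a b : ℝ} (ha : 0 < a) :
    f 0 * (Mp T).real {0} + 2 * (∫ x in Icc a b, f x ∂(Mp T)) ≤ ∫ x, f x ∂(Mp T) := by
  have := Mp_fin T
  have fi : ∀ g : ℝ → ℝ, Measurable g → (∀ x, 0 ≤ g x) → (∀ x, g x ≤ F) → Integrable g (Mp T) := by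
    intro g hg g0 gF
    refine Integrable.of_bound hg.aestronglyMeasurable F (ae_of_all _ fun x => ?_)
    rw [Real.norm_eq_abs, abs_of_nonneg (g0 x)]
    exact gF x
  obtain ⟨G, hG⟩ : ∃ G : ℝ → ℝ, G = (Icc a b).indicator f := ⟨_, rfl⟩
  have hF0 : 0 ≤ F := (f0 0).trans (hF 0)
  have hGm : Measurable G := by rw [hG]; exact hf.measurable.indicator measurableSet_Icc
  have hG0 : ∀ x, 0 ≤ G x := fun x => by rw [hG]; exact indicator_nonneg (fun x _ => f0 x) x
  have hGF : ∀ x, G x ≤ F := fun x => by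
    rw [hG]
    by_cases h : x ∈ Icc a b
    · rw [indicator_of_mem h]; exact hF x
    · rw [indicator_of_notMem h]; exact hF0
  have i1 := fi G hGm hG0 hGF
  have i2 := fi (fun x => G (-x)) (hGm.comp measurable_neg) (fun x => hG0 _) (fun x => hGF _)
  have i3 : Integrable (({0} : Set ℝ).indicator fun _ => f 0) (Mp T) :=
    fi _ (measurable_const.indicator (measurableSet_singleton 0))
      (fun x => indicator_nonneg (fun _ _ => f0 0) x) (fun x => by
        by_cases h : x ∈ ({0} : Set ℝ)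
        · rw [indicator_of_mem h]; exact hF 0
        · rw [indicator_of_notMem h]; exact hF0)
  have e1 : ∫ x in Icc a b, f x ∂(Mp T) = ∫ x, G x ∂(Mp T) := by
    rw [hG, integral_indicator measurableSet_Icc]
  have e2 : f 0 * (Mp T).real {0} = ∫ x, ({0} : Set ℝ).indicator (fun _ => f 0) x ∂(Mp T) := by
    rw [integral_indicator (measurableSet_singleton 0), setIntegral_const, smul_eq_mul, mul_comm]
  rw [e1, e2, two_mul]
  nth_rewrite 1 [← Mp_symm hT G]
  have i4 : Integrable (fun x => G (-x) + G x) (Mp T) := i2.add i1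
  rw [← integral_add i2 i1, ← integral_add i3 i4]
  refine integral_mono (i3.add i4) (fi f hf.measurable f0 hF) fun x => ?_
  simp only
  rw [hG]
  rcases lt_trichotomy x 0 with hx | hx | hx
  · have h1 : x ∉ ({0} : Set ℝ) := by simp; exact hx.ne
    have h2 : x ∉ Icc a b := fun h => by linarith [h.1]
    rw [indicator_of_notMem h1, indicator_of_notMem h2, zero_add, add_zero]
    by_cases h : -x ∈ Icc a b
    · rw [indicator_of_mem h, fe]
    · rw [indicator_of_notMem h]; exact f0 x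
  · rw [hx]
    have h2 : (0 : ℝ) ∉ Icc a b := fun h => by linarith [h.1]
    have h3 : -(0 : ℝ) ∉ Icc a b := by rw [neg_zero]; exact h2
    rw [indicator_of_notMem h2, indicator_of_notMem h3, indicator_of_mem (mem_singleton 0)]
    simp
  · have h1 : x ∉ ({0} : Set ℝ) := by simp; exact hx.ne'
    have h2 : -x ∉ Icc a b := fun h => by linarith [h.1]
    rw [indicator_of_notMem h1, indicator_of_notMem h2, zero_add, zero_add]
    by_cases h : x ∈ Icc a b
    · rw [indicator_of_mem h]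
    · rw [indicator_of_notMem h]; exact f0 x

variable {ι : Type} {l : Filter ι}

theorem key {T : ι → ℝ} (hT : Tendsto T l atTop) {n : ι → ℕ} {φ : ∀ j, Fin (n j) → ℝ → ℝ}
    (hφ : ∀ j, Fam (n j) (φ j))
    (hw : ∀ α β : ℝ, 0 < α → α < β → Tendsto (fun j => (Mp (T j)).real (Icc α β) -
      ∫ u in α..β, (1 - YY (φ j) u)) l (𝓝 0)) :
    ∃ C : ℝ, 0 < C ∧ ∀ κ : ℝ, 0 < κ → κ ≤ 1 / 2 → ∀ ε : ℝ, 0 < ε → ∀ᶠ j in l,
      NF (T j) / nT (T j) + AA (φ j) κ ≤ κ / 3 + C * κ ^ 2 + ε := by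
  obtain ⟨C, hC, hlow⟩ := low
  obtain ⟨K0, hdiag⟩ := diag
  refine ⟨C, hC, fun κ hκ hκ2 ε hε => ?_⟩
  obtain ⟨e, he⟩ : ∃ e : ℝ, e = ε / 7 := ⟨_, rfl⟩
  have he0 : 0 < e := by rw [he]; positivity
  have hadm := adm_tr hκ
  obtain ⟨K, hK0, hK⟩ := fl_lip hadm
  have hfc := fl_cont (tr_int hκ)
  have hf0 := fl_tr_nonneg hκ
  obtain ⟨a, b, ha, hab, htr⟩ := trunc (fl_int hadm) he0
  have hwin := win_low (M := fun j => Mp (T j)) (g := fun j u => 1 - YY (φ j) u)
    (fun j => Mp_fin _) (fun j u => by linarith [(hφ j).YY_le u])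
    (fun j u => by linarith [YY_nonneg (φ j) u])
    (fun j a b => (continuous_const.sub (hφ j).YY_cont).intervalIntegrable _ _) hw
    hfc hf0 hK0 hK (fl_tr_le hκ) ha hab he0
  have hnt : Tendsto (fun T => K0 / nT T) atTop (𝓝 0) := by
    refine Tendsto.div_atTop tendsto_const_nhds ?_
    unfold Pool.Agent.Y749.Rig.nT
    refine Tendsto.atTop_div_const (by positivity) ?_
    exact tendsto_id.atTop_mul_atTop₀ Real.tendsto_log_atTop
  filter_upwards [hwin, hT.eventually (hlow κ hκ hκ2 e he0), hT.eventually (tot_low he0),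
    hT.eventually (eventually_ge_atTop 10),
    hT.eventually (hnt.eventually (gt_mem_nhds he0))] with j h1 h2 h3 h4 h5
  have hn := nT_pos h4
  have h6 := hdiag (T j) h4
  have h7 := Mp_low h4 hfc hf0 (fun x => fl_even x) (fl_tr_le hκ) (a := a) (b := b) ha
  rw [fl_tr_zero hκ, one_mul] at h7
  have h8 := half_line (g := fun u => 1 - YY (φ j) u) (fl_int hadm) hf0 (fun x => fl_even x)
    (continuous_const.sub (hφ j).YY_cont) (fun u => by linarith [(hφ j).YY_le u])
    (fun u => by linarith [YY_nonneg (φ j) u]) (fun u => by rw [(hφ j).YY_even]) ha hab htr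
  rw [(hφ j).pars hκ] at h8
  have h9 : (1 - e) + NF (T j) / nT (T j) - e ≤ (Mp (T j)).real {0} := by
    have h10 : ((1 - e) + NF (T j) / nT (T j) - e) * nT (T j) ≤
        nT (T j) * (Mp (T j)).real {0} := by
      have h11 : K0 ≤ e * nT (T j) := by
        rw [div_lt_iff₀ hn] at h5
        exact h5.le
      have h12 : NF (T j) / nT (T j) * nT (T j) = NF (T j) := by field_simp
      calc ((1 - e) + NF (T j) / nT (T j) - e) * nT (T j) =
          (1 - e) * nT (T j) + NF (T j) / nT (T j) * nT (T j) - e * nT (T j) := by ring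
        _ ≤ _ := by rw [h12]; linarith
    rw [mul_comm] at h10
    exact le_of_mul_le_mul_left h10 hn
  have h10 := (abs_le.1 h2).2
  have hεe : ε = 7 * e := by rw [he]; ring
  rw [hεe]
  linarith

/-- **Only the sine kernel.** -/
theorem top {T : ι → ℝ} (hT : Tendsto T l atTop) {n : ι → ℕ} {φ : ∀ j, Fin (n j) → ℝ → ℝ}
    (hφ : ∀ j, Fam (n j) (φ j))
    (hw : ∀ α β : ℝ, 0 < α → α < β → Tendsto (fun j => (Mp (T j)).real (Icc α β) -
      ∫ u in α..β, (1 - YY (φ j) u)) l (𝓝 0)) {δ : ℝ} (hδ : 0 < δ) :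
    ∀ᶠ j in l, (∀ u : ℝ, u ≠ 0 →
      |YY (φ j) u - (Real.sin (Real.pi * u) / (Real.pi * u)) ^ 2| ≤ δ) ∧
      NF (T j) / nT (T j) ≤ δ ∧ 1 - δ ≤ ∑ i, (∫ ξ, φ j i ξ) ^ 2 := by
  obtain ⟨C, hC, hk⟩ := key hT hφ hw
  obtain ⟨d, hd⟩ : ∃ d : ℝ, d = δ / 12 := ⟨_, rfl⟩
  have hd0 : 0 < d := by rw [hd]; positivity
  obtain ⟨κ, hκd⟩ : ∃ κ : ℝ, κ = min (1 / 2) (d / (64 * (C + 2))) := ⟨_, rfl⟩
  have hκ : 0 < κ := by rw [hκd]; positivity
  have hκ2 : κ ≤ 1 / 2 := by rw [hκd]; exact min_le_left _ _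
  have hκ3 : 64 * (C + 2) * κ ≤ d := by
    have : κ ≤ d / (64 * (C + 2)) := by rw [hκd]; exact min_le_right _ _
    rw [le_div_iff₀ (by positivity)] at this
    linarith
  filter_upwards [hk κ hκ hκ2 (κ ^ 2) (by positivity), hT.eventually (eventually_ge_atTop 10)]
    with j hj hT10
  have hn := nT_pos hT10
  have hA0 := (hφ j).AA_nonneg hκ
  have hNF0 : 0 ≤ NF (T j) / nT (T j) :=
    div_nonneg (Finset.sum_nonneg fun s _ => mm_nonneg s) hn.le
  have hA1 : AA (φ j) κ ≤ κ / 3 + (C + 1) * κ ^ 2 := by nlinarith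
  have hA2 : κ / 3 + (C + 1) * κ ^ 2 ≤ (C + 2) * κ := by nlinarith
  have hA3 : AA (φ j) κ ≤ (C + 2) * κ := hA1.trans hA2
  have hAd : AA (φ j) κ ≤ d := by nlinarith
  have hw' : ∀ a : ℝ, 0 ≤ a → a ≤ 1 → WW (φ j) a ≤ a + d := by
    intro a ha ha1
    refine ((hφ j).core hκ ha).trans ?_
    have h1 : 3 * a * AA (φ j) κ / κ ≤ a + 3 * (C + 1) * κ := by
      rw [div_le_iff₀ hκ]
      have h2 : 3 * a * AA (φ j) κ ≤ 3 * a * (κ / 3 + (C + 1) * κ ^ 2) := by gcongr
      have h3 : a * (3 * (C + 1) * κ ^ 2) ≤ 1 * (3 * (C + 1) * κ ^ 2) := by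
        apply mul_le_mul_of_nonneg_right ha1 (by positivity)
      nlinarith
    have h2 : 32 * AA (φ j) κ ≤ 32 * ((C + 2) * κ) := by linarith
    have h3 : 3 * (C + 1) * κ ≤ 32 * ((C + 2) * κ) := by nlinarith
    linarith
  obtain ⟨h1, h2⟩ := (hφ j).dist hd0.le (((hφ j).zero_le_AA hκ).trans hAd) hw'
  refine ⟨fun u hu => ?_, ?_, ?_⟩
  · refine (hφ j).close (δ := δ) ?_ hu
    rw [hd] at h1
    linarith
  · have : κ / 3 + C * κ ^ 2 + κ ^ 2 ≤ d := by nlinarith
    rw [hd] at this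
    linarith
  · rw [(hφ j).BB_tot] at h2
    rw [hd] at h2
    linarith

theorem windows {T : ι → ℝ} (hT : Tendsto T l atTop) {n : ι → ℕ} {φ : ∀ j, Fin (n j) → ℝ → ℝ}
    (hφ : ∀ j, Fam (n j) (φ j))
    (hw : ∀ α β : ℝ, 0 < α → α < β → Tendsto (fun j => (Mp (T j)).real (Icc α β) -
      ∫ u in α..β, (1 - YY (φ j) u)) l (𝓝 0)) {α β : ℝ} (hα : 0 < α) (hαβ : α < β) :
    Tendsto (fun j => (Mp (T j)).real (Icc α β)) l (𝓝 (∫ u in α..β, FF u)) := by
  rw [Metric.tendsto_nhds]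
  intro ε hε
  obtain ⟨δ, hδd⟩ : ∃ δ : ℝ, δ = ε / (4 * (β - α)) := ⟨_, rfl⟩
  have hba : 0 < β - α := by linarith
  have hδ : 0 < δ := by rw [hδd]; positivity
  filter_upwards [top hT hφ hw hδ, (Metric.tendsto_nhds.1 (hw α β hα hαβ)) (ε / 2) (by positivity)]
    with j h1 h2
  rw [Real.dist_eq, sub_zero] at h2
  rw [Real.dist_eq]
  have h3 : |(∫ u in α..β, (1 - YY (φ j) u)) - ∫ u in α..β, FF u| ≤ δ * (β - α) := by
    have i1 : IntervalIntegrable (fun u => 1 - YY (φ j) u) volume α β :=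
      (continuous_const.sub (hφ j).YY_cont).intervalIntegrable _ _
    rw [← intervalIntegral.integral_sub i1 (FF_ii α β), ← Real.norm_eq_abs]
    have h4 := intervalIntegral.norm_integral_le_of_norm_le_const (a := α) (b := β) (C := δ)
      (f := fun u => 1 - YY (φ j) u - FF u) (fun u hu => by
        rw [uIoc_of_le hαβ.le] at hu
        have hu0 : u ≠ 0 := by linarith [hu.1]
        have h5 := h1.1 u hu0
        rw [Real.norm_eq_abs, abs_sub_comm]
        unfold Pool.Agent.Y749.Rig.FF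
        rw [show 1 - (Real.sin (Real.pi * u) / (Real.pi * u)) ^ 2 - (1 - YY (φ j) u) =
          YY (φ j) u - (Real.sin (Real.pi * u) / (Real.pi * u)) ^ 2 by ring]
        exact h5)
    rwa [abs_of_pos hba] at h4
  have h4 : δ * (β - α) = ε / 4 := by rw [hδd]; field_simp
  have h5 := abs_sub_le ((Mp (T j)).real (Icc α β)) (∫ u in α..β, (1 - YY (φ j) u))
    (∫ u in α..β, FF u)
  linarith

/-! ### The sine process -/

lemma sine_sp : Sp ((Icc (-(1 / 2) : ℝ) (1 / 2)).indicator fun _ => 1) := by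
  refine ⟨measurable_const.indicator measurableSet_Icc, fun ξ => indicator_nonneg
    (fun _ _ => zero_le_one) ξ, fun ξ => ?_, ?_⟩
  · by_cases h : ξ ∈ Icc (-(1 / 2) : ℝ) (1 / 2)
    · rw [indicator_of_mem h]
    · rw [indicator_of_notMem h]; exact zero_le_one
  · exact (integrable_indicator_iff measurableSet_Icc).2 (integrableOn_const (by simp))

lemma sine_fam : Fam 1 (fun _ => (Icc (-(1 / 2) : ℝ) (1 / 2)).indicator fun _ => 1) := by
  refine ⟨fun _ => sine_sp, ?_⟩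
  rw [Finset.sum_const, Finset.card_univ, Fintype.card_fin, one_smul,
    integral_indicator measurableSet_Icc, setIntegral_const]
  simp
  norm_num

lemma sine_YY {u : ℝ} (hu : u ≠ 0) :
    YY (fun _ : Fin 1 => (Icc (-(1 / 2) : ℝ) (1 / 2)).indicator fun _ => 1) u =
      (Real.sin (Real.pi * u) / (Real.pi * u)) ^ 2 := by
  have hpi := Real.pi_pos
  unfold YY
  rw [Finset.sum_const, Finset.card_univ, Fintype.card_fin, one_smul, sine_sp.K_sq]
  have key : ∀ g : ℝ → ℝ, ∫ ξ, (Icc (-(1 / 2) : ℝ) (1 / 2)).indicator (fun _ => (1 : ℝ)) ξ * g ξ =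
      ∫ ξ in (-(1 / 2) : ℝ)..(1 / 2), g ξ := by
    intro g
    rw [intervalIntegral.integral_of_le (by norm_num), ← integral_Icc_eq_integral_Ioc,
      ← integral_indicator measurableSet_Icc]
    refine integral_congr_ae (ae_of_all _ fun ξ => ?_)
    simp only
    by_cases h : ξ ∈ Icc (-(1 / 2) : ℝ) (1 / 2)
    · rw [indicator_of_mem h, indicator_of_mem h, one_mul]
    · rw [indicator_of_notMem h, indicator_of_notMem h, zero_mul]
  rw [key, key]
  have h2 : 2 * Real.pi * u ≠ 0 := by positivity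
  have h3 : ∫ ξ in (-(1 / 2) : ℝ)..(1 / 2), Real.cos (2 * Real.pi * ξ * u) =
      Real.sin (Real.pi * u) / (Real.pi * u) := by
    have e : ∀ ξ : ℝ, Real.cos (2 * Real.pi * ξ * u) = Real.cos ((2 * Real.pi * u) * ξ) :=
      fun ξ => by congr 1; ring
    simp only [e]
    rw [intervalIntegral.integral_comp_mul_left (fun x => Real.cos x) h2, integral_cos,
      show 2 * Real.pi * u * (1 / 2) = Real.pi * u by ring,
      show 2 * Real.pi * u * -(1 / 2) = -(Real.pi * u) by ring, Real.sin_neg, smul_eq_mul]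
    field_simp
    ring
  have h4 : ∫ ξ in (-(1 / 2) : ℝ)..(1 / 2), Real.sin (2 * Real.pi * ξ * u) = 0 := by
    have e : ∀ ξ : ℝ, Real.sin (2 * Real.pi * ξ * u) = Real.sin ((2 * Real.pi * u) * ξ) :=
      fun ξ => by congr 1; ring
    simp only [e]
    rw [intervalIntegral.integral_comp_mul_left (fun x => Real.sin x) h2, integral_sin,
      show 2 * Real.pi * u * (1 / 2) = Real.pi * u by ring,
      show 2 * Real.pi * u * -(1 / 2) = -(Real.pi * u) by ring, Real.cos_neg]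
    simp
  rw [h3, h4]
  ring

end Pool.Agent.Y748.DP
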